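import Mathlib

set_option autoImplicit false

open MeasureTheory Set Module
open scoped ENNReal

namespace Pool.Agent.Helper758_ST

section general

variable {V : Type*} [NormedAddCommGroup V] [InnerProductSpace ℝ V] [FiniteDimensional ℝ V]

/-- the boundary of a simplex of full dimension -/
theorem hull_facts {ι : Type*} [Fintype ι] (hn : Fintype.card ι = finrank ℝ V + 1) (p : ι → V)
    (hp : AffineIndependent ℝ p) : ∃ b : AffineBasis ι ℝ V, (b : ι → V) = p ∧
      convexHull ℝ (range p) = {x | ∀ i, 0 ≤ b.coord i x} ∧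
      interior (convexHull ℝ (range p)) = {x | ∀ i, 0 < b.coord i x} ∧
      IsClosed (convexHull ℝ (range p)) := by
  have htop : affineSpan ℝ (range p) = ⊤ := by
    rw [hp.affineSpan_eq_top_iff_card_eq_finrank_add_one, hn]
  let b : AffineBasis ι ℝ V := ⟨p, hp, htop⟩
  have hb : (b : ι → V) = p := rfl
  refine ⟨b, hb, ?_, ?_, ?_⟩
  · rw [← hb]; exact b.convexHull_eq_nonneg_coord
  · rw [← hb]; exact b.interior_convexHull
  · exact (((Set.finite_range p).isCompact_convexHull (𝕜 := ℝ))).isClosed

/-- in a plane the boundary of a convex hull of finitely many points is covered by segments -/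
theorem frontier_sub_segments (hn : finrank ℝ V = 2) {κ : Type*} [Finite κ] (P : κ → V) :
    frontier (convexHull ℝ (range P)) ⊆ ⋃ i, ⋃ j, segment ℝ (P i) (P j) := by
  have hcl : IsClosed (convexHull ℝ (range P)) :=
    ((Set.finite_range P).isCompact_convexHull (𝕜 := ℝ)).isClosed
  intro x hx
  rw [frontier, hcl.closure_eq] at hx
  obtain ⟨hx1, hx2⟩ := hx
  obtain ⟨ι, hι, z, w, hz, hza, hw, hw1, hxw⟩ := eq_pos_convex_span_of_mem_convexHull hx1
  have hcard : Fintype.card ι ≤ finrank ℝ V + 1 := by
    have := hza.card_le_finrank_succ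
    exact this.trans (Nat.succ_le_succ (Submodule.finrank_le _))
  rcases hcard.eq_or_lt with h | h
  · exfalso
    obtain ⟨b, hb, h1, h2, h3⟩ := hull_facts h z hza
    apply hx2
    apply interior_mono (convexHull_mono hz)
    rw [h2]
    intro i
    have := b.coord_apply_combination_of_mem (Finset.mem_univ i) hw1
    rw [Finset.affineCombination_eq_linear_combination _ _ _ hw1, hb, hxw] at this
    rw [this]
    exact hw i
  · classical
    have hle : Fintype.card ι ≤ 2 := by omega
    have hne : Nonempty ι := by
      by_contra hcon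
      rw [not_nonempty_iff] at hcon
      simp at hw1
    -- a surjection from Fin 2
    obtain ⟨i0⟩ := hne
    have hex : ∃ i1 : ι, ∀ i, i = i0 ∨ i = i1 := by
      by_contra hcon
      push Not at hcon
      obtain ⟨a, ha, -⟩ := hcon i0
      obtain ⟨c, hc, hc'⟩ := hcon a
      have : ({i0, a, c} : Finset ι).card ≤ Fintype.card ι := Finset.card_le_univ _
      rw [Finset.card_eq_three.2 ⟨i0, a, c, ha.symm, hc.symm, hc'.symm, rfl⟩] at this
      omega
    obtain ⟨i1, hi1⟩ := hex
    obtain ⟨k0, hk0⟩ := hz (mem_range_self i0)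
    obtain ⟨k1, hk1⟩ := hz (mem_range_self i1)
    refine mem_iUnion.2 ⟨k0, mem_iUnion.2 ⟨k1, ?_⟩⟩
    rw [hk0, hk1, ← hxw]
    have hconv : Convex ℝ (segment ℝ (z i0) (z i1)) := convex_segment _ _
    refine hconv.sum_mem (fun i _ => (hw i).le) hw1 (fun i _ => ?_)
    rcases hi1 i with rfl | rfl
    · exact left_mem_segment _ _ _
    · exact right_mem_segment _ _ _

end general

section lengths

variable {V : Type*} [NormedAddCommGroup V] [InnerProductSpace ℝ V] [MeasurableSpace V] [BorelSpace V]
  [FiniteDimensional ℝ V]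

theorem nd1 (u : V) : (LinearMap.toSpanSingleton ℝ V u).normDet ^ 2 = ‖u‖ ^ 2 := by
  have := (LinearMap.toSpanSingleton ℝ V u).normDet_sq_eq_det_gram
    (OrthonormalBasis.singleton (Fin 1) ℝ)
  simp only [RCLike.ofReal_real_eq_id, id_eq] at this
  rw [this, Matrix.det_unique]
  simp [Matrix.gram]

/-- the length of a segment -/
theorem length_segment (p q : V) : μHE[1] (segment ℝ p q) = ENNReal.ofReal ‖q - p‖ := by
  set u : V := q - p with hu
  have h0 : segment ℝ p q = (fun x : V => p + x) '' ((LinearMap.toSpanSingleton ℝ V u) '' Icc 0 1) := by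
    rw [image_image, segment_eq_image']; rfl
  rw [h0, (isometry_add_left p).euclideanHausdorffMeasure_image]
  have h2 := (LinearMap.toSpanSingleton ℝ V u).euclideanHausdorffMeasure_image_eq_normDet_mul_volume (Icc 0 1)
  rw [Module.finrank_self] at h2
  rw [h2, Real.volume_Icc]
  have h3 := nd1 u
  have h4 := (LinearMap.toSpanSingleton ℝ V u).normDet_nonneg
  rw [(pow_left_inj₀ h4 (norm_nonneg _) two_ne_zero).1 h3]
  simp

theorem null_segment (p q : V) : μHE[2] (segment ℝ p q) = 0 := by
  rcases Measure.euclideanHausdorffMeasure_zero_or_top (show 1 < 2 by norm_num) (segment ℝ p q) with h | h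
  · exact h
  · rw [length_segment] at h
    exact absurd h ENNReal.ofReal_ne_top

theorem null_subsingleton {X : Type*} [EMetricSpace X] [MeasurableSpace X] [BorelSpace X] {s : Set X}
    (hs : s.Subsingleton) : μHE[1] s = 0 := by
  rcases Measure.euclideanHausdorffMeasure_zero_or_top (show 0 < 1 by norm_num) s with h | h
  · exact h
  · exfalso
    rw [Measure.euclideanHausdorffMeasure_zero] at h
    rcases hs.eq_empty_or_singleton with h' | ⟨x, h'⟩
    · rw [h'] at h; simp at h
    · rw [h'] at h
      simp at h

theorem segment_closed (a b : V) : IsClosed (segment ℝ a b) := by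
  rw [← convexHull_pair]
  exact ((Set.toFinite {a, b}).isCompact_convexHull (𝕜 := ℝ)).isClosed

end lengths

end Pool.Agent.Helper758_ST
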