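import Pool.Agent.Helper758_ST.A1
import Pool.Agent.Results.MP_6df474_gt.TetrahedronDisproof

set_option autoImplicit false

open MeasureTheory Set Module
open scoped ENNReal

namespace Pool.Agent.Helper758_ST

/-- Euclidean space `ℝⁿ`. -/
abbrev E (n : ℕ) : Type := EuclideanSpace ℝ (Fin n)

/-- the Gram determinant of two vectors -/
noncomputable def gram {V : Type*} [NormedAddCommGroup V] [InnerProductSpace ℝ V] (x y : V) : ℝ :=
  ‖x‖ ^ 2 * ‖y‖ ^ 2 - inner ℝ x y ^ 2

theorem gram_nonneg {V : Type*} [NormedAddCommGroup V] [InnerProductSpace ℝ V] (x y : V) :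
    0 ≤ gram x y := by
  have h := abs_real_inner_le_norm x y
  have := sq_le_sq' (by linarith [neg_abs_le (inner ℝ x y), norm_nonneg x, norm_nonneg y]) ((le_abs_self _).trans h)
  unfold gram
  nlinarith [this]

open Pool.Agent.Results.MP_6df474_gt.TetrahedronDisproof (tri area_tri) in
theorem area_tri' (p u v : E 3) :
    μHE[2] (tri p u v) = ENNReal.ofReal (√(gram u v) / 2) := by
  refine area_tri p u v (by positivity) ?_
  have := Real.sq_sqrt (gram_nonneg u v)
  change gram u v = _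
  nlinarith [this]

section surface

variable (b : AffineBasis (Fin 4) ℝ (E 3))

/-- the face opposite to the vertex with index `i` -/
def face (i : Fin 4) : Set (E 3) := {x | (∀ j, 0 ≤ b.coord j x) ∧ b.coord i x = 0}

theorem coord_comb (w : Fin 4 → ℝ) (hw : ∑ i, w i = 1) (j : Fin 4) :
    b.coord j (∑ i, w i • b i) = w j := by
  have := b.coord_apply_combination_of_mem (Finset.mem_univ j) hw
  rwa [Finset.affineCombination_eq_linear_combination _ _ _ hw] at this

open Pool.Agent.Results.MP_6df474_gt.TetrahedronDisproof (tri) in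
theorem face_eq (σ : Equiv.Perm (Fin 4)) :
    face b (σ 3) = tri (b (σ 0)) (b (σ 1) - b (σ 0)) (b (σ 2) - b (σ 0)) := by
  ext x
  constructor
  · rintro ⟨h1, h2⟩
    have hs : ∑ i, b.coord (σ i) x = 1 := by
      rw [Equiv.sum_comp σ (fun i => b.coord i x)]; exact b.sum_coord_apply_eq_one x
    have hx : ∑ i, b.coord (σ i) x • b (σ i) = x := by
      rw [Equiv.sum_comp σ (fun i => b.coord i x • b i)]; exact b.linear_combination_coord_eq_self x
    rw [Fin.sum_univ_four, h2] at hs hx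
    refine ⟨b.coord (σ 1) x, b.coord (σ 2) x, h1 _, h1 _, by linarith [h1 (σ 0)], ?_⟩
    have h0 : b.coord (σ 0) x = 1 - b.coord (σ 1) x - b.coord (σ 2) x := by linarith
    rw [h0] at hx
    conv_lhs => rw [← hx]
    module
  · rintro ⟨s, t, hs, ht, hst, rfl⟩
    let w : Fin 4 → ℝ := fun i => ![1 - s - t, s, t, 0] (σ.symm i)
    have hw1 : ∑ i, w i = 1 := by
      rw [← Equiv.sum_comp σ w, Fin.sum_univ_four]
      simp [w]
      ring
    have hx : b (σ 0) + (s • (b (σ 1) - b (σ 0)) + t • (b (σ 2) - b (σ 0))) = ∑ i, w i • b i := by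
      rw [← Equiv.sum_comp σ (fun i => w i • b i), Fin.sum_univ_four]
      simp [w]
      module
    rw [hx]
    refine ⟨fun j => ?_, ?_⟩
    · rw [coord_comb b w hw1]
      obtain ⟨i, rfl⟩ := σ.surjective j
      simp only [w, Equiv.symm_apply_apply]
      fin_cases i <;> simp <;> linarith
    · rw [coord_comb b w hw1]
      simp [w]

theorem face_inter (σ : Equiv.Perm (Fin 4)) :
    face b (σ 3) ∩ face b (σ 2) ⊆ segment ℝ (b (σ 0)) (b (σ 1)) := by
  rintro x ⟨⟨h1, h2⟩, ⟨-, h3⟩⟩
  have hs : ∑ i, b.coord (σ i) x = 1 := by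
    rw [Equiv.sum_comp σ (fun i => b.coord i x)]; exact b.sum_coord_apply_eq_one x
  have hx : ∑ i, b.coord (σ i) x • b (σ i) = x := by
    rw [Equiv.sum_comp σ (fun i => b.coord i x • b i)]; exact b.linear_combination_coord_eq_self x
  rw [Fin.sum_univ_four, h2, h3] at hs hx
  refine ⟨b.coord (σ 0) x, b.coord (σ 1) x, h1 _, h1 _, by linarith, ?_⟩
  conv_rhs => rw [← hx]
  module

theorem face_closed (i : Fin 4) : IsClosed (face b i) := by
  have h : ∀ j, Continuous (b.coord j) := fun j => AffineMap.continuous_of_finiteDimensional _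
  have : face b i = (⋂ j, {x | 0 ≤ b.coord j x}) ∩ {x | b.coord i x = 0} := by
    ext x; simp [face]
  rw [this]
  exact (isClosed_iInter fun j => isClosed_le continuous_const (h j)).inter
    (isClosed_eq (h i) continuous_const)

theorem exists_perm : ∀ i j : Fin 4, i ≠ j → ∃ σ : Equiv.Perm (Fin 4), σ 3 = i ∧ σ 2 = j := by
  decide

theorem measure_faces : μHE[2] (⋃ i, face b i) = ∑ i, μHE[2] (face b i) := by
  rw [measure_iUnion₀, tsum_fintype]
  · intro i j hij
    obtain ⟨σ, rfl, rfl⟩ := exists_perm i j hij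
    exact measure_mono_null (face_inter b σ) (null_segment _ _)
  · intro i
    exact (face_closed b i).measurableSet.nullMeasurableSet

end surface

/-- The surface area: the two-dimensional Hausdorff measure of the boundary, normalised so that it
agrees with Lebesgue measure on planes. -/
noncomputable def surfaceArea (K : Set (E 3)) : ℝ := (μHE[2] (frontier K)).toReal

theorem surface_eq (p : Fin 4 → E 3) (hp : AffineIndependent ℝ p) :
    surfaceArea (convexHull ℝ (range p)) = √(gram (p 1 - p 0) (p 2 - p 0)) / 2 +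
      √(gram (p 1 - p 0) (p 3 - p 0)) / 2 + √(gram (p 3 - p 0) (p 2 - p 0)) / 2 +
      √(gram (p 1 - p 3) (p 2 - p 3)) / 2 := by
  obtain ⟨b, hb, h1, h2, h3⟩ := hull_facts (by simp) p hp
  have hfr : frontier (convexHull ℝ (range p)) = ⋃ i, face b i := by
    rw [frontier, h3.closure_eq, h2, h1]
    ext x
    simp only [mem_sdiff, mem_ofPred_eq, mem_iUnion, face, not_forall, not_lt]
    constructor
    · rintro ⟨h, i, hi⟩; exact ⟨i, h, le_antisymm hi (h i)⟩
    · rintro ⟨i, h, hi⟩; exact ⟨h, i, hi.le⟩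
  have e3 := face_eq b 1
  have e0 := face_eq b (Equiv.swap 0 3)
  have e1 := face_eq b (Equiv.swap 1 3)
  have e2 := face_eq b (Equiv.swap 2 3)
  have k1 : (Equiv.swap (0 : Fin 4) 3) 3 = 0 ∧ (Equiv.swap (0 : Fin 4) 3) 0 = 3 ∧
    (Equiv.swap (0 : Fin 4) 3) 1 = 1 ∧ (Equiv.swap (0 : Fin 4) 3) 2 = 2 := by decide
  have k2 : (Equiv.swap (1 : Fin 4) 3) 3 = 1 ∧ (Equiv.swap (1 : Fin 4) 3) 0 = 0 ∧
    (Equiv.swap (1 : Fin 4) 3) 1 = 3 ∧ (Equiv.swap (1 : Fin 4) 3) 2 = 2 := by decide
  have k3 : (Equiv.swap (2 : Fin 4) 3) 3 = 2 ∧ (Equiv.swap (2 : Fin 4) 3) 0 = 0 ∧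
    (Equiv.swap (2 : Fin 4) 3) 1 = 1 ∧ (Equiv.swap (2 : Fin 4) 3) 2 = 3 := by decide
  rw [k1.1, k1.2.1, k1.2.2.1, k1.2.2.2] at e0
  rw [k2.1, k2.2.1, k2.2.2.1, k2.2.2.2] at e1
  rw [k3.1, k3.2.1, k3.2.2.1, k3.2.2.2] at e2
  simp only [Equiv.Perm.coe_one, id_eq] at e3
  rw [surfaceArea, hfr, measure_faces, Fin.sum_univ_four, e0, e1, e2, e3, area_tri', area_tri',
    area_tri', area_tri', hb]
  rw [← ENNReal.ofReal_add (by positivity) (by positivity),
    ← ENNReal.ofReal_add (by positivity) (by positivity),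
    ← ENNReal.ofReal_add (by positivity) (by positivity), ENNReal.toReal_ofReal (by positivity)]
  ring

end Pool.Agent.Helper758_ST
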