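import Pool.Agent.Helper758_ST.A2

set_option autoImplicit false

open MeasureTheory Set Module
open scoped ENNReal

namespace Pool.Agent.Helper758_ST

/-- The shadow of `K` in the plane `u^⊥`: the image of `K` under the orthogonal projection. -/
def shadow (u : E 3) (K : Set (E 3)) : Set ↥(ℝ ∙ u)ᗮ := (ℝ ∙ u)ᗮ.orthogonalProjectionOnto '' K

/-- The perimeter of the shadow: the length (one-dimensional Hausdorff measure) of its boundary in
the plane `u^⊥`. -/
noncomputable def perimeter (u : E 3) (K : Set (E 3)) : ℝ := (μHE[1] (frontier (shadow u K))).toReal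

/-- The least perimeter of a shadow of `K`; the planes through the origin are the planes `u^⊥`,
`‖u‖ = 1`. -/
noncomputable def minPerimeter (K : Set (E 3)) : ℝ := ⨅ u : Metric.sphere (0 : E 3) 1, perimeter u K

/-- the projection -/
noncomputable abbrev pr (u : E 3) : E 3 →L[ℝ] ↥(ℝ ∙ u)ᗮ := (ℝ ∙ u)ᗮ.orthogonalProjectionOnto

theorem shadow_hull (u : E 3) (p : Fin 4 → E 3) :
    shadow u (convexHull ℝ (range p)) = convexHull ℝ (range fun i => pr u (p i)) := by
  have := (pr u).toLinearMap.image_convexHull (range p)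
  rw [← range_comp] at this
  exact this

theorem norm_pr {u : E 3} (hu : ‖u‖ = 1) (x : E 3) : ‖pr u x‖ ^ 2 = ‖x‖ ^ 2 - inner ℝ u x ^ 2 := by
  have h1 := Submodule.norm_sq_eq_add_norm_sq_projection x (ℝ ∙ u)
  have h2 : ‖(ℝ ∙ u).orthogonalProjectionOnto x‖ = |inner ℝ u x| := by
    have := Submodule.starProjection_unit_singleton ℝ hu x
    change ‖(ℝ ∙ u).starProjection x‖ = _
    rw [this, norm_smul, hu, mul_one, Real.norm_eq_abs]
  rw [h2, sq_abs] at h1
  linarith

theorem finrank_plane {u : E 3} (hu : ‖u‖ = 1) : finrank ℝ ↥(ℝ ∙ u)ᗮ = 2 := by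
  have hu0 : u ≠ 0 := by intro h; simp [h] at hu
  have : Fact (finrank ℝ (E 3) = 2 + 1) := ⟨by simp⟩
  exact Submodule.finrank_orthogonal_span_singleton hu0

/-- squared length of a projected edge -/
noncomputable def gap (u x : E 3) : ℝ := ‖x‖ ^ 2 - inner ℝ u x ^ 2

theorem length_pr {u : E 3} (hu : ‖u‖ = 1) (x y : E 3) :
    μHE[1] (segment ℝ (pr u x) (pr u y)) = ENNReal.ofReal √(gap u (y - x)) := by
  rw [length_segment, ← map_sub, gap, ← norm_pr hu, Real.sqrt_sq (norm_nonneg _)]

theorem frontier_sub {u : E 3} (hu : ‖u‖ = 1) (p : Fin 4 → E 3) :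
    frontier (shadow u (convexHull ℝ (range p))) ⊆
      ⋃ i, ⋃ j, segment ℝ (pr u (p i)) (pr u (p j)) := by
  rw [shadow_hull]
  exact frontier_sub_segments (finrank_plane hu) _

theorem frontier_ne_top {u : E 3} (hu : ‖u‖ = 1) (p : Fin 4 → E 3) :
    μHE[1] (frontier (shadow u (convexHull ℝ (range p)))) ≠ ⊤ := by
  refine ne_top_of_le_ne_top ?_ (measure_mono (frontier_sub hu p))
  refine ne_top_of_le_ne_top ?_ (measure_iUnion_fintype_le _ _)
  refine (ENNReal.sum_lt_top.2 fun i _ => ?_).ne
  refine lt_of_le_of_lt (measure_iUnion_fintype_le _ _) (ENNReal.sum_lt_top.2 fun j _ => ?_)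
  rw [length_pr hu]
  exact ENNReal.ofReal_lt_top

theorem gap_unit {e x : E 3} (he : e ≠ 0) : gap (‖e‖⁻¹ • e) x = gram e x / ‖e‖ ^ 2 := by
  have h : ‖e‖ ≠ 0 := norm_ne_zero_iff.2 he
  rw [gap, gram, inner_smul_left]
  simp only [map_inv₀, conj_trivial]
  field_simp

theorem seg_cover {V : Type*} [AddCommGroup V] [Module ℝ V] {a b c : V} (P : Fin 4 → V)
    (h0 : P 0 = a) (h1 : P 1 = a) (h2 : P 2 = b) (h3 : P 3 = c) (i j : Fin 4) :
    segment ℝ (P i) (P j) ⊆ segment ℝ a b ∪ (segment ℝ a c ∪ segment ℝ b c) := by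
  have a0 := left_mem_segment ℝ a b
  have a2 := right_mem_segment ℝ a b
  have a3 := right_mem_segment ℝ a c
  fin_cases i <;> fin_cases j <;>
    simp only [Fin.zero_eta, Fin.mk_one, Fin.reduceFinMk, h0, h1, h2, h3, segment_same,
      singleton_subset_iff] <;>
    first
      | exact Or.inl a0
      | exact Or.inl a2
      | exact Or.inr (Or.inl a3)
      | exact subset_union_left
      | exact subset_union_of_subset_right subset_union_left _
      | exact subset_union_of_subset_right subset_union_right _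
      | (rw [segment_symm]; exact subset_union_left)
      | (rw [segment_symm]; exact subset_union_of_subset_right subset_union_left _)
      | (rw [segment_symm]; exact subset_union_of_subset_right subset_union_right _)

theorem perimeter_edge (p : Fin 4 → E 3) (h : p 1 - p 0 ≠ 0) :
    perimeter (‖p 1 - p 0‖⁻¹ • (p 1 - p 0)) (convexHull ℝ (range p)) * ‖p 1 - p 0‖ ≤
      √(gram (p 1 - p 0) (p 2 - p 0)) + √(gram (p 1 - p 0) (p 3 - p 0)) +
        √(gram (p 1 - p 0) (p 3 - p 2)) := by
  set e := p 1 - p 0 with he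
  have h' : ‖e‖ ≠ 0 := norm_ne_zero_iff.2 h
  have hpos : 0 < ‖e‖ := norm_pos_iff.2 h
  have hu : ‖‖e‖⁻¹ • e‖ = 1 := by rw [norm_smul, norm_inv, norm_norm, inv_mul_cancel₀ h']
  set u := ‖e‖⁻¹ • e with hu'
  have h01 : pr u (p 1) = pr u (p 0) := by
    have : pr u (p 1 - p 0) = 0 := by
      have h1 := norm_pr hu (p 1 - p 0)
      have h2 : ‖pr u (p 1 - p 0)‖ ^ 2 = 0 := by
        rw [h1]
        change gap u e = 0
        rw [hu', gap_unit h, gram, real_inner_self_eq_norm_sq]
        field_simp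
        ring
      exact norm_eq_zero.1 (pow_eq_zero_iff (two_ne_zero) |>.1 h2)
    rw [map_sub, sub_eq_zero] at this
    exact this
  have hsub : frontier (shadow u (convexHull ℝ (range p))) ⊆
      segment ℝ (pr u (p 0)) (pr u (p 2)) ∪ (segment ℝ (pr u (p 0)) (pr u (p 3)) ∪
        segment ℝ (pr u (p 2)) (pr u (p 3))) := by
    refine (frontier_sub hu p).trans ?_
    refine iUnion_subset fun i => iUnion_subset fun j => ?_
    exact seg_cover (fun i => pr u (p i)) rfl h01 rfl rfl i j
  have hm : μHE[1] (frontier (shadow u (convexHull ℝ (range p)))) ≤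
      ENNReal.ofReal (√(gap u (p 2 - p 0)) + (√(gap u (p 3 - p 0)) + √(gap u (p 3 - p 2)))) := by
    refine (measure_mono hsub).trans ((measure_union_le _ _).trans ?_)
    rw [ENNReal.ofReal_add (by positivity) (by positivity),
      ENNReal.ofReal_add (by positivity) (by positivity)]
    refine add_le_add (length_pr hu _ _).le ((measure_union_le _ _).trans ?_)
    exact add_le_add (length_pr hu _ _).le (length_pr hu _ _).le
  have hper : perimeter u (convexHull ℝ (range p)) ≤
      √(gap u (p 2 - p 0)) + (√(gap u (p 3 - p 0)) + √(gap u (p 3 - p 2))) := by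
    refine ENNReal.toReal_le_of_le_ofReal (by positivity) hm
  have key : ∀ x : E 3, √(gap u x) * ‖e‖ = √(gram e x) := by
    intro x
    rw [hu', gap_unit h, Real.sqrt_div' _ (by positivity), Real.sqrt_sq hpos.le,
      div_mul_cancel₀ _ h']
  calc perimeter u (convexHull ℝ (range p)) * ‖e‖ ≤
      (√(gap u (p 2 - p 0)) + (√(gap u (p 3 - p 0)) + √(gap u (p 3 - p 2)))) * ‖e‖ :=
        mul_le_mul_of_nonneg_right hper hpos.le
    _ = _ := by rw [add_mul, add_mul, key, key, key]; ring

theorem perimeter_nonneg (u : E 3) (K : Set (E 3)) : 0 ≤ perimeter u K := ENNReal.toReal_nonneg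

theorem minPerimeter_le {u : E 3} (hu : ‖u‖ = 1) (K : Set (E 3)) : minPerimeter K ≤ perimeter u K := by
  have hb : BddBelow (range fun u : Metric.sphere (0 : E 3) 1 => perimeter u K) :=
    ⟨0, by rintro _ ⟨v, rfl⟩; exact perimeter_nonneg _ _⟩
  exact ciInf_le hb ⟨u, by simpa using hu⟩

theorem minPerimeter_nonneg (K : Set (E 3)) : 0 ≤ minPerimeter K :=
  Real.iInf_nonneg fun _ => perimeter_nonneg _ _

end Pool.Agent.Helper758_ST
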