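import Pool.Agent.Helper758_ST.A3

set_option autoImplicit false

open MeasureTheory Set Module
open scoped ENNReal

namespace Pool.Agent.Helper758_ST

/-- the basic inequality, in terms of doubled areas -/
theorem alg {m a b c B0 B1 B2 B3 K0 K1 K2 : ℝ} (hm : 0 ≤ m) (ha0 : 0 ≤ a) (hb0 : 0 ≤ b)
    (hc0 : 0 ≤ c)
    (hc : m * c ≤ B3 + B2 + K2) (hb : m * b ≤ B3 + B1 + K1) (ha : m * a ≤ B3 + B0 + K0)
    (hid : B0 ^ 2 + B1 ^ 2 + B2 ^ 2 + B3 ^ 2 = K0 ^ 2 + K1 ^ 2 + K2 ^ 2) :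
    6 * m ^ 2 * B3 + √3 * m ^ 2 * (a ^ 2 + b ^ 2 + c ^ 2 - 2 * √3 * B3) +
      (2 * √3 + 4) * (B0 * (B3 - B0) + B1 * (B3 - B1) + B2 * (B3 - B2)) +
      ((B3 + B0 - √3 * K0) ^ 2 + (B3 + B1 - √3 * K1) ^ 2 + (B3 + B2 - √3 * K2) ^ 2) ≤
      (4 * √3 + 6) * B3 * (B0 + B1 + B2 + B3) := by
  have r2 : √3 ^ 2 = (3 : ℝ) := Real.sq_sqrt (by norm_num)
  have hr : 0 ≤ √3 := Real.sqrt_nonneg 3
  set r := √3 with hrdef
  have h1 : (m * a) ^ 2 ≤ (B3 + B0 + K0) ^ 2 := pow_le_pow_left₀ (by positivity) ha 2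
  have h2 : (m * b) ^ 2 ≤ (B3 + B1 + K1) ^ 2 := pow_le_pow_left₀ (by positivity) hb 2
  have h3 : (m * c) ^ 2 ≤ (B3 + B2 + K2) ^ 2 := pow_le_pow_left₀ (by positivity) hc 2
  have h4 := mul_le_mul_of_nonneg_left (add_le_add (add_le_add h1 h2) h3) hr
  have e1 : (4 * r + 6) * B3 * (B0 + B1 + B2 + B3) -
      (6 * m ^ 2 * B3 + r * m ^ 2 * (a ^ 2 + b ^ 2 + c ^ 2 - 2 * r * B3) +
      (2 * r + 4) * (B0 * (B3 - B0) + B1 * (B3 - B1) + B2 * (B3 - B2)) +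
      ((B3 + B0 - r * K0) ^ 2 + (B3 + B1 - r * K1) ^ 2 + (B3 + B2 - r * K2) ^ 2)) =
      r * ((B3 + B0 + K0) ^ 2 + (B3 + B1 + K1) ^ 2 + (B3 + B2 + K2) ^ 2) -
      r * ((m * a) ^ 2 + (m * b) ^ 2 + (m * c) ^ 2) := by
    linear_combination (-(K0 ^ 2 + K1 ^ 2 + K2 ^ 2) + 2 * m ^ 2 * B3) * r2 + (r + 3) * hid
  linarith

/-- Weitzenböck's inequality -/
theorem weitz (uu vv uv : ℝ) (hu : 0 ≤ uu) (hv : 0 ≤ vv) (hg : 0 ≤ uu * vv - uv ^ 2) :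
    2 * √3 * √(uu * vv - uv ^ 2) ≤ (uu + vv - 2 * uv) + vv + uu ∧
    ((uu + vv - 2 * uv) + vv + uu = 2 * √3 * √(uu * vv - uv ^ 2) → uu = vv ∧ uv = uu / 2) := by
  have r2 : √3 ^ 2 = (3 : ℝ) := Real.sq_sqrt (by norm_num)
  have g2 : √(uu * vv - uv ^ 2) ^ 2 = uu * vv - uv ^ 2 := Real.sq_sqrt hg
  have hpos : 0 ≤ (uu + vv - 2 * uv) + vv + uu := by
    nlinarith [sq_nonneg (uu - vv), sq_nonneg (uu + vv), abs_le_of_sq_le_sq' (show uv ^ 2 ≤ ((uu + vv) / 2) ^ 2 by nlinarith [sq_nonneg (uu - vv)]) (by positivity)]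
  have key : ((uu + vv - 2 * uv) + vv + uu) ^ 2 - (2 * √3 * √(uu * vv - uv ^ 2)) ^ 2 =
      3 * (uu - vv) ^ 2 + (uu + vv - 4 * uv) ^ 2 := by
    rw [mul_pow, mul_pow, r2, g2]; ring
  constructor
  · apply le_of_sq_le_sq _ hpos
    nlinarith [sq_nonneg (uu - vv), sq_nonneg (uu + vv - 4 * uv)]
  · intro h
    rw [h, sub_self] at key
    have h1 : (uu - vv) ^ 2 = 0 := by nlinarith [sq_nonneg (uu - vv), sq_nonneg (uu + vv - 4 * uv)]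
    have h2 : (uu + vv - 4 * uv) ^ 2 = 0 := by nlinarith [sq_nonneg (uu - vv), sq_nonneg (uu + vv - 4 * uv)]
    have h3 : uu - vv = 0 := pow_eq_zero_iff (two_ne_zero) |>.1 h1
    have h4 : uu + vv - 4 * uv = 0 := pow_eq_zero_iff (two_ne_zero) |>.1 h2
    constructor <;> linarith

/-- the equality case -/
theorem eqcase {L α β γ : ℝ} (hL : 0 < L) (h2 : L * α - β ^ 2 = 3 / 4 * L ^ 2)
    (h1 : L * α - γ ^ 2 = 3 / 4 * L ^ 2)
    (k2 : L * (α - 2 * γ + L) - (β - L / 2) ^ 2 = L ^ 2)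
    (k1 : L * (α - 2 * β + L) - (γ - L / 2) ^ 2 = L ^ 2)
    (k0 : L * α - (γ - β) ^ 2 = L ^ 2) : α = L ∧ β = L / 2 ∧ γ = L / 2 := by
  have e1 : (β - γ) * (3 * L - β - γ) = 0 := by nlinarith
  have e2 : (β - γ) * (β + γ) = 0 := by nlinarith
  have e3 : β = γ := by
    have : (β - γ) * (3 * L) = 0 := by nlinarith
    rcases mul_eq_zero.1 this with h | h
    · linarith
    · nlinarith
  subst e3
  have e4 : L * (α - L) = 0 := by nlinarith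
  have e5 : α = L := by
    rcases mul_eq_zero.1 e4 with h | h
    · linarith
    · linarith
  subst e5
  have e6 : (β - α / 2) * (β + α / 2) = 0 := by nlinarith
  have e7 : β = α / 2 := by
    rcases mul_eq_zero.1 e6 with h | h
    · linarith
    · have : β = - α / 2 := by linarith
      subst this
      nlinarith
  exact ⟨rfl, e7, e7⟩

end Pool.Agent.Helper758_ST
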