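import Pool.Agent.Helper758_ST.A4

set_option autoImplicit false

open MeasureTheory Set Module
open scoped ENNReal

namespace Pool.Agent.Helper758_ST

section gramids
variable {V : Type*} [NormedAddCommGroup V] [InnerProductSpace ℝ V] (u v w : V)

theorem gram_symm : gram v u = gram u v := by
  rw [gram, gram, real_inner_comm]; ring

theorem gram_a : gram (v - u) (-u) = gram u v := by
  simp only [gram, norm_sub_sq_real, inner_sub_left, inner_neg_right, norm_neg,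
    real_inner_self_eq_norm_sq, real_inner_comm u v]
  ring

theorem gram_b : gram (v - u) (w - u) = gram (u - w) (v - w) := by
  simp only [gram, norm_sub_sq_real, inner_sub_left, inner_sub_right,
    real_inner_self_eq_norm_sq, real_inner_comm u v, real_inner_comm u w, real_inner_comm v w]
  ring

theorem gram_id : gram (u - w) (v - w) + gram w v + gram u w + gram u v =
    gram (v - u) w + gram v (w - u) + gram u (w - v) := by
  simp only [gram, norm_sub_sq_real, inner_sub_left, inner_sub_right,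
    real_inner_self_eq_norm_sq, real_inner_comm u v, real_inner_comm u w, real_inner_comm v w]
  ring

end gramids

theorem gram_pos {p : Fin 4 → E 3} (hp : AffineIndependent ℝ p) {i j k : Fin 4} (hij : j ≠ i)
    (hik : k ≠ i) (hjk : k ≠ j) : 0 < gram (p j - p i) (p k - p i) := by
  refine lt_of_le_of_ne (gram_nonneg _ _) (fun h => ?_)
  obtain ⟨b, hb, -⟩ := hull_facts (by simp) p hp
  have hx : p j - p i ≠ 0 := by
    rw [sub_ne_zero]; exact fun h => hij (hp.injective h)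
  set x := p j - p i with hxd
  set y := p k - p i with hyd
  have hn : ‖x‖ ^ 2 ≠ 0 := pow_ne_zero 2 (norm_ne_zero_iff.2 hx)
  have hz : y - (inner ℝ x y / ‖x‖ ^ 2) • x = 0 := by
    rw [← norm_eq_zero, ← pow_eq_zero_iff (two_ne_zero), norm_sub_sq_real, inner_smul_right,
      norm_smul, mul_pow, Real.norm_eq_abs, sq_abs, real_inner_comm x y]
    rw [gram] at h
    field_simp
    linarith
  set c := inner ℝ x y / ‖x‖ ^ 2 with hc
  have hk : b k = AffineMap.lineMap (b i) (b j) c := by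
    rw [hb, AffineMap.lineMap_apply, vsub_eq_sub, vadd_eq_add]
    have : y = c • x := sub_eq_zero.1 hz
    rw [hxd, hyd] at this
    rw [← this]; abel
  have h1 : b.coord k (b k) = 1 := b.coord_apply_eq k
  rw [hk, AffineMap.apply_lineMap, b.coord_apply_ne hik, b.coord_apply_ne hjk] at h1
  simp at h1

theorem perimeter_edge' (p : Fin 4 → E 3) (σ : Equiv.Perm (Fin 4)) (h : p (σ 1) - p (σ 0) ≠ 0) :
    perimeter (‖p (σ 1) - p (σ 0)‖⁻¹ • (p (σ 1) - p (σ 0))) (convexHull ℝ (range p)) *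
      ‖p (σ 1) - p (σ 0)‖ ≤
      √(gram (p (σ 1) - p (σ 0)) (p (σ 2) - p (σ 0))) +
      √(gram (p (σ 1) - p (σ 0)) (p (σ 3) - p (σ 0))) +
        √(gram (p (σ 1) - p (σ 0)) (p (σ 3) - p (σ 2))) := by
  have h1 := perimeter_edge (p ∘ σ) h
  rw [EquivLike.range_comp] at h1
  exact h1

theorem exists_perm2 : ∃ σ : Equiv.Perm (Fin 4), σ 0 = 1 ∧ σ 1 = 2 ∧ σ 2 = 0 ∧ σ 3 = 3 := by
  decide

theorem exists_perm3 : ∃ σ : Equiv.Perm (Fin 4), σ 0 = 0 ∧ σ 1 = 2 ∧ σ 2 = 1 ∧ σ 3 = 3 := by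
  decide

theorem dist_all {p : Fin 4 → E 3} {l : ℝ} (h01 : dist (p 0) (p 1) = l) (h02 : dist (p 0) (p 2) = l)
    (h03 : dist (p 0) (p 3) = l) (h12 : dist (p 1) (p 2) = l) (h13 : dist (p 1) (p 3) = l)
    (h23 : dist (p 2) (p 3) = l) : ∀ a b : Fin 4, a ≠ b → dist (p a) (p b) = l := by
  have h10 : dist (p 1) (p 0) = l := by rw [dist_comm]; exact h01
  have h20 : dist (p 2) (p 0) = l := by rw [dist_comm]; exact h02
  have h30 : dist (p 3) (p 0) = l := by rw [dist_comm]; exact h03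
  have h21 : dist (p 2) (p 1) = l := by rw [dist_comm]; exact h12
  have h31 : dist (p 3) (p 1) = l := by rw [dist_comm]; exact h13
  have h32 : dist (p 3) (p 2) = l := by rw [dist_comm]; exact h23
  intro a b hab
  match a, b, hab with
  | 0, 0, h => exact absurd rfl h
  | 1, 1, h => exact absurd rfl h
  | 2, 2, h => exact absurd rfl h
  | 3, 3, h => exact absurd rfl h
  | 0, 1, _ => exact h01
  | 0, 2, _ => exact h02
  | 0, 3, _ => exact h03
  | 1, 0, _ => exact h10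
  | 1, 2, _ => exact h12
  | 1, 3, _ => exact h13
  | 2, 0, _ => exact h20
  | 2, 1, _ => exact h21
  | 2, 3, _ => exact h23
  | 3, 0, _ => exact h30
  | 3, 1, _ => exact h31
  | 3, 2, _ => exact h32

theorem eq_geom {u v w : E 3} (hu0 : u ≠ 0) (hL : ‖u‖ ^ 2 = ‖v‖ ^ 2)
    (huv : inner ℝ u v = ‖u‖ ^ 2 / 2) (hg1 : gram w v = gram u v) (hg2 : gram u w = gram u v)
    (hk0 : 3 * gram (v - u) w = 4 * gram u v) (hk1 : 3 * gram v (w - u) = 4 * gram u v)
    (hk2 : 3 * gram u (w - v) = 4 * gram u v) :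
    ‖v‖ = ‖u‖ ∧ ‖w‖ = ‖u‖ ∧ ‖v - u‖ = ‖u‖ ∧ ‖w - u‖ = ‖u‖ ∧ ‖w - v‖ = ‖u‖ := by
  have hupos : 0 < ‖u‖ ^ 2 := by positivity
  simp only [gram, norm_sub_sq_real, inner_sub_left, inner_sub_right,
    real_inner_self_eq_norm_sq] at hg1 hg2 hk0 hk1 hk2
  have cvu : inner ℝ v u = inner ℝ u v := real_inner_comm _ _
  have cwu : inner ℝ w u = inner ℝ u w := real_inner_comm _ _
  have cwv : inner ℝ w v = inner ℝ v w := real_inner_comm _ _
  rw [cvu, ← hL, huv] at hk0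
  rw [cvu, ← hL, huv, cwu] at hk1
  rw [← hL, huv, cwv] at hk2
  rw [← hL, huv, cwv] at hg1
  rw [← hL, huv] at hg2
  obtain ⟨x1, x2, x3⟩ := eqcase (L := ‖u‖ ^ 2) (α := ‖w‖ ^ 2) (β := inner ℝ u w) (γ := inner ℝ v w)
    hupos (by linarith) (by linarith) (by linarith) (by linarith) (by linarith)
  refine ⟨?_, ?_, ?_, ?_, ?_⟩
  · rw [← Real.sqrt_sq (norm_nonneg v), ← Real.sqrt_sq (norm_nonneg u), hL]
  · rw [← Real.sqrt_sq (norm_nonneg w), ← Real.sqrt_sq (norm_nonneg u), x1]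
  · rw [← Real.sqrt_sq (norm_nonneg (v - u)), ← Real.sqrt_sq (norm_nonneg u)]
    congr 1
    rw [norm_sub_sq_real, cvu, ← hL, huv]; ring
  · rw [← Real.sqrt_sq (norm_nonneg (w - u)), ← Real.sqrt_sq (norm_nonneg u)]
    congr 1
    rw [norm_sub_sq_real, cwu, x1, x2]; ring
  · rw [← Real.sqrt_sq (norm_nonneg (w - v)), ← Real.sqrt_sq (norm_nonneg u)]
    congr 1
    rw [norm_sub_sq_real, cwv, x1, x3, ← hL]; ring

/-- the reduction to real numbers -/
theorem alg2 {m a b c B0 B1 B2 B3 K0 K1 K2 : ℝ} (hm : 0 ≤ m) (ha0 : 0 ≤ a) (hb0 : 0 ≤ b)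
    (hc0 : 0 ≤ c)
    (hc : m * c ≤ B3 + B2 + K2) (hb : m * b ≤ B3 + B1 + K1) (ha : m * a ≤ B3 + B0 + K0)
    (hid : B0 ^ 2 + B1 ^ 2 + B2 ^ 2 + B3 ^ 2 = K0 ^ 2 + K1 ^ 2 + K2 ^ 2)
    (b0 : 0 < B0) (b1 : 0 < B1) (b2 : 0 < B2) (b3 : 0 < B3)
    (h0 : B0 ≤ B3) (h1 : B1 ≤ B3) (h2 : B2 ≤ B3) (hW : 2 * √3 * B3 ≤ a ^ 2 + b ^ 2 + c ^ 2) :
    m ^ 2 ≤ (4 * √3 + 6) / 6 * (B0 + B1 + B2 + B3) ∧
    (m ^ 2 = (4 * √3 + 6) / 6 * (B0 + B1 + B2 + B3) →
      a ^ 2 + b ^ 2 + c ^ 2 = 2 * √3 * B3 ∧ B0 = B3 ∧ B1 = B3 ∧ B2 = B3 ∧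
      √3 * K0 = 2 * B3 ∧ √3 * K1 = 2 * B3 ∧ √3 * K2 = 2 * B3) := by
  have hr : 0 < √3 := by positivity
  have key := alg hm ha0 hb0 hc0 hc hb ha hid
  have D0 : 0 ≤ B0 * (B3 - B0) := mul_nonneg b0.le (by linarith)
  have D1 : 0 ≤ B1 * (B3 - B1) := mul_nonneg b1.le (by linarith)
  have D2 : 0 ≤ B2 * (B3 - B2) := mul_nonneg b2.le (by linarith)
  have W0 : 0 ≤ a ^ 2 + b ^ 2 + c ^ 2 - 2 * √3 * B3 := by linarith
  have hW1 : 0 ≤ √3 * m ^ 2 * (a ^ 2 + b ^ 2 + c ^ 2 - 2 * √3 * B3) := by positivity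
  have hDD : 0 ≤ (2 * √3 + 4) * (B0 * (B3 - B0) + B1 * (B3 - B1) + B2 * (B3 - B2)) := by positivity
  have q0 := sq_nonneg (B3 + B0 - √3 * K0)
  have q1 := sq_nonneg (B3 + B1 - √3 * K1)
  have q2 := sq_nonneg (B3 + B2 - √3 * K2)
  have hmain : 6 * m ^ 2 * B3 ≤ (4 * √3 + 6) * B3 * (B0 + B1 + B2 + B3) := by linarith
  constructor
  · have : B3 * (6 * m ^ 2) ≤ B3 * ((4 * √3 + 6) * (B0 + B1 + B2 + B3)) := by linarith
    have := le_of_mul_le_mul_left this b3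
    linarith
  · intro heq
    have hmpos : 0 < m ^ 2 := by rw [heq]; positivity
    have h6 : 6 * m ^ 2 * B3 = (4 * √3 + 6) * B3 * (B0 + B1 + B2 + B3) := by rw [heq]; ring
    have w1 : √3 * m ^ 2 * (a ^ 2 + b ^ 2 + c ^ 2 - 2 * √3 * B3) = 0 := by linarith
    have w2 : (2 * √3 + 4) * (B0 * (B3 - B0) + B1 * (B3 - B1) + B2 * (B3 - B2)) = 0 := by linarith
    have e0 : (B3 + B0 - √3 * K0) ^ 2 = 0 := by linarith
    have e1 : (B3 + B1 - √3 * K1) ^ 2 = 0 := by linarith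
    have e2 : (B3 + B2 - √3 * K2) ^ 2 = 0 := by linarith
    have w3 : a ^ 2 + b ^ 2 + c ^ 2 - 2 * √3 * B3 = 0 :=
      (mul_eq_zero.1 w1).resolve_left (by positivity)
    have w4 : B0 * (B3 - B0) + B1 * (B3 - B1) + B2 * (B3 - B2) = 0 :=
      (mul_eq_zero.1 w2).resolve_left (by positivity)
    have c0 : B3 - B0 = 0 :=
      (mul_eq_zero.1 (show B0 * (B3 - B0) = 0 by linarith)).resolve_left b0.ne'
    have c1 : B3 - B1 = 0 :=
      (mul_eq_zero.1 (show B1 * (B3 - B1) = 0 by linarith)).resolve_left b1.ne'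
    have c2 : B3 - B2 = 0 :=
      (mul_eq_zero.1 (show B2 * (B3 - B2) = 0 by linarith)).resolve_left b2.ne'
    have e0' : B3 + B0 - √3 * K0 = 0 := pow_eq_zero_iff (two_ne_zero) |>.1 e0
    have e1' : B3 + B1 - √3 * K1 = 0 := pow_eq_zero_iff (two_ne_zero) |>.1 e1
    have e2' : B3 + B2 - √3 * K2 = 0 := pow_eq_zero_iff (two_ne_zero) |>.1 e2
    refine ⟨?_, ?_, ?_, ?_, ?_, ?_, ?_⟩ <;> linarith

set_option maxHeartbeats 4000000 in
theorem base (p : Fin 4 → E 3) (hp : AffineIndependent ℝ p)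
    (h0 : √(gram (p 1 - p 3) (p 2 - p 3)) ≤ √(gram (p 1 - p 0) (p 2 - p 0)))
    (h1 : √(gram (p 3 - p 0) (p 2 - p 0)) ≤ √(gram (p 1 - p 0) (p 2 - p 0)))
    (h2 : √(gram (p 1 - p 0) (p 3 - p 0)) ≤ √(gram (p 1 - p 0) (p 2 - p 0))) :
    ∃ i j : Fin 4, i ≠ j ∧
      perimeter (‖p j - p i‖⁻¹ • (p j - p i)) (convexHull ℝ (range p)) ^ 2 ≤
        (2 + 4 / √3) * surfaceArea (convexHull ℝ (range p)) ∧
      (perimeter (‖p j - p i‖⁻¹ • (p j - p i)) (convexHull ℝ (range p)) ^ 2 =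
        (2 + 4 / √3) * surfaceArea (convexHull ℝ (range p)) → ∃ ℓ : ℝ, ∀ a b : Fin 4, a ≠ b →
          dist (p a) (p b) = ℓ) := by
  have r2 : √3 ^ 2 = (3 : ℝ) := Real.sq_sqrt (by norm_num)
  have hr : 0 < √3 := by positivity
  have hS := surface_eq p hp
  obtain ⟨τ, t0, t1, t2, t3⟩ := exists_perm2
  obtain ⟨σ, s0, s1, s2, s3⟩ := exists_perm3
  have n01 : p 1 - p 0 ≠ 0 := by
    rw [sub_ne_zero]; exact fun h => absurd (hp.injective h) (by decide)
  have n02 : p 2 - p 0 ≠ 0 := by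
    rw [sub_ne_zero]; exact fun h => absurd (hp.injective h) (by decide)
  have n12 : p 2 - p 1 ≠ 0 := by
    rw [sub_ne_zero]; exact fun h => absurd (hp.injective h) (by decide)
  have P01 := perimeter_edge p n01
  have P02 := perimeter_edge' p σ (by rw [s0, s1]; exact n02)
  have P12 := perimeter_edge' p τ (by rw [t0, t1]; exact n12)
  rw [s0, s1, s2, s3] at P02
  rw [t0, t1, t2, t3] at P12
  have g3 := gram_pos hp (i := 0) (j := 1) (k := 2) (by decide) (by decide) (by decide)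
  have g2 := gram_pos hp (i := 0) (j := 1) (k := 3) (by decide) (by decide) (by decide)
  have g1 := gram_pos hp (i := 0) (j := 3) (k := 2) (by decide) (by decide) (by decide)
  have g0 := gram_pos hp (i := 3) (j := 1) (k := 2) (by decide) (by decide) (by decide)
  set q01 := perimeter (‖p 1 - p 0‖⁻¹ • (p 1 - p 0)) (convexHull ℝ (range p)) with q01d
  set q02 := perimeter (‖p 2 - p 0‖⁻¹ • (p 2 - p 0)) (convexHull ℝ (range p)) with q02d
  set q12 := perimeter (‖p 2 - p 1‖⁻¹ • (p 2 - p 1)) (convexHull ℝ (range p)) with q12d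
  set S := surfaceArea (convexHull ℝ (range p)) with Sd
  have z01 : 0 ≤ q01 := perimeter_nonneg _ _
  have z02 : 0 ≤ q02 := perimeter_nonneg _ _
  have z12 : 0 ≤ q12 := perimeter_nonneg _ _
  have f1 : p 1 - p 3 = (p 1 - p 0) - (p 3 - p 0) := by abel
  have f2 : p 2 - p 3 = (p 2 - p 0) - (p 3 - p 0) := by abel
  have f3 : p 2 - p 1 = (p 2 - p 0) - (p 1 - p 0) := by abel
  have f4 : p 3 - p 1 = (p 3 - p 0) - (p 1 - p 0) := by abel
  have f5 : p 3 - p 2 = (p 3 - p 0) - (p 2 - p 0) := by abel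
  have f6 : p 0 - p 1 = -(p 1 - p 0) := by abel
  have d01 : dist (p 0) (p 1) = ‖p 1 - p 0‖ := by rw [dist_comm, dist_eq_norm]
  have d02 : dist (p 0) (p 2) = ‖p 2 - p 0‖ := by rw [dist_comm, dist_eq_norm]
  have d03 : dist (p 0) (p 3) = ‖p 3 - p 0‖ := by rw [dist_comm, dist_eq_norm]
  have d12 : dist (p 1) (p 2) = ‖(p 2 - p 0) - (p 1 - p 0)‖ := by
    rw [dist_comm, dist_eq_norm, f3]
  have d13 : dist (p 1) (p 3) = ‖(p 3 - p 0) - (p 1 - p 0)‖ := by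
    rw [dist_comm, dist_eq_norm, f4]
  have d23 : dist (p 2) (p 3) = ‖(p 3 - p 0) - (p 2 - p 0)‖ := by
    rw [dist_comm, dist_eq_norm, f5]
  rw [f1, f2] at g0 h0 hS
  rw [f5] at P01
  rw [f4] at P02
  rw [f3, f4, f6] at P12
  set u := p 1 - p 0 with hu
  set v := p 2 - p 0 with hv
  set w := p 3 - p 0 with hw
  rw [gram_symm u v, gram_symm w v] at P02
  rw [gram_a u v, gram_b u v w] at P12
  have hid := gram_id u v w
  have k0 := gram_nonneg (v - u) w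
  have k1 := gram_nonneg v (w - u)
  have k2 := gram_nonneg u (w - v)
  -- the minimum of the three perimeters
  obtain ⟨i, j, hij, m, hm0, hmd, m01, m02, m12⟩ : ∃ i j : Fin 4, i ≠ j ∧ ∃ m : ℝ, 0 ≤ m ∧
      m = perimeter (‖p j - p i‖⁻¹ • (p j - p i)) (convexHull ℝ (range p)) ∧ m ≤ q01 ∧ m ≤ q02 ∧
        m ≤ q12 := by
    rcases le_total q01 q02 with e1 | e1
    · rcases le_total q01 q12 with e2 | e2
      · exact ⟨0, 1, by decide, q01, z01, q01d, le_rfl, e1, e2⟩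
      · exact ⟨1, 2, by decide, q12, z12, by rw [q12d, f3], e2, e2.trans e1, le_rfl⟩
    · rcases le_total q02 q12 with e2 | e2
      · exact ⟨0, 2, by decide, q02, z02, q02d, e1, le_rfl, e2⟩
      · exact ⟨1, 2, by decide, q12, z12, by rw [q12d, f3], e2.trans e1, e2, le_rfl⟩
  refine ⟨i, j, hij, ?_⟩
  rw [← hmd]
  have hW := weitz (‖u‖ ^ 2) (‖v‖ ^ 2) (inner ℝ u v) (by positivity) (by positivity) (gram_nonneg u v)
  have hvu : ‖v - u‖ ^ 2 = ‖u‖ ^ 2 + ‖v‖ ^ 2 - 2 * inner ℝ u v := by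
    rw [norm_sub_sq_real, real_inner_comm]; ring
  rw [← hvu] at hW
  change 2 * √3 * √(gram u v) ≤ _ ∧ (_ = 2 * √3 * √(gram u v) → _) at hW
  have key := alg2 (m := m) (a := ‖v - u‖) (b := ‖v‖) (c := ‖u‖) (B0 := √(gram (u - w) (v - w)))
    (B1 := √(gram w v)) (B2 := √(gram u w)) (B3 := √(gram u v)) (K0 := √(gram (v - u) w))
    (K1 := √(gram v (w - u))) (K2 := √(gram u (w - v))) hm0 (norm_nonneg _) (norm_nonneg _)
    (norm_nonneg _)
    ((mul_le_mul_of_nonneg_right m01 (norm_nonneg _)).trans P01)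
    ((mul_le_mul_of_nonneg_right m02 (norm_nonneg _)).trans P02)
    ((mul_le_mul_of_nonneg_right m12 (norm_nonneg _)).trans P12)
    (by rw [Real.sq_sqrt g0.le, Real.sq_sqrt g1.le, Real.sq_sqrt g2.le, Real.sq_sqrt g3.le,
          Real.sq_sqrt k0, Real.sq_sqrt k1, Real.sq_sqrt k2]; exact hid)
    (Real.sqrt_pos.2 g0) (Real.sqrt_pos.2 g1) (Real.sqrt_pos.2 g2) (Real.sqrt_pos.2 g3) h0 h1 h2 hW.1
  have hSc : (2 + 4 / √3) * S = (4 * √3 + 6) / 6 * (√(gram (u - w) (v - w)) + √(gram w v) +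
      √(gram u w) + √(gram u v)) := by
    rw [hS]
    have : 4 / √3 = 4 * √3 / 3 := by
      rw [div_eq_div_iff hr.ne' (by norm_num)]; nlinarith only [r2]
    rw [this]; ring
  rw [hSc]
  refine ⟨key.1, fun heq => ?_⟩
  obtain ⟨w3, c0, c1, c2, e0, e1, e2⟩ := key.2 heq
  obtain ⟨hL, huv⟩ := hW.2 w3
  have kk : ∀ {x : ℝ}, 0 ≤ x → √3 * √x = 2 * √(gram u v) → 3 * x = 4 * gram u v := by
    intro x hx h
    have h2 : (√3 * √x) ^ 2 = (2 * √(gram u v)) ^ 2 := by rw [h]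
    rw [mul_pow, r2, Real.sq_sqrt hx, mul_pow, Real.sq_sqrt g3.le] at h2
    linarith only [h2]
  have cc : ∀ {x : ℝ}, 0 ≤ x → √x = √(gram u v) → x = gram u v := fun hx h =>
    (Real.sqrt_inj hx g3.le).1 h
  obtain ⟨nv, nw, nvu, nwu, nwv⟩ := eq_geom n01 hL huv (cc g1.le c1) (cc g2.le c2) (kk k0 e0)
    (kk k1 e1) (kk k2 e2)
  exact ⟨‖u‖, dist_all d01 (d02.trans nv) (d03.trans nw) (d12.trans nvu) (d13.trans nwu)
    (d23.trans nwv)⟩

end Pool.Agent.Helper758_ST
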