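import Pool.Agent.Helper758_ST.A5

set_option autoImplicit false

open MeasureTheory Set Module
open scoped ENNReal

namespace Pool.Agent.Helper758_ST

/-- the inequality for one of the six edge directions -/
theorem edge_bound (p : Fin 4 → E 3) (hp : AffineIndependent ℝ p) :
    ∃ i j : Fin 4, i ≠ j ∧
      perimeter (‖p j - p i‖⁻¹ • (p j - p i)) (convexHull ℝ (range p)) ^ 2 ≤
        (2 + 4 / √3) * surfaceArea (convexHull ℝ (range p)) ∧
      (perimeter (‖p j - p i‖⁻¹ • (p j - p i)) (convexHull ℝ (range p)) ^ 2 =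
        (2 + 4 / √3) * surfaceArea (convexHull ℝ (range p)) → ∃ ℓ : ℝ, ∀ a b : Fin 4, a ≠ b →
          dist (p a) (p b) = ℓ) := by
  obtain ⟨σ, hσ⟩ := Finite.exists_max
    (fun σ : Equiv.Perm (Fin 4) => √(gram (p (σ 1) - p (σ 0)) (p (σ 2) - p (σ 0))))
  have hpσ : AffineIndependent ℝ (p ∘ σ) := hp.comp_embedding σ.toEmbedding
  have k1 : (Equiv.swap (0 : Fin 4) 3) 3 = 0 ∧ (Equiv.swap (0 : Fin 4) 3) 0 = 3 ∧
    (Equiv.swap (0 : Fin 4) 3) 1 = 1 ∧ (Equiv.swap (0 : Fin 4) 3) 2 = 2 := by decide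
  have k2 : (Equiv.swap (1 : Fin 4) 3) 3 = 1 ∧ (Equiv.swap (1 : Fin 4) 3) 0 = 0 ∧
    (Equiv.swap (1 : Fin 4) 3) 1 = 3 ∧ (Equiv.swap (1 : Fin 4) 3) 2 = 2 := by decide
  have k3 : (Equiv.swap (2 : Fin 4) 3) 3 = 2 ∧ (Equiv.swap (2 : Fin 4) 3) 0 = 0 ∧
    (Equiv.swap (2 : Fin 4) 3) 1 = 1 ∧ (Equiv.swap (2 : Fin 4) 3) 2 = 3 := by decide
  have h0 := hσ (σ * Equiv.swap 0 3)
  have h1 := hσ (σ * Equiv.swap 1 3)
  have h2 := hσ (σ * Equiv.swap 2 3)
  simp only [Equiv.Perm.mul_apply, k1.1, k1.2.1, k1.2.2.1, k1.2.2.2] at h0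
  simp only [Equiv.Perm.mul_apply, k2.1, k2.2.1, k2.2.2.1, k2.2.2.2] at h1
  simp only [Equiv.Perm.mul_apply, k3.1, k3.2.1, k3.2.2.1, k3.2.2.2] at h2
  obtain ⟨i, j, hij, hle, heq⟩ := base (p ∘ σ) hpσ h0 h1 h2
  rw [EquivLike.range_comp] at hle heq
  refine ⟨σ i, σ j, fun h => hij (σ.injective h), hle, fun h => ?_⟩
  obtain ⟨l, hl⟩ := heq h
  refine ⟨l, fun a b hab => ?_⟩
  have := hl (σ.symm a) (σ.symm b) (fun h => hab (σ.symm.injective h))
  simpa using this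

theorem unit_edge {p : Fin 4 → E 3} (hp : AffineIndependent ℝ p) {i j : Fin 4} (hij : i ≠ j) :
    ‖‖p j - p i‖⁻¹ • (p j - p i)‖ = 1 := by
  have h : p j - p i ≠ 0 := by
    rw [sub_ne_zero]; exact fun h => hij (hp.injective h).symm
  have h' : ‖p j - p i‖ ≠ 0 := norm_ne_zero_iff.2 h
  rw [norm_smul, norm_inv, norm_norm, inv_mul_cancel₀ h']

/-- the inequality for tetrahedra -/
theorem min_bound (p : Fin 4 → E 3) (hp : AffineIndependent ℝ p) :
    minPerimeter (convexHull ℝ (range p)) ^ 2 ≤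
        (2 + 4 / √3) * surfaceArea (convexHull ℝ (range p)) ∧
      (minPerimeter (convexHull ℝ (range p)) ^ 2 =
        (2 + 4 / √3) * surfaceArea (convexHull ℝ (range p)) → ∃ ℓ : ℝ, ∀ a b : Fin 4, a ≠ b →
          dist (p a) (p b) = ℓ) := by
  obtain ⟨i, j, hij, hle, heq⟩ := edge_bound p hp
  have h1 := minPerimeter_le (unit_edge hp hij) (convexHull ℝ (range p))
  have h2 := minPerimeter_nonneg (convexHull ℝ (range p))
  have h3 := pow_le_pow_left₀ h2 h1 2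
  exact ⟨h3.trans hle, fun h => heq (le_antisymm hle (h ▸ h3))⟩

end Pool.Agent.Helper758_ST
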