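import Mathlib

set_option autoImplicit false

namespace Pool.Agent.Helper758_ST

/-- half the chord function -/
noncomputable def fc (x : ℝ) : ℝ := √(1 - x ^ 2)

theorem fc_neg (x : ℝ) : fc (-x) = fc x := by simp [fc]

/-- sorted triangle case -/
theorem tri_sorted {a b c : ℝ} (ha : 0 ≤ a) (hab : a ≤ b) (hbc : b ≤ c)
    (h : a ^ 2 + b ^ 2 + c ^ 2 + (a + b + c) ^ 2 = 1 / 2) :
    1 + √3 ≤ fc (b - a) + fc (c - b) + fc (c - a) := by
  have r2 : √3 ^ 2 = (3 : ℝ) := Real.sq_sqrt (by norm_num)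
  have hr : 0 < √3 := by positivity
  have hr' : √3 < 2 := by
    rw [Real.sqrt_lt' (by norm_num)]; norm_num
  have hr3 : √3 ≤ 7 / 4 := by
    rw [Real.sqrt_le_left (by norm_num)]; norm_num
  obtain ⟨x, hx⟩ : ∃ x, x = b - a := ⟨_, rfl⟩
  obtain ⟨y, hy⟩ : ∃ y, y = c - b := ⟨_, rfl⟩
  have hx0 : 0 ≤ x := by linarith
  have hy0 : 0 ≤ y := by linarith
  have hca : c - a = x + y := by rw [hx, hy]; ring
  have hb : b = a + x := by rw [hx]; ring
  have hc : c = a + x + y := by rw [hx, hy]; ring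
  have hxy : 0 ≤ x * y := mul_nonneg hx0 hy0
  have hax : 0 ≤ a * x := mul_nonneg ha hx0
  have hay : 0 ≤ a * y := mul_nonneg ha hy0
  have key : 12 * x ^ 2 + 12 * (x * y) + 4 * y ^ 2 ≤ 1 := by
    rw [hb, hc] at h
    nlinarith [sq_nonneg a]
  rw [← hx, ← hy, hca]
  have hx2 : 0 ≤ x ^ 2 := sq_nonneg x
  have hy2 : 0 ≤ y ^ 2 := sq_nonneg y
  have f1 : 1 - x ^ 2 ≤ fc x := by
    apply Real.le_sqrt_of_sq_le
    nlinarith
  have f2 : √3 / 2 ≤ fc (x + y) := by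
    apply Real.le_sqrt_of_sq_le
    rw [div_pow, r2]
    nlinarith
  have f3 : √3 / 2 + (3 * x ^ 2 + 3 * (x * y)) / 2 ≤ fc y := by
    apply Real.le_sqrt_of_sq_le
    obtain ⟨z, hz⟩ : ∃ z, z = 3 * x ^ 2 + 3 * (x * y) := ⟨_, rfl⟩
    rw [← hz]
    have hz0 : 0 ≤ z := by rw [hz]; positivity
    have hz1 : z ≤ 1 / 4 := by rw [hz]; linarith
    have hyz : y ^ 2 ≤ 1 / 4 - z := by rw [hz]; linarith
    have : (√3 / 2 + z / 2) ^ 2 = 3 / 4 + √3 * z / 2 + z ^ 2 / 4 := by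
      rw [add_sq, div_pow, r2]; ring
    rw [this]
    have h5 : √3 * z ≤ 7 / 4 * z := mul_le_mul_of_nonneg_right hr3 hz0
    have h6 : z ^ 2 ≤ 1 / 4 * z := by rw [sq]; exact mul_le_mul_of_nonneg_right hz1 hz0
    linarith
  have : x ^ 2 ≤ (3 * x ^ 2 + 3 * (x * y)) / 2 := by linarith
  linarith

/-- triangle case -/
theorem tri_case {a b c : ℝ} (ha : 0 ≤ a) (hb : 0 ≤ b) (hc : 0 ≤ c)
    (h : a ^ 2 + b ^ 2 + c ^ 2 + (a + b + c) ^ 2 = 1 / 2) :
    1 + √3 ≤ fc (b - a) + fc (c - a) + fc (c - b) := by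
  have n1 : fc (b - a) = fc (a - b) := by rw [← fc_neg, neg_sub]
  have n2 : fc (c - a) = fc (a - c) := by rw [← fc_neg, neg_sub]
  have n3 : fc (c - b) = fc (b - c) := by rw [← fc_neg, neg_sub]
  rcases le_total a b with h1 | h1 <;> rcases le_total b c with h2 | h2 <;>
    rcases le_total a c with h3 | h3
  · have := tri_sorted ha h1 h2 h; linarith
  · have := tri_sorted ha h1 h2 h; linarith
  · have := tri_sorted (a := a) (b := c) (c := b) ha h3 h2 (by linarith [h, show (a + c + b) ^ 2 = (a + b + c) ^ 2 by ring]); linarith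
  · have := tri_sorted (a := c) (b := a) (c := b) hc h3 h1 (by linarith [h, show (c + a + b) ^ 2 = (a + b + c) ^ 2 by ring]); linarith
  · have := tri_sorted (a := b) (b := a) (c := c) hb h1 h3 (by linarith [h, show (b + a + c) ^ 2 = (a + b + c) ^ 2 by ring]); linarith
  · have := tri_sorted (a := b) (b := c) (c := a) hb h2 h3 (by linarith [h, show (b + c + a) ^ 2 = (a + b + c) ^ 2 by ring]); linarith
  · have := tri_sorted (a := c) (b := b) (c := a) hc h2 h1 (by linarith [h, show (c + b + a) ^ 2 = (a + b + c) ^ 2 by ring]); linarith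
  · have := tri_sorted (a := c) (b := b) (c := a) hc h2 h1 (by linarith [h, show (c + b + a) ^ 2 = (a + b + c) ^ 2 by ring]); linarith

/-- one diagonal of the quadrilateral -/
theorem quad_half {s g A B : ℝ} (hA : A = s ^ 2) (hB : B = g ^ 2) (hAB : 2 * A + 2 * B ≤ 1) :
    4 * (1 - A - 2 * B) ≤ (fc (s + g) + fc (s - g)) ^ 2 := by
  have hB0 : 0 ≤ B := by rw [hB]; positivity
  have h1 : 0 ≤ 1 - (s + g) ^ 2 := by nlinarith [sq_nonneg (s - g)]
  have h2 : 0 ≤ 1 - (s - g) ^ 2 := by nlinarith [sq_nonneg (s + g)]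
  have hR : (1 - (s + g) ^ 2) * (1 - (s - g) ^ 2) = (1 + A - B) ^ 2 - 4 * A := by
    rw [hA, hB]; ring
  have hp : fc (s + g) * fc (s - g) = √((1 + A - B) ^ 2 - 4 * A) := by
    rw [fc, fc, ← Real.sqrt_mul h1, hR]
  have hle : 1 - A - 3 * B ≤ √((1 + A - B) ^ 2 - 4 * A) := by
    apply Real.le_sqrt_of_sq_le
    nlinarith [mul_nonneg hB0 (show 0 ≤ 1 - 2 * A - 2 * B by linarith)]
  have e : (fc (s + g) + fc (s - g)) ^ 2 = 2 - 2 * A - 2 * B + 2 * (fc (s + g) * fc (s - g)) := by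
    rw [add_sq, fc, fc, Real.sq_sqrt h1, Real.sq_sqrt h2, hA, hB]; ring
  rw [e, hp]
  linarith

theorem quad_half' {s g A B : ℝ} (hA : A = s ^ 2) (hB : B = g ^ 2) (hAB : 2 * A + 2 * B ≤ 1) :
    2 * √(1 - A - 2 * B) ≤ fc (s + g) + fc (s - g) := by
  have h := Real.sqrt_le_sqrt (quad_half hA hB hAB)
  rw [Real.sqrt_sq (by unfold fc; positivity), Real.sqrt_mul (by norm_num)] at h
  have : √(4 : ℝ) = 2 := by
    rw [show (4 : ℝ) = 2 ^ 2 by norm_num, Real.sqrt_sq (by norm_num)]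
  rwa [this] at h

theorem sum_sqrt {x : ℝ} (h1 : 1 / 4 ≤ x) (h2 : x ≤ 3 / 4) : (1 + √3) / 2 ≤ √x + √(1 - x) := by
  have r2 : √3 ^ 2 = (3 : ℝ) := Real.sq_sqrt (by norm_num)
  have hx : 0 ≤ x := by linarith
  have hx' : 0 ≤ 1 - x := by linarith
  have hp : √3 / 4 ≤ √x * √(1 - x) := by
    rw [← Real.sqrt_mul hx]
    apply Real.le_sqrt_of_sq_le
    rw [div_pow, r2]
    nlinarith
  have : ((1 + √3) / 2) ^ 2 ≤ (√x + √(1 - x)) ^ 2 := by
    rw [div_pow, add_sq, add_sq, r2, Real.sq_sqrt hx, Real.sq_sqrt hx']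
    linarith
  exact (pow_le_pow_iff_left₀ (by positivity) (by positivity) two_ne_zero).1 this

/-- quadrilateral case -/
theorem quad_case {a b c d : ℝ} (ha : 0 ≤ a) (hb : 0 ≤ b) (hc : 0 ≤ c) (hd : 0 ≤ d)
    (hs : a + b = c + d) (h : a ^ 2 + b ^ 2 + c ^ 2 + d ^ 2 = 1 / 2) :
    1 + √3 ≤ fc (a + c) + fc (a + d) + fc (b + c) + fc (b + d) := by
  obtain ⟨s, hs1⟩ : ∃ s, s = a + b := ⟨_, rfl⟩
  obtain ⟨m, hm⟩ : ∃ m, m = a - b := ⟨_, rfl⟩
  obtain ⟨n, hn⟩ : ∃ n, n = c - d := ⟨_, rfl⟩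
  obtain ⟨g, hg⟩ : ∃ g, g = (m + n) / 2 := ⟨_, rfl⟩
  obtain ⟨q, hq⟩ : ∃ q, q = (m - n) / 2 := ⟨_, rfl⟩
  have e1 : a + c = s + g := by rw [hg, hm, hn]; linarith
  have e2 : a + d = s + q := by rw [hq, hm, hn]; linarith
  have e3 : b + c = s - q := by rw [hq, hm, hn]; linarith
  have e4 : b + d = s - g := by rw [hg, hm, hn]; linarith
  have hsum : s ^ 2 + g ^ 2 + q ^ 2 = 1 / 2 := by
    have ea : a = (s + m) / 2 := by rw [hs1, hm]; ring
    have eb : b = (s - m) / 2 := by rw [hs1, hm]; ring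
    have ec : c = (s + n) / 2 := by rw [hn]; linarith
    have ed : d = (s - n) / 2 := by rw [hn]; linarith
    rw [ea, eb, ec, ed] at h
    rw [hg, hq]
    linarith
  have hmn : |g ^ 2 - q ^ 2| ≤ s ^ 2 := by
    have e5 : g ^ 2 - q ^ 2 = m * n := by rw [hg, hq]; ring
    have hm1 : |m| ≤ s := by rw [abs_le]; constructor <;> linarith
    have hn1 : |n| ≤ s := by rw [abs_le]; constructor <;> linarith
    rw [e5, abs_mul, sq]
    exact mul_le_mul hm1 hn1 (abs_nonneg _) (by linarith)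
  have hmn' : |g ^ 2 - q ^ 2| ≤ g ^ 2 + q ^ 2 := by
    rw [abs_le]; constructor <;> nlinarith [sq_nonneg g, sq_nonneg q]
  have hmn'' : |g ^ 2 - q ^ 2| ≤ 1 / 4 := by linarith
  obtain ⟨l1, l2⟩ := abs_le.1 hmn''
  have q1 := quad_half' (s := s) (g := g) rfl rfl (by nlinarith [sq_nonneg q])
  have q2 := quad_half' (s := s) (g := q) rfl rfl (by nlinarith [sq_nonneg g])
  have q3 := sum_sqrt (x := 1 - s ^ 2 - 2 * g ^ 2) (by linarith) (by linarith)
  have e6 : 1 - (1 - s ^ 2 - 2 * g ^ 2) = 1 - s ^ 2 - 2 * q ^ 2 := by linarith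
  rw [e6] at q3
  rw [e1, e2, e3, e4]
  linarith

end Pool.Agent.Helper758_ST
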