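import Pool.Agent.Helper758_ST.A6
import Pool.Agent.Helper758_ST.B1

set_option autoImplicit false

open MeasureTheory Set Module Filter
open scoped ENNReal Topology

namespace Pool.Agent.Helper758_ST

section plane

variable {V : Type*} [NormedAddCommGroup V] [InnerProductSpace ℝ V] [FiniteDimensional ℝ V]

/-- a supporting line gives an edge in the boundary -/
theorem seg_sub_frontier {κ : Type*} [Finite κ] (P : κ → V) (v : V) (hv : v ≠ 0) (M : ℝ)
    (hle : ∀ k, inner ℝ v (P k) ≤ M) {i j : κ} (hi : inner ℝ v (P i) = M)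
    (hj : inner ℝ v (P j) = M) : segment ℝ (P i) (P j) ⊆ frontier (convexHull ℝ (range P)) := by
  have hcl : IsClosed (convexHull ℝ (range P)) :=
    ((Set.finite_range P).isCompact_convexHull (𝕜 := ℝ)).isClosed
  have hK : ∀ x ∈ convexHull ℝ (range P), inner ℝ v x ≤ M := by
    have : convexHull ℝ (range P) ⊆ {x | inner ℝ v x ≤ M} := by
      refine convexHull_min ?_ ?_
      · rintro _ ⟨k, rfl⟩; exact hle k
      · exact convex_halfSpace_le ((innerₛₗ ℝ v).isLinear) M
    exact this
  intro x hx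
  rw [frontier, hcl.closure_eq]
  refine ⟨(convex_convexHull ℝ _).segment_subset (subset_convexHull ℝ _ (mem_range_self i))
    (subset_convexHull ℝ _ (mem_range_self j)) hx, fun hint => ?_⟩
  have hxM : inner ℝ v x = M := by
    obtain ⟨a, b, ha, hb, hab, rfl⟩ := hx
    rw [inner_add_right, inner_smul_right, inner_smul_right, hi, hj, ← add_mul, hab, one_mul]
  have hn : convexHull ℝ (range P) ∈ 𝓝 x := mem_interior_iff_mem_nhds.1 hint
  have hc : Tendsto (fun t : ℝ => x + t • v) (𝓝[>] 0) (𝓝 x) := by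
    have : Tendsto (fun t : ℝ => x + t • v) (𝓝 0) (𝓝 (x + (0 : ℝ) • v)) :=
      (Continuous.tendsto (by fun_prop) 0)
    rw [zero_smul, add_zero] at this
    exact this.mono_left nhdsWithin_le_nhds
  have hev := (hc.eventually hn).and self_mem_nhdsWithin
  obtain ⟨t, ht1, ht2⟩ := hev.exists
  have := hK _ ht1
  rw [inner_add_right, inner_smul_right, hxM, real_inner_self_eq_norm_sq] at this
  have ht0 : 0 < t := ht2
  have : 0 < t * ‖v‖ ^ 2 := by positivity
  linarith

theorem inter_subsingleton {A B C D v : V} {M : ℝ} (hA : inner ℝ v A = M) (hB : inner ℝ v B = M)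
    (hC : inner ℝ v C ≤ M) (hD : inner ℝ v D < M) :
    (segment ℝ A B ∩ segment ℝ C D).Subsingleton := by
  have : segment ℝ A B ∩ segment ℝ C D ⊆ {C} := by
    rintro x ⟨⟨a, b, ha, hb, hab, rfl⟩, ⟨c, d, hc, hd, hcd, hx⟩⟩
    have h1 : inner ℝ v (a • A + b • B) = M := by
      rw [inner_add_right, inner_smul_right, inner_smul_right, hA, hB, ← add_mul, hab, one_mul]
    rw [mem_singleton_iff, ← hx]
    rw [← hx, inner_add_right, inner_smul_right, inner_smul_right] at h1
    rcases hd.eq_or_lt with h | h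
    · rw [← h, add_zero] at hcd
      rw [← h, hcd]; simp
    · exfalso
      have e1 : c * inner ℝ v C ≤ c * M := mul_le_mul_of_nonneg_left hC hc
      have e2 : d * inner ℝ v D < d * M := mul_lt_mul_of_pos_left hD h
      have e3 : c * M + d * M = M := by rw [← add_mul, hcd, one_mul]
      linarith
  exact subsingleton_singleton.anti this

theorem inter_subsingleton' {A B C D v : V} {M : ℝ} (hA : inner ℝ v A = M) (hB : inner ℝ v B = M)
    (hC : inner ℝ v C < M) (hD : inner ℝ v D ≤ M) :
    (segment ℝ A B ∩ segment ℝ C D).Subsingleton := by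
  rw [segment_symm ℝ C D]
  exact inter_subsingleton hA hB hD hC

end plane

section measure

variable {V : Type*} [NormedAddCommGroup V] [InnerProductSpace ℝ V] [MeasurableSpace V] [BorelSpace V]
  [FiniteDimensional ℝ V]

/-- three essentially disjoint segments in a set -/
theorem three_le {F s1 s2 s3 : Set V} (c2 : IsClosed s2) (c3 : IsClosed s3)
    (f1 : s1 ⊆ F) (f2 : s2 ⊆ F) (f3 : s3 ⊆ F) (h12 : (s1 ∩ s2).Subsingleton)
    (h13 : (s1 ∩ s3).Subsingleton) (h23 : (s2 ∩ s3).Subsingleton) :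
    μHE[1] s1 + μHE[1] s2 + μHE[1] s3 ≤ μHE[1] F := by
  have a12 : AEDisjoint μHE[1] s1 s2 := null_subsingleton h12
  have a13 : AEDisjoint μHE[1] s1 s3 := null_subsingleton h13
  have a23 : AEDisjoint μHE[1] s2 s3 := null_subsingleton h23
  have a : AEDisjoint μHE[1] (s1 ∪ s2) s3 := by
    rw [AEDisjoint.union_left_iff]; exact ⟨a13, a23⟩
  rw [← measure_union₀ c2.measurableSet.nullMeasurableSet a12,
    ← measure_union₀ c3.measurableSet.nullMeasurableSet a]
  exact measure_mono (union_subset (union_subset f1 f2) f3)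

theorem four_le {F s1 s2 s3 s4 : Set V} (c2 : IsClosed s2) (c3 : IsClosed s3) (c4 : IsClosed s4)
    (f1 : s1 ⊆ F) (f2 : s2 ⊆ F) (f3 : s3 ⊆ F) (f4 : s4 ⊆ F) (h12 : (s1 ∩ s2).Subsingleton)
    (h13 : (s1 ∩ s3).Subsingleton) (h23 : (s2 ∩ s3).Subsingleton) (h14 : (s1 ∩ s4).Subsingleton)
    (h24 : (s2 ∩ s4).Subsingleton) (h34 : (s3 ∩ s4).Subsingleton) :
    μHE[1] s1 + μHE[1] s2 + μHE[1] s3 + μHE[1] s4 ≤ μHE[1] F := by
  have a12 : AEDisjoint μHE[1] s1 s2 := null_subsingleton h12
  have a13 : AEDisjoint μHE[1] s1 s3 := null_subsingleton h13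
  have a23 : AEDisjoint μHE[1] s2 s3 := null_subsingleton h23
  have a14 : AEDisjoint μHE[1] s1 s4 := null_subsingleton h14
  have a24 : AEDisjoint μHE[1] s2 s4 := null_subsingleton h24
  have a34 : AEDisjoint μHE[1] s3 s4 := null_subsingleton h34
  have a : AEDisjoint μHE[1] (s1 ∪ s2) s3 := by
    rw [AEDisjoint.union_left_iff]; exact ⟨a13, a23⟩
  have b : AEDisjoint μHE[1] (s1 ∪ s2 ∪ s3) s4 := by
    rw [AEDisjoint.union_left_iff, AEDisjoint.union_left_iff]; exact ⟨⟨a14, a24⟩, a34⟩
  rw [← measure_union₀ c2.measurableSet.nullMeasurableSet a12,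
    ← measure_union₀ c3.measurableSet.nullMeasurableSet a,
    ← measure_union₀ c4.measurableSet.nullMeasurableSet b]
  exact measure_mono (union_subset (union_subset (union_subset f1 f2) f3) f4)

end measure

end Pool.Agent.Helper758_ST
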