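import Pool.Agent.Helper758_ST.B2

set_option autoImplicit false

open MeasureTheory Set Module Filter
open scoped ENNReal Topology

namespace Pool.Agent.Helper758_ST

/-- the vertices seen from the centroid -/
noncomputable def qv (p : Fin 4 → E 3) (k : Fin 4) : E 3 := p k - (1 / 4 : ℝ) • ∑ m, p m

/-- heights over the shadow plane -/
noncomputable def tt (p : Fin 4 → E 3) (u : E 3) (k : Fin 4) : ℝ := inner ℝ u (qv p k)

theorem qv_sum (p : Fin 4 → E 3) : ∑ k, qv p k = 0 := by
  simp only [qv, Finset.sum_sub_distrib, Finset.sum_const, Finset.card_univ, Fintype.card_fin]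
  module

theorem qv_sub (p : Fin 4 → E 3) (i j : Fin 4) : qv p i - qv p j = p i - p j := by
  simp only [qv]; abel

theorem qv_eq (p : Fin 4 → E 3) (k : Fin 4) : qv p k = (1 / 4 : ℝ) • ∑ m, (p k - p m) := by
  simp only [qv, Finset.sum_sub_distrib, Finset.sum_const, Finset.card_univ, Fintype.card_fin]
  module

theorem tt_sum (p : Fin 4 → E 3) (u : E 3) : ∑ k, tt p u k = 0 := by
  simp only [tt]
  rw [← inner_sum, qv_sum, inner_zero_right]

theorem tt_sub (p : Fin 4 → E 3) (u : E 3) (i j : Fin 4) :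
    tt p u i - tt p u j = inner ℝ u (p i - p j) := by
  rw [tt, tt, ← inner_sub_right, qv_sub]

theorem tt_perm (p : Fin 4 → E 3) (u : E 3) (σ : Equiv.Perm (Fin 4)) (k : Fin 4) :
    tt (p ∘ σ) u k = tt p u (σ k) := by
  rw [tt, tt, qv, qv]
  simp only [Function.comp_apply]
  rw [Equiv.sum_comp σ p]

section regular

variable {p : Fin 4 → E 3} {l : ℝ}

theorem sq_dist (hd : ∀ a b : Fin 4, a ≠ b → dist (p a) (p b) = l) (a b : Fin 4) :
    ‖p a - p b‖ ^ 2 = l ^ 2 - if a = b then l ^ 2 else 0 := by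
  by_cases h : a = b
  · simp [h]
  · rw [if_neg h, ← dist_eq_norm, hd a b h]; ring

theorem sum_dist (hd : ∀ a b : Fin 4, a ≠ b → dist (p a) (p b) = l) (a : Fin 4) :
    ∑ b, ‖p a - p b‖ ^ 2 = 3 * l ^ 2 := by
  simp only [sq_dist hd, Finset.sum_sub_distrib, Finset.sum_const, Finset.card_univ,
    Fintype.card_fin, Finset.sum_ite_eq, Finset.mem_univ, if_true]
  simp
  ring

theorem inner_qv (hd : ∀ a b : Fin 4, a ≠ b → dist (p a) (p b) = l) (k i : Fin 4) :
    inner ℝ (qv p k) (p k - p i) = ‖p k - p i‖ ^ 2 / 2 := by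
  have h : ∀ m, inner ℝ (p k - p m) (p k - p i) =
      (‖p k - p m‖ ^ 2 + ‖p k - p i‖ ^ 2 - ‖p i - p m‖ ^ 2) / 2 := by
    intro m
    have : p i - p m = (p k - p m) - (p k - p i) := by abel
    rw [this, norm_sub_sq_real (p k - p m) (p k - p i)]; ring
  rw [qv_eq, inner_smul_left, sum_inner]
  simp only [h, ← Finset.sum_div, Finset.sum_add_distrib, Finset.sum_sub_distrib, sum_dist hd,
    Finset.sum_const, Finset.card_univ, Fintype.card_fin]
  simp
  ring

theorem inner_qv' (hd : ∀ a b : Fin 4, a ≠ b → dist (p a) (p b) = l) (k i j : Fin 4) :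
    inner ℝ (qv p k) (p i - p j) = (‖p k - p j‖ ^ 2 - ‖p k - p i‖ ^ 2) / 2 := by
  have : p i - p j = (p k - p j) - (p k - p i) := by abel
  rw [this, inner_sub_right, inner_qv hd, inner_qv hd]; ring

theorem tt_sq (hp : AffineIndependent ℝ p) (hd : ∀ a b : Fin 4, a ≠ b → dist (p a) (p b) = l)
    {u : E 3} (hu : ‖u‖ = 1) : ∑ k, tt p u k ^ 2 = l ^ 2 / 2 := by
  set w : E 3 := ∑ k, tt p u k • qv p k - (l ^ 2 / 2) • u with hw
  have h1 : ∀ i j, inner ℝ w (p i - p j) = 0 := by
    intro i j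
    rw [hw, inner_sub_left, sum_inner, inner_smul_left, ← tt_sub p u i j]
    simp only [inner_smul_left, inner_qv' hd, sq_dist hd]
    have e : ∀ k, (starRingEnd ℝ) (tt p u k) * ((l ^ 2 - (if k = j then l ^ 2 else 0) -
        (l ^ 2 - if k = i then l ^ 2 else 0)) / 2) =
        (if k = i then tt p u k * (l ^ 2 / 2) else 0) -
          (if k = j then tt p u k * (l ^ 2 / 2) else 0) := by
      intro k
      simp only [conj_trivial]
      split_ifs <;> ring
    rw [Finset.sum_congr rfl (fun k _ => e k), Finset.sum_sub_distrib]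
    simp only [Finset.sum_ite_eq', Finset.mem_univ, if_true]
    simp only [conj_trivial]
    ring
  have htop : vectorSpan ℝ (range p) = ⊤ := by
    rw [hp.vectorSpan_eq_top_of_card_eq_finrank_add_one]
    simp
  have h2 : ∀ x : E 3, inner ℝ w x = 0 := by
    intro x
    have hx : x ∈ vectorSpan ℝ (range p) := by rw [htop]; trivial
    rw [vectorSpan] at hx
    induction hx using Submodule.span_induction with
    | mem x h =>
      obtain ⟨_, ⟨i, rfl⟩, _, ⟨j, rfl⟩, rfl⟩ := h
      exact h1 i j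
    | zero => exact inner_zero_right _
    | add x y _ _ hx hy => rw [inner_add_right, hx, hy, add_zero]
    | smul a x _ hx => rw [inner_smul_right, hx, mul_zero]
  have h3 := h2 u
  rw [hw, inner_sub_left, sum_inner, inner_smul_left, real_inner_self_eq_norm_sq, hu] at h3
  simp only [inner_smul_left, conj_trivial] at h3
  have h4 : ∀ k, tt p u k * inner ℝ (qv p k) u = tt p u k ^ 2 := by
    intro k; rw [real_inner_comm, tt]; ring
  rw [Finset.sum_congr rfl (fun k _ => h4 k)] at h3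
  linarith

/-- the supporting line of an edge -/
theorem support (hd : ∀ a b : Fin 4, a ≠ b → dist (p a) (p b) = l) (hl : 0 < l) (u : E 3)
    (i j k m : Fin 4) (hik : i ≠ k) (him : i ≠ m) (hjk : j ≠ k) (hjm : j ≠ m)
    (hkm : k ≠ m) (hs : tt p u k * tt p u m ≤ 0) (hne : tt p u k ≠ 0 ∨ tt p u m ≠ 0) :
    ∃ v : ↥(ℝ ∙ u)ᗮ, v ≠ 0 ∧ ∃ M : ℝ, inner ℝ v (pr u (p i)) = M ∧ inner ℝ v (pr u (p j)) = M ∧
      inner ℝ v (pr u (p k)) = M - |tt p u m| * (l ^ 2 / 2) ∧
      inner ℝ v (pr u (p m)) = M - |tt p u k| * (l ^ 2 / 2) := by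
  set a := |tt p u m| with ha
  set b := |tt p u k| with hb
  set v : E 3 := -(a • qv p k) - b • qv p m with hv
  have hvu : inner ℝ u v = 0 := by
    rw [hv, inner_sub_right, inner_neg_right, inner_smul_right, inner_smul_right]
    change -(a * tt p u k) - b * tt p u m = 0
    rw [ha, hb]
    rcases abs_cases (tt p u m) with ⟨h1, h2⟩ | ⟨h1, h2⟩ <;>
      rcases abs_cases (tt p u k) with ⟨h3, h4⟩ | ⟨h3, h4⟩ <;> rw [h1, h3] <;> nlinarith
  have hmem : v ∈ (ℝ ∙ u)ᗮ := Submodule.mem_orthogonal_singleton_iff_inner_right.2 hvu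
  have hin : ∀ x : E 3, inner ℝ (⟨v, hmem⟩ : ↥(ℝ ∙ u)ᗮ) (pr u x) = inner ℝ v x := fun x =>
    Submodule.inner_orthogonalProjectionOnto_eq_of_mem_left _ x
  have d : ∀ x y : Fin 4, x ≠ y → ‖p x - p y‖ ^ 2 = l ^ 2 := by
    intro x y h; rw [sq_dist hd, if_neg h, sub_zero]
  have e1 : inner ℝ v (p j - p i) = 0 := by
    rw [hv, inner_sub_left, inner_neg_left, inner_smul_left, inner_smul_left, inner_qv' hd,
      inner_qv' hd, d k i hik.symm, d k j hjk.symm, d m i him.symm, d m j hjm.symm]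
    ring
  have e2 : inner ℝ v (p k - p i) = - (a * (l ^ 2 / 2)) := by
    rw [hv, inner_sub_left, inner_neg_left, inner_smul_left, inner_smul_left, inner_qv' hd,
      inner_qv' hd, d k i hik.symm, d m k hkm.symm, d m i him.symm]
    simp
  have e3 : inner ℝ v (p m - p i) = - (b * (l ^ 2 / 2)) := by
    rw [hv, inner_sub_left, inner_neg_left, inner_smul_left, inner_smul_left, inner_qv' hd,
      inner_qv' hd, d k i hik.symm, d m i him.symm, d k m hkm]
    simp
  rw [inner_sub_right] at e1 e2 e3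
  have k2 : inner ℝ v (p k) = inner ℝ v (p i) - a * (l ^ 2 / 2) := by linarith
  have k3 : inner ℝ v (p m) = inner ℝ v (p i) - b * (l ^ 2 / 2) := by linarith
  refine ⟨⟨v, hmem⟩, ?_, inner ℝ v (p i), ?_, ?_, ?_, ?_⟩
  · intro h0
    have hv0 : v = 0 := congrArg Subtype.val h0
    rw [hv0] at k2 k3
    simp only [inner_zero_left, zero_sub] at k2 k3
    have hl2 : l ^ 2 / 2 ≠ 0 := by positivity
    rcases hne with h | h
    · have : b ≠ 0 := abs_ne_zero.2 h
      exact absurd (mul_ne_zero this hl2) (by push Not; linarith)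
    · have : a ≠ 0 := abs_ne_zero.2 h
      exact absurd (mul_ne_zero this hl2) (by push Not; linarith)
  · rw [hin]
  · rw [hin]; linarith
  · rw [hin, k2]
  · rw [hin, k3]

end regular

end Pool.Agent.Helper758_ST
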