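import Pool.Agent.Helper758_ST.B3

set_option autoImplicit false

open MeasureTheory Set Module Filter
open scoped ENNReal Topology

namespace Pool.Agent.Helper758_ST

variable {p : Fin 4 → E 3} {l : ℝ}

theorem sqrt_gap (hd : ∀ a b : Fin 4, a ≠ b → dist (p a) (p b) = l) (hl : 0 < l) (u : E 3)
    (ε : ℝ) (hε : ε ^ 2 = 1) (i j : Fin 4) (hij : i ≠ j) :
    √(gap u (p j - p i)) = l * fc (ε * tt p u j / l - ε * tt p u i / l) := by
  have h1 : gap u (p j - p i) = l ^ 2 * (1 - (ε * tt p u j / l - ε * tt p u i / l) ^ 2) := by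
    rw [gap, ← tt_sub, sq_dist hd, if_neg hij.symm]
    field_simp
    linear_combination ((tt p u j - tt p u i) ^ 2) * hε
  rw [h1, Real.sqrt_mul (by positivity), Real.sqrt_sq hl.le, fc]

theorem tt_sq_norm (hp : AffineIndependent ℝ p) (hd : ∀ a b : Fin 4, a ≠ b → dist (p a) (p b) = l)
    (hl : 0 < l) {u : E 3} (hu : ‖u‖ = 1) (ε : ℝ) (hε : ε ^ 2 = 1) :
    (ε * tt p u 0 / l) ^ 2 + (ε * tt p u 1 / l) ^ 2 + (ε * tt p u 2 / l) ^ 2 +
      (ε * tt p u 3 / l) ^ 2 = 1 / 2 := by
  have h := tt_sq hp hd hu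
  rw [Fin.sum_univ_four] at h
  have e : ∀ k, (ε * tt p u k / l) ^ 2 = tt p u k ^ 2 / l ^ 2 := by
    intro k
    rw [div_pow, mul_pow, hε, one_mul]
  rw [e, e, e, e, ← add_div, ← add_div, ← add_div, h]
  field_simp

theorem caseT (hp : AffineIndependent ℝ p) (hd : ∀ a b : Fin 4, a ≠ b → dist (p a) (p b) = l)
    (hl : 0 < l) {u : E 3} (hu : ‖u‖ = 1) (ε : ℝ) (hε : ε ^ 2 = 1) (h0 : tt p u 0 ≠ 0)
    (h1 : 0 ≤ ε * tt p u 1) (h2 : 0 ≤ ε * tt p u 2) (h3 : 0 ≤ ε * tt p u 3) :
    l * (1 + √3) ≤ perimeter u (convexHull ℝ (range p)) := by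
  have hsum := tt_sum p u
  rw [Fin.sum_univ_four] at hsum
  have hsq := tt_sq_norm hp hd hl hu ε hε
  have h0' : ε * tt p u 0 = -(ε * tt p u 1 + ε * tt p u 2 + ε * tt p u 3) := by
    linear_combination ε * hsum
  have hin := tri_case (a := ε * tt p u 1 / l) (b := ε * tt p u 2 / l) (c := ε * tt p u 3 / l)
    (by positivity) (by positivity) (by positivity) (by
      rw [← hsq, h0']; ring)
  have hprod : ∀ x : ℝ, 0 ≤ ε * x → tt p u 0 * x ≤ 0 := by
    intro x hx
    have : tt p u 0 * x = (ε * tt p u 0) * (ε * x) := by linear_combination (-(tt p u 0 * x)) * hε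
    rw [this, h0']
    nlinarith [add_nonneg (add_nonneg h1 h2) h3]
  have habs : 0 < |tt p u 0| * (l ^ 2 / 2) := by positivity
  have nn : ∀ x : ℝ, 0 ≤ |x| * (l ^ 2 / 2) := fun x => by positivity
  obtain ⟨v3, v3n, M3, a31, a32, a30, a33⟩ := support hd hl u 1 2 0 3 (by decide) (by decide)
    (by decide) (by decide) (by decide) (hprod _ h3) (Or.inl h0)
  obtain ⟨v2, v2n, M2, a21, a23, a20, a22⟩ := support hd hl u 1 3 0 2 (by decide) (by decide)
    (by decide) (by decide) (by decide) (hprod _ h2) (Or.inl h0)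
  obtain ⟨v1, v1n, M1, a12, a13, a10, a11⟩ := support hd hl u 2 3 0 1 (by decide) (by decide)
    (by decide) (by decide) (by decide) (hprod _ h1) (Or.inl h0)
  have f1 := seg_sub_frontier (fun i => pr u (p i)) v3 v3n M3 (by
    intro k
    fin_cases k
    · change inner ℝ v3 (pr u (p 0)) ≤ M3; rw [a30]; linarith [nn (tt p u 3)]
    · exact a31.le
    · exact a32.le
    · change inner ℝ v3 (pr u (p 3)) ≤ M3; rw [a33]; linarith) (i := 1) (j := 2) a31 a32
  have f2 := seg_sub_frontier (fun i => pr u (p i)) v2 v2n M2 (by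
    intro k
    fin_cases k
    · change inner ℝ v2 (pr u (p 0)) ≤ M2; rw [a20]; linarith [nn (tt p u 2)]
    · exact a21.le
    · change inner ℝ v2 (pr u (p 2)) ≤ M2; rw [a22]; linarith
    · exact a23.le) (i := 1) (j := 3) a21 a23
  have f3 := seg_sub_frontier (fun i => pr u (p i)) v1 v1n M1 (by
    intro k
    fin_cases k
    · change inner ℝ v1 (pr u (p 0)) ≤ M1; rw [a10]; linarith [nn (tt p u 1)]
    · change inner ℝ v1 (pr u (p 1)) ≤ M1; rw [a11]; linarith
    · exact a12.le
    · exact a13.le) (i := 2) (j := 3) a12 a13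
  rw [← shadow_hull] at f1 f2 f3
  have i12 := inter_subsingleton (C := pr u (p 1)) (D := pr u (p 3)) a31 a32 a31.le
    (by rw [a33]; linarith)
  have i13 := inter_subsingleton (C := pr u (p 2)) (D := pr u (p 3)) a31 a32 a32.le
    (by rw [a33]; linarith)
  have i23 := inter_subsingleton' (C := pr u (p 2)) (D := pr u (p 3)) a21 a23
    (by rw [a22]; linarith) a23.le
  have hm := three_le (segment_closed _ _) (segment_closed _ _) f1 f2 f3 i12 i13 i23
  rw [length_pr hu, length_pr hu, length_pr hu, ← ENNReal.ofReal_add (by positivity) (by positivity),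
    ← ENNReal.ofReal_add (by positivity) (by positivity),
    ENNReal.ofReal_le_iff_le_toReal (frontier_ne_top hu p)] at hm
  rw [sqrt_gap hd hl u ε hε 1 2 (by decide), sqrt_gap hd hl u ε hε 1 3 (by decide),
    sqrt_gap hd hl u ε hε 2 3 (by decide)] at hm
  calc l * (1 + √3) ≤ l * (fc (ε * tt p u 2 / l - ε * tt p u 1 / l) +
      fc (ε * tt p u 3 / l - ε * tt p u 1 / l) + fc (ε * tt p u 3 / l - ε * tt p u 2 / l)) :=
        mul_le_mul_of_nonneg_left hin hl.le
    _ = _ := by ring
    _ ≤ _ := hm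

theorem caseQ (hp : AffineIndependent ℝ p) (hd : ∀ a b : Fin 4, a ≠ b → dist (p a) (p b) = l)
    (hl : 0 < l) {u : E 3} (hu : ‖u‖ = 1) (h0 : tt p u 0 < 0)
    (h1 : tt p u 1 < 0) (h2 : 0 < tt p u 2) (h3 : 0 < tt p u 3) :
    l * (1 + √3) ≤ perimeter u (convexHull ℝ (range p)) := by
  have hsum := tt_sum p u
  rw [Fin.sum_univ_four] at hsum
  have hsq := tt_sq_norm hp hd hl hu 1 (by norm_num)
  simp only [one_mul] at hsq
  have n0 : 0 < -tt p u 0 / l := div_pos (by linarith) hl
  have n1 : 0 < -tt p u 1 / l := div_pos (by linarith) hl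
  have n2 : 0 < tt p u 2 / l := div_pos h2 hl
  have n3 : 0 < tt p u 3 / l := div_pos h3 hl
  have hin := quad_case (a := -tt p u 0 / l) (b := -tt p u 1 / l) (c := tt p u 2 / l)
    (d := tt p u 3 / l) n0.le n1.le n2.le n3.le (by
      rw [← add_div, ← add_div]; congr 1; linarith) (by rw [← hsq]; ring)
  have b0 : 0 < |tt p u 0| * (l ^ 2 / 2) := mul_pos (abs_pos.2 h0.ne) (by positivity)
  have b1 : 0 < |tt p u 1| * (l ^ 2 / 2) := mul_pos (abs_pos.2 h1.ne) (by positivity)
  have b2 : 0 < |tt p u 2| * (l ^ 2 / 2) := mul_pos (abs_pos.2 h2.ne') (by positivity)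
  have b3 : 0 < |tt p u 3| * (l ^ 2 / 2) := mul_pos (abs_pos.2 h3.ne') (by positivity)
  -- edges 02, 03, 12, 13
  obtain ⟨v, vn, M, a0, a2, a1, a3⟩ := support hd hl u 0 2 1 3 (by decide) (by decide)
    (by decide) (by decide) (by decide) (mul_nonpos_of_nonpos_of_nonneg h1.le h3.le) (Or.inl h1.ne)
  obtain ⟨w, wn, N, c0, c3, c1, c2⟩ := support hd hl u 0 3 1 2 (by decide) (by decide)
    (by decide) (by decide) (by decide) (mul_nonpos_of_nonpos_of_nonneg h1.le h2.le) (Or.inl h1.ne)
  obtain ⟨x, xn, X, d1, d2, d0, d3⟩ := support hd hl u 1 2 0 3 (by decide) (by decide)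
    (by decide) (by decide) (by decide) (mul_nonpos_of_nonpos_of_nonneg h0.le h3.le) (Or.inl h0.ne)
  obtain ⟨y, yn, Y, e1, e3, e0, e2⟩ := support hd hl u 1 3 0 2 (by decide) (by decide)
    (by decide) (by decide) (by decide) (mul_nonpos_of_nonpos_of_nonneg h0.le h2.le) (Or.inl h0.ne)
  have a1' : inner ℝ v (pr u (p 1)) < M := by rw [a1]; linarith
  have a3' : inner ℝ v (pr u (p 3)) < M := by rw [a3]; linarith
  have c1' : inner ℝ w (pr u (p 1)) < N := by rw [c1]; linarith
  have c2' : inner ℝ w (pr u (p 2)) < N := by rw [c2]; linarith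
  have d0' : inner ℝ x (pr u (p 0)) < X := by rw [d0]; linarith
  have d3' : inner ℝ x (pr u (p 3)) < X := by rw [d3]; linarith
  have e0' : inner ℝ y (pr u (p 0)) < Y := by rw [e0]; linarith
  have e2' : inner ℝ y (pr u (p 2)) < Y := by rw [e2]; linarith
  have f1 := seg_sub_frontier (fun i => pr u (p i)) v vn M (by
    intro k
    fin_cases k
    · exact a0.le
    · exact a1'.le
    · exact a2.le
    · exact a3'.le) (i := 0) (j := 2) a0 a2
  have f2 := seg_sub_frontier (fun i => pr u (p i)) w wn N (by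
    intro k
    fin_cases k
    · exact c0.le
    · exact c1'.le
    · exact c2'.le
    · exact c3.le) (i := 0) (j := 3) c0 c3
  have f3 := seg_sub_frontier (fun i => pr u (p i)) x xn X (by
    intro k
    fin_cases k
    · exact d0'.le
    · exact d1.le
    · exact d2.le
    · exact d3'.le) (i := 1) (j := 2) d1 d2
  have f4 := seg_sub_frontier (fun i => pr u (p i)) y yn Y (by
    intro k
    fin_cases k
    · exact e0'.le
    · exact e1.le
    · exact e2'.le
    · exact e3.le) (i := 1) (j := 3) e1 e3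
  rw [← shadow_hull] at f1 f2 f3 f4
  have i12 := inter_subsingleton (C := pr u (p 0)) (D := pr u (p 3)) a0 a2 a0.le a3'
  have i13 := inter_subsingleton' (C := pr u (p 1)) (D := pr u (p 2)) a0 a2 a1' a2.le
  have i14 := inter_subsingleton (C := pr u (p 1)) (D := pr u (p 3)) a0 a2 a1'.le a3'
  have i23 := inter_subsingleton (C := pr u (p 1)) (D := pr u (p 2)) c0 c3 c1'.le c2'
  have i24 := inter_subsingleton' (C := pr u (p 1)) (D := pr u (p 3)) c0 c3 c1' c3.le
  have i34 := inter_subsingleton (C := pr u (p 1)) (D := pr u (p 3)) d1 d2 d1.le d3'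
  have hm := four_le (segment_closed _ _) (segment_closed _ _) (segment_closed _ _) f1 f2 f3 f4
    i12 i13 i23 i14 i24 i34
  rw [length_pr hu, length_pr hu, length_pr hu, length_pr hu,
    ← ENNReal.ofReal_add (by positivity) (by positivity),
    ← ENNReal.ofReal_add (by positivity) (by positivity),
    ← ENNReal.ofReal_add (by positivity) (by positivity),
    ENNReal.ofReal_le_iff_le_toReal (frontier_ne_top hu p)] at hm
  rw [sqrt_gap hd hl u 1 (by norm_num) 0 2 (by decide), sqrt_gap hd hl u 1 (by norm_num) 0 3 (by decide),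
    sqrt_gap hd hl u 1 (by norm_num) 1 2 (by decide),
    sqrt_gap hd hl u 1 (by norm_num) 1 3 (by decide)] at hm
  simp only [one_mul] at hm
  have g : ∀ i j : Fin 4, fc (-tt p u i / l + tt p u j / l) = fc (tt p u j / l - tt p u i / l) := by
    intro i j; congr 1; ring
  rw [g, g, g, g] at hin
  calc l * (1 + √3) ≤ l * (fc (tt p u 2 / l - tt p u 0 / l) + fc (tt p u 3 / l - tt p u 0 / l) +
      fc (tt p u 2 / l - tt p u 1 / l) + fc (tt p u 3 / l - tt p u 1 / l)) :=
        mul_le_mul_of_nonneg_left hin hl.le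
    _ = _ := by ring
    _ ≤ _ := hm

/-- every shadow of a regular tetrahedron with edge `l` has perimeter at least `(1 + √3) l` -/
theorem lower (hp : AffineIndependent ℝ p) (hd : ∀ a b : Fin 4, a ≠ b → dist (p a) (p b) = l)
    {u : E 3} (hu : ‖u‖ = 1) :
    l * (1 + √3) ≤ perimeter u (convexHull ℝ (range p)) := by
  have hl : 0 < l := by
    rw [← hd 0 1 (by decide), dist_pos]
    exact fun h => absurd (hp.injective h) (by decide)
  set σ := Tuple.sort (tt p u) with hσ
  have hmono : Monotone (tt p u ∘ σ) := Tuple.monotone_sort _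
  have hr : range (p ∘ σ) = range p := EquivLike.range_comp _ _
  have hpσ : AffineIndependent ℝ (p ∘ σ) := hp.comp_embedding σ.toEmbedding
  have hdσ : ∀ a b : Fin 4, a ≠ b → dist ((p ∘ σ) a) ((p ∘ σ) b) = l := fun a b h =>
    hd _ _ (fun e => h (σ.injective e))
  have s : ∀ k, tt (p ∘ σ) u k = (tt p u ∘ σ) k := tt_perm p u σ
  have m01 : tt (p ∘ σ) u 0 ≤ tt (p ∘ σ) u 1 := by rw [s, s]; exact hmono (by decide)
  have m12 : tt (p ∘ σ) u 1 ≤ tt (p ∘ σ) u 2 := by rw [s, s]; exact hmono (by decide)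
  have m23 : tt (p ∘ σ) u 2 ≤ tt (p ∘ σ) u 3 := by rw [s, s]; exact hmono (by decide)
  have hsum := tt_sum (p ∘ σ) u
  rw [Fin.sum_univ_four] at hsum
  have hsq := tt_sq hpσ hdσ hu
  rw [Fin.sum_univ_four] at hsq
  have hpos : 0 < l ^ 2 / 2 := by positivity
  rcases le_or_gt 0 (tt (p ∘ σ) u 1) with c1 | c1
  · have h0 : tt (p ∘ σ) u 0 ≠ 0 := by
      intro h
      have z1 : tt (p ∘ σ) u 1 = 0 := by linarith
      have z2 : tt (p ∘ σ) u 2 = 0 := by linarith
      have z3 : tt (p ∘ σ) u 3 = 0 := by linarith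
      rw [h, z1, z2, z3] at hsq
      norm_num at hsq
      linarith
    have := caseT hpσ hdσ hl hu 1 (by norm_num) h0 (by linarith) (by linarith) (by linarith)
    rwa [hr] at this
  · rcases le_or_gt (tt (p ∘ σ) u 2) 0 with c2 | c2
    · set τ : Equiv.Perm (Fin 4) := σ * Equiv.swap 0 3 with hτ
      have k1 : (Equiv.swap (0 : Fin 4) 3) 3 = 0 ∧ (Equiv.swap (0 : Fin 4) 3) 0 = 3 ∧
        (Equiv.swap (0 : Fin 4) 3) 1 = 1 ∧ (Equiv.swap (0 : Fin 4) 3) 2 = 2 := by decide
      have hrτ : range (p ∘ τ) = range p := EquivLike.range_comp _ _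
      have hpτ : AffineIndependent ℝ (p ∘ τ) := hp.comp_embedding τ.toEmbedding
      have hdτ : ∀ a b : Fin 4, a ≠ b → dist ((p ∘ τ) a) ((p ∘ τ) b) = l := fun a b h =>
        hd _ _ (fun e => h (τ.injective e))
      have t0 : tt (p ∘ τ) u 0 = tt (p ∘ σ) u 3 := by
        rw [tt_perm, tt_perm, hτ, Equiv.Perm.mul_apply, k1.2.1]
      have t1 : tt (p ∘ τ) u 1 = tt (p ∘ σ) u 1 := by
        rw [tt_perm, tt_perm, hτ, Equiv.Perm.mul_apply, k1.2.2.1]
      have t2 : tt (p ∘ τ) u 2 = tt (p ∘ σ) u 2 := by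
        rw [tt_perm, tt_perm, hτ, Equiv.Perm.mul_apply, k1.2.2.2]
      have t3 : tt (p ∘ τ) u 3 = tt (p ∘ σ) u 0 := by
        rw [tt_perm, tt_perm, hτ, Equiv.Perm.mul_apply, k1.1]
      have := caseT hpτ hdτ hl hu (-1) (by norm_num) (by rw [t0]; intro h; linarith)
        (by rw [t1]; linarith) (by rw [t2]; linarith) (by rw [t3]; linarith)
      rwa [hrτ] at this
    · have := caseQ hpσ hdσ hl hu (by linarith) c1 c2 (by linarith)
      rwa [hr] at this

theorem surface_regular (hp : AffineIndependent ℝ p)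
    (hd : ∀ a b : Fin 4, a ≠ b → dist (p a) (p b) = l) :
    surfaceArea (convexHull ℝ (range p)) = √3 * l ^ 2 := by
  have hl : 0 < l := by
    rw [← hd 0 1 (by decide), dist_pos]
    exact fun h => absurd (hp.injective h) (by decide)
  have g : ∀ a b c : Fin 4, a ≠ b → a ≠ c → b ≠ c →
      √(gram (p b - p a) (p c - p a)) = √3 * l ^ 2 / 2 := by
    intro a b c hab hac hbc
    have e : inner ℝ (p b - p a) (p c - p a) = l ^ 2 / 2 := by
      have h1 := norm_sub_sq_real (p b - p a) (p c - p a)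
      have h2 : p b - p a - (p c - p a) = p b - p c := by abel
      rw [h2, sq_dist hd, sq_dist hd, sq_dist hd, if_neg hbc, if_neg hab.symm, if_neg hac.symm] at h1
      linarith
    have h3 : gram (p b - p a) (p c - p a) = 3 * (l ^ 2 / 2) ^ 2 := by
      rw [gram, e, sq_dist hd, sq_dist hd, if_neg hab.symm, if_neg hac.symm]
      ring
    rw [h3, Real.sqrt_mul (by norm_num), Real.sqrt_sq (by positivity)]
    ring
  rw [surface_eq p hp, g 0 1 2 (by decide) (by decide) (by decide),
    g 0 1 3 (by decide) (by decide) (by decide), g 0 3 2 (by decide) (by decide) (by decide),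
    g 3 1 2 (by decide) (by decide) (by decide)]
  ring

/-- the regular tetrahedron attains equality -/
theorem regular_eq (hp : AffineIndependent ℝ p)
    (hd : ∀ a b : Fin 4, a ≠ b → dist (p a) (p b) = l) :
    minPerimeter (convexHull ℝ (range p)) ^ 2 =
      (2 + 4 / √3) * surfaceArea (convexHull ℝ (range p)) := by
  have hl : 0 < l := by
    rw [← hd 0 1 (by decide), dist_pos]
    exact fun h => absurd (hp.injective h) (by decide)
  refine le_antisymm (min_bound p hp).1 ?_
  have hne : Nonempty (Metric.sphere (0 : E 3) 1) :=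
    ⟨⟨_, mem_sphere_zero_iff_norm.2 (unit_edge hp (i := 0) (j := 1) (by decide))⟩⟩
  have h1 : l * (1 + √3) ≤ minPerimeter (convexHull ℝ (range p)) :=
    le_ciInf fun u => lower hp hd (by simpa using u.2)
  have r2 : √3 ^ 2 = (3 : ℝ) := Real.sq_sqrt (by norm_num)
  have hr : √3 ≠ 0 := by positivity
  have h2 : (2 + 4 / √3) * (√3 * l ^ 2) = (l * (1 + √3)) ^ 2 := by
    field_simp
    linear_combination (-1 : ℝ) * r2
  rw [surface_regular hp hd, h2]
  exact pow_le_pow_left₀ (by positivity) h1 2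

end Pool.Agent.Helper758_ST
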