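import Pool.Agent.Helper758_ST.Z5

set_option autoImplicit false

open MeasureTheory Set Module Filter
open scoped ENNReal Topology

namespace Pool.Agent.Helper758_ST

theorem radial3 : ∫ y in Ioi (0 : ℝ), y ^ 2 • (y * Real.exp (-y ^ 2)) = 1 / 2 := by
  have h := integral_rpow_mul_exp_neg_rpow (p := 2) (q := 3) (by norm_num) (by norm_num)
  rw [show ((3 : ℝ) + 1) / 2 = 2 by norm_num, Real.Gamma_two, mul_one] at h
  rw [← h]
  refine setIntegral_congr_fun measurableSet_Ioi fun y _ => ?_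
  simp only [smul_eq_mul]
  rw [show (3 : ℝ) = ((3 : ℕ) : ℝ) by norm_num, Real.rpow_natCast,
    show (2 : ℝ) = ((2 : ℕ) : ℝ) by norm_num, Real.rpow_natCast]
  ring

theorem radial2 : ∫ y in Ioi (0 : ℝ), y ^ 1 • (y * Real.exp (-y ^ 2)) = √Real.pi / 4 := by
  have h := integral_rpow_mul_exp_neg_rpow (p := 2) (q := 2) (by norm_num) (by norm_num)
  rw [show ((2 : ℝ) + 1) / 2 = 1 / 2 + 1 by norm_num, Real.Gamma_add_one (by norm_num),
    Real.Gamma_one_half_eq] at h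
  have h' : √Real.pi / 4 = 1 / 2 * (1 / 2 * √Real.pi) := by ring
  rw [h', ← h]
  refine setIntegral_congr_fun measurableSet_Ioi fun y _ => ?_
  simp only [smul_eq_mul]
  rw [show (2 : ℝ) = ((2 : ℕ) : ℝ) by norm_num, Real.rpow_natCast]
  ring

theorem A3 : ∫ x : E 3, ‖x‖ * Real.exp (-‖x‖ ^ 2) = 2 * Real.pi := by
  have h := integral_fun_norm_addHaar (volume : Measure (E 3)) (fun y : ℝ => y * Real.exp (-y ^ 2))
  rw [h, finrank_euclideanSpace_fin, show 3 - 1 = 2 from rfl, radial3, Measure.real,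
    EuclideanSpace.volume_ball_fin_three]
  simp only [ENNReal.ofReal_one, one_pow, one_mul]
  rw [ENNReal.toReal_ofReal (by positivity)]
  simp only [nsmul_eq_mul, smul_eq_mul]
  push_cast
  ring

theorem A2 : ∫ x : E 2, ‖x‖ * Real.exp (-‖x‖ ^ 2) = Real.pi * √Real.pi / 2 := by
  have h := integral_fun_norm_addHaar (volume : Measure (E 2)) (fun y : ℝ => y * Real.exp (-y ^ 2))
  rw [h, finrank_euclideanSpace_fin, show 2 - 1 = 1 from rfl, radial2, Measure.real,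
    EuclideanSpace.volume_ball_fin_two]
  simp only [ENNReal.ofReal_one, one_pow, one_mul]
  rw [ENNReal.toReal_ofReal (by positivity)]
  simp only [nsmul_eq_mul, smul_eq_mul]
  push_cast
  ring

theorem A3_int : Integrable fun x : E 3 => ‖x‖ * Real.exp (-‖x‖ ^ 2) := by
  have h := (integrable_fun_norm_addHaar (volume : Measure (E 3))
    (f := fun y : ℝ => y * Real.exp (-y ^ 2))).2 ?_
  · exact h
  · rw [finrank_euclideanSpace_fin, show 3 - 1 = 2 from rfl]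
    have h := integrableOn_rpow_mul_exp_neg_rpow (p := 2) (s := 3) (by norm_num) (by norm_num)
    refine h.congr_fun (fun y _ => ?_) measurableSet_Ioi
    simp only [smul_eq_mul]
    rw [show (3 : ℝ) = ((3 : ℕ) : ℝ) by norm_num, Real.rpow_natCast,
      show (2 : ℝ) = ((2 : ℕ) : ℝ) by norm_num, Real.rpow_natCast]
    ring

/-- the third coordinate vector -/
noncomputable def e3 : E 3 := EuclideanSpace.single 2 1

theorem gram_e3 (x : E 3) : gram x e3 = x 0 ^ 2 + x 1 ^ 2 := by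
  rw [gram, EuclideanSpace.norm_sq_eq, EuclideanSpace.norm_sq_eq, PiLp.inner_apply,
    Fin.sum_univ_three, Fin.sum_univ_three, Fin.sum_univ_three]
  simp [e3]

theorem I_e3 : ∫ x : E 3, √(gram x e3) * Real.exp (-‖x‖ ^ 2) = Real.pi ^ 2 / 2 := by
  have h1 : ∀ x : E 3, √(gram x e3) * Real.exp (-‖x‖ ^ 2) =
      Real.exp (-(1 : ℝ) * (x 2) ^ 2) * (√(x 0 ^ 2 + x 1 ^ 2) * Real.exp (-(x 0 ^ 2 + x 1 ^ 2))) := by
    intro x
    rw [gram_e3, EuclideanSpace.norm_sq_eq, Fin.sum_univ_three]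
    simp only [Real.norm_eq_abs, sq_abs]
    rw [show -(x 0 ^ 2 + x 1 ^ 2 + x 2 ^ 2) = -(1 : ℝ) * x 2 ^ 2 + -(x 0 ^ 2 + x 1 ^ 2) by ring,
      Real.exp_add]
    ring
  simp_rw [h1]
  -- pass to `Fin 3 → ℝ`
  have h2 := (PiLp.volume_preserving_ofLp (Fin 3)).integral_comp
    (MeasurableEquiv.toLp 2 (Fin 3 → ℝ)).symm.measurableEmbedding
    (fun x : Fin 3 → ℝ => Real.exp (-(1 : ℝ) * (x 2) ^ 2) *
      (√(x 0 ^ 2 + x 1 ^ 2) * Real.exp (-(x 0 ^ 2 + x 1 ^ 2))))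
  have h2' : ∫ x : E 3, Real.exp (-(1 : ℝ) * (x 2) ^ 2) *
      (√(x 0 ^ 2 + x 1 ^ 2) * Real.exp (-(x 0 ^ 2 + x 1 ^ 2))) =
      ∫ x : Fin 3 → ℝ, Real.exp (-(1 : ℝ) * (x 2) ^ 2) *
      (√(x 0 ^ 2 + x 1 ^ 2) * Real.exp (-(x 0 ^ 2 + x 1 ^ 2))) := h2
  rw [h2']
  -- split off the last coordinate
  have h3 := (volume_preserving_piFinSuccAbove (fun _ : Fin 3 => ℝ) 2).integral_comp
    (MeasurableEquiv.piFinSuccAbove (fun _ : Fin 3 => ℝ) 2).measurableEmbedding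
    (fun z : ℝ × (Fin 2 → ℝ) => Real.exp (-(1 : ℝ) * z.1 ^ 2) *
      (√(z.2 0 ^ 2 + z.2 1 ^ 2) * Real.exp (-(z.2 0 ^ 2 + z.2 1 ^ 2))))
  have h3' : ∫ x : Fin 3 → ℝ, Real.exp (-(1 : ℝ) * (x 2) ^ 2) *
      (√(x 0 ^ 2 + x 1 ^ 2) * Real.exp (-(x 0 ^ 2 + x 1 ^ 2))) =
      ∫ z : ℝ × (Fin 2 → ℝ), Real.exp (-(1 : ℝ) * z.1 ^ 2) *
      (√(z.2 0 ^ 2 + z.2 1 ^ 2) * Real.exp (-(z.2 0 ^ 2 + z.2 1 ^ 2))) := h3
  rw [h3']
  have h4 := integral_prod_mul (μ := (volume : Measure ℝ)) (ν := (volume : Measure (Fin 2 → ℝ)))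
    (fun t : ℝ => Real.exp (-(1 : ℝ) * t ^ 2))
    (fun y : Fin 2 → ℝ => √(y 0 ^ 2 + y 1 ^ 2) * Real.exp (-(y 0 ^ 2 + y 1 ^ 2)))
  have h4' : ∫ z : ℝ × (Fin 2 → ℝ), Real.exp (-(1 : ℝ) * z.1 ^ 2) *
      (√(z.2 0 ^ 2 + z.2 1 ^ 2) * Real.exp (-(z.2 0 ^ 2 + z.2 1 ^ 2))) =
      (∫ t : ℝ, Real.exp (-(1 : ℝ) * t ^ 2)) *
      ∫ y : Fin 2 → ℝ, √(y 0 ^ 2 + y 1 ^ 2) * Real.exp (-(y 0 ^ 2 + y 1 ^ 2)) := h4
  rw [h4', integral_gaussian]
  -- the planar part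
  have h5 := (PiLp.volume_preserving_ofLp (Fin 2)).integral_comp
    (MeasurableEquiv.toLp 2 (Fin 2 → ℝ)).symm.measurableEmbedding
    (fun y : Fin 2 → ℝ => √(y 0 ^ 2 + y 1 ^ 2) * Real.exp (-(y 0 ^ 2 + y 1 ^ 2)))
  have h5' : ∫ y : Fin 2 → ℝ, √(y 0 ^ 2 + y 1 ^ 2) * Real.exp (-(y 0 ^ 2 + y 1 ^ 2)) =
      ∫ x : E 2, ‖x‖ * Real.exp (-‖x‖ ^ 2) := by
    rw [← h5]
    refine integral_congr_ae (Filter.Eventually.of_forall fun x => ?_)
    simp only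
    have : ‖x‖ ^ 2 = x 0 ^ 2 + x 1 ^ 2 := by
      rw [EuclideanSpace.norm_sq_eq, Fin.sum_univ_two]
      simp only [Real.norm_eq_abs, sq_abs]
    rw [← this, Real.sqrt_sq (norm_nonneg _)]
  rw [h5', A2, div_one]
  have h6 : √Real.pi * (Real.pi * √Real.pi / 2) = Real.pi * (√Real.pi * √Real.pi) / 2 := by ring
  rw [h6, Real.mul_self_sqrt Real.pi_pos.le]
  ring

theorem gram_int (s : E 3) : Integrable fun x : E 3 => √(gram x s) * Real.exp (-‖x‖ ^ 2) := by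
  refine Integrable.mono' (A3_int.mul_const ‖s‖) ?_ (Filter.Eventually.of_forall fun x => ?_)
  · refine Continuous.aestronglyMeasurable ?_
    unfold gram
    fun_prop
  · rw [Real.norm_of_nonneg (by positivity)]
    have h1 : √(gram x s) ≤ ‖x‖ * ‖s‖ := by
      refine Real.sqrt_le_iff.2 ⟨by positivity, ?_⟩
      rw [gram]
      nlinarith [sq_nonneg (inner ℝ x s)]
    calc √(gram x s) * Real.exp (-‖x‖ ^ 2) ≤ (‖x‖ * ‖s‖) * Real.exp (-‖x‖ ^ 2) :=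
        mul_le_mul_of_nonneg_right h1 (Real.exp_pos _).le
      _ = _ := by ring

theorem I_unit {e : E 3} (he : ‖e‖ = 1) :
    ∫ x : E 3, √(gram x e) * Real.exp (-‖x‖ ^ 2) = Real.pi ^ 2 / 2 := by
  have h3 : ‖(e3 : E 3)‖ = ‖e‖ := by rw [he, e3]; simp
  set R : E 3 ≃ₗᵢ[ℝ] E 3 := (ℝ ∙ (e3 - e))ᗮ.reflection with hR
  have hRe : R e3 = e := Submodule.reflection_sub h3
  have h := (LinearIsometryEquiv.measurePreserving R).integral_comp
    R.toHomeomorph.measurableEmbedding (fun x : E 3 => √(gram x e) * Real.exp (-‖x‖ ^ 2))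
  rw [← h, ← I_e3]
  refine integral_congr_ae (Filter.Eventually.of_forall fun x => ?_)
  simp only
  have h1 : gram (R x) e = gram x e3 := by
    rw [← hRe, gram, gram, R.norm_map, R.norm_map, R.inner_map_map]
  rw [h1, R.norm_map]

theorem I_gen (s : E 3) :
    ∫ x : E 3, √(gram x s) * Real.exp (-‖x‖ ^ 2) = ‖s‖ * (Real.pi ^ 2 / 2) := by
  by_cases hs : s = 0
  · subst hs
    have : ∀ x : E 3, √(gram x (0 : E 3)) * Real.exp (-‖x‖ ^ 2) = 0 := by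
      intro x; simp [gram]
    simp_rw [this]
    simp
  · have hn : 0 < ‖s‖ := norm_pos_iff.2 hs
    have he : ‖‖s‖⁻¹ • s‖ = 1 := by rw [norm_smul, norm_inv, norm_norm, inv_mul_cancel₀ hn.ne']
    have h1 : ∀ x : E 3, √(gram x s) * Real.exp (-‖x‖ ^ 2) =
        ‖s‖ * (√(gram x (‖s‖⁻¹ • s)) * Real.exp (-‖x‖ ^ 2)) := by
      intro x
      have : gram x s = ‖s‖ ^ 2 * gram x (‖s‖⁻¹ • s) := by
        rw [gram, gram, he, inner_smul_right]
        field_simp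
      rw [this, Real.sqrt_mul (by positivity), Real.sqrt_sq hn.le]
      ring
    simp_rw [h1]
    rw [integral_const_mul, I_unit he]

end Pool.Agent.Helper758_ST
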