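import Pool.Agent.Helper758_ST.Z8

set_option autoImplicit false

open MeasureTheory Set Module Filter
open scoped ENNReal Topology

namespace Pool.Agent.Helper758_ST

theorem li_of_ne {x y z : E 3} (h : inner ℝ (cr x y) z ≠ 0) : LinearIndependent ℝ ![x, y, z] := by
  set A : Matrix (Fin 3) (Fin 3) ℝ := Matrix.of fun i => (![x, y, z] i : E 3).ofLp with hA
  have h2 : LinearIndependent ℝ A.row := by
    rw [Matrix.linearIndependent_rows_iff_isUnit, Matrix.isUnit_iff_isUnit_det]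
    refine isUnit_iff_ne_zero.2 fun h0 => h ?_
    rw [Matrix.det_fin_three] at h0
    rw [inner_cr]
    simp [hA] at h0
    linarith
  have h3 : LinearIndependent ℝ ((WithLp.linearEquiv 2 ℝ (Fin 3 → ℝ)).toLinearMap ∘ ![x, y, z]) := h2
  exact LinearIndependent.of_comp _ h3

/-- points of the moment curve -/
noncomputable def mc {n : ℕ} (i : Fin n) : E 3 := WithLp.toLp 2 ![1, (i : ℝ), (i : ℝ) ^ 2]

theorem mc_vander {n : ℕ} {i j k : Fin n} (hij : i ≠ j) (hik : i ≠ k) (hjk : j ≠ k) :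
    inner ℝ (cr (mc i) (mc j)) (mc k) ≠ 0 := by
  have e : inner ℝ (cr (mc i) (mc j)) (mc k) =
      (((j : ℕ) : ℝ) - ((i : ℕ) : ℝ)) * (((k : ℕ) : ℝ) - ((i : ℕ) : ℝ)) * (((k : ℕ) : ℝ) - ((j : ℕ) : ℝ)) := by
    rw [inner_cr]
    simp [mc]
    ring
  rw [e]
  have h : ∀ {a b : Fin n}, a ≠ b → (((b : ℕ) : ℝ) - ((a : ℕ) : ℝ)) ≠ 0 := by
    intro a b hab h0
    apply hab
    have : ((b : ℕ) : ℝ) = ((a : ℕ) : ℝ) := by linarith
    exact (Fin.ext (by exact_mod_cast this)).symm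
  exact mul_ne_zero (mul_ne_zero (h hij) (h hik)) (h hjk)

open Polynomial in
/-- for all but finitely many perturbations a triple is independent -/
theorem triple_finite (x y z a b c : E 3) (h : inner ℝ (cr a b) c ≠ 0) :
    {e : ℝ | inner ℝ (cr (x + e • a) (y + e • b)) (z + e • c) = 0}.Finite := by
  let p : E 3 → E 3 → Fin 3 → ℝ[X] := fun u w l => C (u l) + X * C (w l)
  set P : ℝ[X] := (p x a 1 * p y b 2 - p x a 2 * p y b 1) * p z c 0 +
    (p x a 2 * p y b 0 - p x a 0 * p y b 2) * p z c 1 +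
    (p x a 0 * p y b 1 - p x a 1 * p y b 0) * p z c 2 with hP
  have hev : ∀ e : ℝ, P.eval e = inner ℝ (cr (x + e • a) (y + e • b)) (z + e • c) := by
    intro e
    rw [inner_cr]
    simp [hP, p]
    ring
  have hP0 : P ≠ 0 := by
    intro h0
    apply h
    have h1 : ∀ e : ℝ, inner ℝ (cr (x + e • a) (y + e • b)) (z + e • c) = 0 := fun e => by
      rw [← hev, h0, eval_zero]
    have a0 := h1 0
    have a1 := h1 1
    have a2 := h1 2
    have a3 := h1 3
    rw [inner_cr] at a0 a1 a2 a3 ⊢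
    simp only [PiLp.add_apply, PiLp.smul_apply, smul_eq_mul] at a0 a1 a2 a3
    linear_combination (1 / 6) * a3 - (1 / 2) * a2 + (1 / 2) * a1 - (1 / 6) * a0
  have hsub : {e : ℝ | inner ℝ (cr (x + e • a) (y + e • b)) (z + e • c) = 0} ⊆
      (P.roots.toFinset : Set ℝ) := by
    intro e he
    rw [Finset.mem_coe, Multiset.mem_toFinset, mem_roots hP0, IsRoot.def, hev]
    exact he
  exact (Finset.finite_toSet _).subset hsub

/-- small perturbations in general position -/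
theorem exists_gp {n : ℕ} (s : Fin n → E 3) {δ : ℝ} (hδ : 0 < δ) :
    ∃ e : ℝ, 0 < e ∧ e < δ ∧ GP fun i => s i + e • mc i := by
  set B : Set ℝ := ⋃ i : Fin n, ⋃ j : Fin n, ⋃ k : Fin n, {e : ℝ | (i ≠ j ∧ i ≠ k ∧ j ≠ k) ∧
    inner ℝ (cr (s i + e • mc i) (s j + e • mc j)) (s k + e • mc k) = 0} with hB
  have hfin : B.Finite := by
    refine Set.finite_iUnion fun i => Set.finite_iUnion fun j => Set.finite_iUnion fun k => ?_
    by_cases h : i ≠ j ∧ i ≠ k ∧ j ≠ k
    · exact (triple_finite (s i) (s j) (s k) _ _ _ (mc_vander h.1 h.2.1 h.2.2)).subset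
        fun e he => he.2
    · refine Set.finite_empty.subset fun e he => h he.1
  obtain ⟨e, he1, he2⟩ := ((Ioo_infinite hδ).sdiff hfin).nonempty
  refine ⟨e, he1.1, he1.2, fun i j k hij hik hjk => li_of_ne fun h0 => he2 ?_⟩
  exact mem_iUnion.2 ⟨i, mem_iUnion.2 ⟨j, mem_iUnion.2 ⟨k, ⟨hij, hik, hjk⟩, h0⟩⟩⟩

theorem near_perturb {n : ℕ} (v : E 3) (s : Fin n → E 3) {e : ℝ} (he : 0 ≤ e) :
    Near (e * ∑ i : Fin n, ‖(mc i : E 3)‖) (tz v s) (tz v fun i => s i + e • mc i) ∧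
    Near (e * ∑ i : Fin n, ‖(mc i : E 3)‖) (tz v fun i => s i + e • mc i) (tz v s) := by
  have key : ∀ t : Fin n → ℝ, (∀ i, 0 ≤ t i ∧ t i ≤ 1) →
      ‖∑ i, t i • (s i + e • mc i) - ∑ i, t i • s i‖ ≤ e * ∑ i : Fin n, ‖(mc i : E 3)‖ := by
    intro t ht
    rw [← Finset.sum_sub_distrib, Finset.mul_sum]
    refine (norm_sum_le _ _).trans (Finset.sum_le_sum fun i _ => ?_)
    rw [smul_add, add_sub_cancel_left, norm_smul, norm_smul, Real.norm_of_nonneg (ht i).1,
      Real.norm_of_nonneg he]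
    have h1 : 0 ≤ e * ‖(mc i : E 3)‖ := by positivity
    have := mul_le_mul_of_nonneg_right (ht i).2 h1
    linarith
  constructor
  · rintro _ ⟨_, ⟨t, ht, rfl⟩, rfl⟩
    refine ⟨_, ⟨_, ⟨t, ht, rfl⟩, rfl⟩, ?_⟩
    simp only
    rw [add_sub_add_left_eq_sub, norm_sub_rev]
    exact key t ht
  · rintro _ ⟨_, ⟨t, ht, rfl⟩, rfl⟩
    refine ⟨_, ⟨_, ⟨t, ht, rfl⟩, rfl⟩, ?_⟩
    simp only
    rw [add_sub_add_left_eq_sub]
    exact key t ht

theorem Near.trans {ε δ : ℝ} {A B D : Set (E 3)} (h1 : Near ε A B) (h2 : Near δ B D) :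
    Near (ε + δ) A D := by
  intro a ha
  obtain ⟨b, hb, hab⟩ := h1 a ha
  obtain ⟨d, hd, hbd⟩ := h2 b hb
  refine ⟨d, hd, ?_⟩
  have : a - d = (a - b) + (b - d) := by abel
  rw [this]
  exact (norm_add_le _ _).trans (add_le_add hab hbd)

theorem Near.mono {ε δ : ℝ} {A B : Set (E 3)} (h : Near ε A B) (hδ : ε ≤ δ) : Near δ A B :=
  fun a ha => by obtain ⟨b, hb, hab⟩ := h a ha; exact ⟨b, hb, hab.trans hδ⟩

/-- a zonotope with at least three generators is close to one in general position -/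
theorem exists_close {n : ℕ} (v : E 3) (s : Fin n → E 3) {ε : ℝ} (hε : 0 < ε) :
    ∃ s' : Fin n → E 3, GP s' ∧ Near ε (tz v s) (tz v s') ∧ Near ε (tz v s') (tz v s) := by
  set M := ∑ i : Fin n, ‖(mc i : E 3)‖ with hM
  have hM0 : 0 ≤ M := Finset.sum_nonneg fun i _ => norm_nonneg _
  obtain ⟨e, he0, he1, hgp⟩ := exists_gp s (δ := ε / (M + 1)) (by positivity)
  obtain ⟨h1, h2⟩ := near_perturb v s he0.le
  have hle : e * M ≤ ε := by
    have : e * (M + 1) < ε := by rwa [lt_div_iff₀ (by positivity)] at he1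
    nlinarith
  exact ⟨_, hgp, h1.mono hle, h2.mono hle⟩

theorem pad_zono {n : ℕ} (s : Fin n → E 3) :
    zono (Fin.append s (fun _ : Fin 3 => (0 : E 3))) = zono s := by
  ext x
  constructor
  · rintro ⟨t, ht, rfl⟩
    refine ⟨fun i => t (Fin.castAdd 3 i), fun i => ht _, ?_⟩
    rw [Fin.sum_univ_add]
    simp
  · rintro ⟨t, ht, rfl⟩
    refine ⟨Fin.append t (fun _ : Fin 3 => (0 : ℝ)), fun i => ?_, ?_⟩
    · refine Fin.addCases (fun i => ?_) (fun i => ?_) i
      · simpa using ht i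
      · simp
    · rw [Fin.sum_univ_add]
      simp

/-- the bound for zonotopes with nonempty interior -/
theorem zonotope_bound {n : ℕ} (hn : 3 ≤ n) (v : E 3) (s : Fin n → E 3)
    (hint : (interior (tz v s)).Nonempty) :
    minPerimeter (tz v s) ^ 2 ≤ 4 * (1 - 1 / (n : ℝ)) * surfaceArea (tz v s) ∧
      0 < surfaceArea (tz v s) := by
  refine approx_bound (tz_compact v s) (tz_convex v s) hint fun ε hε => ?_
  obtain ⟨s', hs', h1, h2⟩ := exists_close v s hε
  exact ⟨n, v, s', hn, hs', le_rfl, h1, h2⟩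

/-- the bound for limits of zonotopes -/
theorem zonoid_bound {K : Set (E 3)} (hK : IsCompact K) (hcv : Convex ℝ K)
    (hint : (interior K).Nonempty)
    (happ : ∀ ε : ℝ, 0 < ε → ∃ (n : ℕ) (v : E 3) (s : Fin n → E 3),
      Metric.hausdorffDist K (tz v s) < ε) :
    minPerimeter K ^ 2 ≤ 4 * surfaceArea K ∧ 0 < surfaceArea K := by
  refine approx_bound hK hcv hint fun ε hε => ?_
  obtain ⟨n, v, s, hd⟩ := happ (ε / 2) (by positivity)
  have hKne : K.Nonempty := hint.mono interior_subset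
  have hpad : tz v (Fin.append s (fun _ : Fin 3 => (0 : E 3))) = tz v s := by
    rw [tz, tz, pad_zono]
  have hZne : (tz v s).Nonempty := ⟨_, ⟨0, zero_mem_zono s, rfl⟩⟩
  have hfin : Metric.hausdorffEDist K (tz v s) ≠ ⊤ :=
    Metric.hausdorffEDist_ne_top_of_nonempty_of_bounded hKne hZne hK.isBounded
      (tz_compact v s).isBounded
  obtain ⟨s', hs', h1, h2⟩ := exists_close v (Fin.append s (fun _ : Fin 3 => (0 : E 3)))
    (ε := ε / 2) (by positivity)
  rw [hpad] at h1 h2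
  have k1 : Near (ε / 2) K (tz v s) := by
    intro x hx
    obtain ⟨y, hy, hxy⟩ := Metric.exists_dist_lt_of_hausdorffDist_lt hx hd hfin
    exact ⟨y, hy, by rw [← dist_eq_norm]; exact hxy.le⟩
  have k2 : Near (ε / 2) (tz v s) K := by
    intro y hy
    obtain ⟨x, hx, hxy⟩ := Metric.exists_dist_lt_of_hausdorffDist_lt' hy hd hfin
    exact ⟨x, hx, by rw [← dist_eq_norm, dist_comm]; exact hxy.le⟩
  refine ⟨n + 3, v, s', by omega, hs', ?_, ?_, ?_⟩
  · have : (0 : ℝ) < 1 / ((n + 3 : ℕ) : ℝ) := by positivity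
    linarith
  · have := k1.trans h1
    rwa [add_halves] at this
  · have := h2.trans k2
    rwa [add_halves] at this

theorem four_lt : (4 : ℝ) < 2 + 4 / √3 := by
  have h3 : (2 : ℝ) < 4 / √3 := by
    rw [lt_div_iff₀ (by positivity)]
    have : √3 < 2 := by
      rw [Real.sqrt_lt' (by norm_num)]; norm_num
    linarith
  linarith

end Pool.Agent.Helper758_ST
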