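import Pool.Agent.Helper758_ST.Y1
import Pool.Agent.Helper758_ST.Z9

set_option autoImplicit false

open MeasureTheory Set Module Filter
open scoped ENNReal Topology

namespace Pool.Agent.Helper758_ST

variable {n : ℕ} {s : Fin n → E 3}

theorem perim_u {u : E 3} (hu : ‖u‖ = 1)
    (h : ∀ i k, i ≠ k → inner ℝ (cr (s i) (s k)) u ≠ 0) :
    μHE[1] (frontier (zono fun i => pr u (s i))) ≤ ENNReal.ofReal (∑ i, 2 * √(gap u (s i))) := by
  have hmain := perim_le (finrank_plane hu) (fun i => pr u (s i)) ?_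
  · have hn' : ∀ i, ‖pr u (s i)‖ = √(gap u (s i)) := by
      intro i
      rw [gap, ← norm_pr hu, Real.sqrt_sq (norm_nonneg _)]
    simp only [hn'] at hmain
    exact hmain
  · intro θ hθ i k hi hk hi0 hk0
    by_contra hik
    have e : ∀ x : E 3, inner ℝ θ (pr u x) = inner ℝ (θ : E 3) x := fun x =>
      Submodule.inner_orthogonalProjectionOnto_eq_of_mem_left θ x
    rw [e] at hi0 hk0
    have hj : inner ℝ (θ : E 3) u = 0 := Submodule.mem_orthogonal_singleton_iff_inner_left.1 θ.2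
    have := orth3 (li_of_ne (h i k hik)) hi0 hk0 hj
    exact hθ (by simpa using this)

/-- a plane through the origin is null -/
theorem plane_null {ν : E 3} (hν : ν ≠ 0) : volume {x : E 3 | inner ℝ ν x = 0} = 0 := by
  have hne : (ℝ ∙ ν)ᗮ ≠ ⊤ := by
    intro h
    have : ν ∈ (ℝ ∙ ν)ᗮ := by rw [h]; trivial
    rw [Submodule.mem_orthogonal_singleton_iff_inner_right] at this
    exact hν (inner_self_eq_zero.1 this)
  have h0 := Measure.addHaar_submodule (volume : Measure (E 3)) (ℝ ∙ ν)ᗮ hne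
  refine measure_mono_null (fun x hx => ?_) h0
  exact Submodule.mem_orthogonal_singleton_iff_inner_right.2 hx

/-- for almost every direction the perimeter bound holds -/
theorem ae_bound (hn : 3 ≤ n) (hs : GP s) {K : Set (E 3)} (hK : IsCompact K)
    (hcv : Convex ℝ K) {v' : E 3} (hup : K ⊆ tz v' s) :
    ∀ᵐ x : E 3, minPerimeter K * (‖x‖ * Real.exp (-‖x‖ ^ 2)) ≤
      ∑ i, 2 * (√(gram x (s i)) * Real.exp (-‖x‖ ^ 2)) := by
  have h1 : ∀ᵐ x : E 3, ∀ i k : Fin n, i ≠ k → inner ℝ (cr (s i) (s k)) x ≠ 0 := by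
    rw [ae_all_iff]; intro i
    rw [ae_all_iff]; intro k
    by_cases hik : i = k
    · exact Filter.Eventually.of_forall fun x h => absurd hik h
    · have := plane_null (cr_ne hn hs hik)
      have h2 : ∀ᵐ x : E 3, x ∉ {x : E 3 | inner ℝ (cr (s i) (s k)) x = 0} :=
        measure_eq_zero_iff_ae_notMem.1 this
      filter_upwards [h2] with x hx _
      exact hx
  filter_upwards [h1] with x hx
  have hx0 : x ≠ 0 := by
    rintro rfl
    obtain ⟨j, hj, -⟩ := exists_third hn ⟨0, by omega⟩ ⟨0, by omega⟩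
    exact hx _ j hj.symm (inner_zero_right _)
  have h' : ‖x‖ ≠ 0 := norm_ne_zero_iff.2 hx0
  have hpos : 0 < ‖x‖ := norm_pos_iff.2 hx0
  have hu : ‖‖x‖⁻¹ • x‖ = 1 := by rw [norm_smul, norm_inv, norm_norm, inv_mul_cancel₀ h']
  have hgen : ∀ i k, i ≠ k → inner ℝ (cr (s i) (s k)) (‖x‖⁻¹ • x) ≠ 0 := by
    intro i k hik
    rw [inner_smul_right]
    exact mul_ne_zero (inv_ne_zero h') (hx i k hik)
  have hm : minPerimeter K ≤ ∑ i, 2 * √(gap (‖x‖⁻¹ • x) (s i)) := by
    refine (minPerimeter_le hu _).trans ?_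
    have hcont : Continuous (pr (‖x‖⁻¹ • x)) := (pr _).continuous
    have hA : IsCompact (shadow (‖x‖⁻¹ • x) K) := hK.image hcont
    have hB : Convex ℝ (shadow (‖x‖⁻¹ • x) K) := hcv.linear_image (pr (‖x‖⁻¹ • x)).toLinearMap
    have hC : IsCompact (shadow (‖x‖⁻¹ • x) (tz v' s)) := (tz_compact v' s).image hcont
    have h1 := frontier_mono 1 hB hA.isClosed hC (image_mono hup)
    rw [shadow_tz, frontier_translate] at h1
    exact ENNReal.toReal_le_of_le_ofReal (Finset.sum_nonneg fun i _ => by positivity)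
      (h1.trans (perim_u hu hgen))
  have h2 := mul_le_mul_of_nonneg_right hm hpos.le
  rw [Finset.sum_mul] at h2
  have h3 : ∀ i, 2 * √(gap (‖x‖⁻¹ • x) (s i)) * ‖x‖ = 2 * √(gram x (s i)) := fun i => by
    rw [mul_assoc, key_gap hx0]
  simp only [h3] at h2
  have h4 := mul_le_mul_of_nonneg_right h2 (Real.exp_pos (-‖x‖ ^ 2)).le
  rw [Finset.sum_mul] at h4
  calc minPerimeter K * (‖x‖ * Real.exp (-‖x‖ ^ 2)) = minPerimeter K * ‖x‖ * Real.exp (-‖x‖ ^ 2) := by
        ring
    _ ≤ _ := h4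
    _ = _ := Finset.sum_congr rfl fun i _ => by ring

theorem mean_bound (hn : 3 ≤ n) (hs : GP s) {K : Set (E 3)} (hK : IsCompact K)
    (hcv : Convex ℝ K) {v' : E 3} (hup : K ⊆ tz v' s) :
    minPerimeter K ≤ Real.pi / 2 * ∑ i, ‖s i‖ := by
  have h1 := integral_mono_ae (A3_int.const_mul (minPerimeter K))
    (integrable_finsetSum _ fun i _ => (gram_int (s i)).const_mul 2) (ae_bound hn hs hK hcv hup)
  rw [integral_const_mul, A3, integral_finsetSum _ fun i _ => (gram_int (s i)).const_mul 2] at h1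
  simp only [integral_const_mul, I_gen] at h1
  have h2 : ∑ i, 2 * (‖s i‖ * (Real.pi ^ 2 / 2)) = Real.pi ^ 2 * ∑ i, ‖s i‖ := by
    rw [Finset.mul_sum]
    exact Finset.sum_congr rfl fun i _ => by ring
  rw [h2] at h1
  have hpi := Real.pi_pos
  have h3 : 2 * Real.pi * minPerimeter K ≤ 2 * Real.pi * (Real.pi / 2 * ∑ i, ‖s i‖) := by
    calc 2 * Real.pi * minPerimeter K = minPerimeter K * (2 * Real.pi) := by ring
      _ ≤ _ := h1
      _ = _ := by ring
  exact le_of_mul_le_mul_left h3 (by positivity)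

/-- the bound with `π` for the zonotope around `K` -/
theorem alg_pi (hn : 3 ≤ n) (hs : GP s) {m : ℝ} (hm0 : 0 ≤ m)
    (hle : ∀ j, m ≤ ∑ i, 2 * √(gap (‖s j‖⁻¹ • s j) (s i))) (hmean : m ≤ Real.pi / 2 * ∑ i, ‖s i‖) :
    m ^ 2 ≤ Real.pi * G s := by
  set L := ∑ i, ‖s i‖ with hL
  have h1 : ∀ j, m * ‖s j‖ ≤ 2 * ∑ i, if j ≠ i then √(gram (s j) (s i)) else 0 := by
    intro j
    have h2 := mul_le_mul_of_nonneg_right (hle j) (norm_nonneg (s j))
    refine h2.trans (le_of_eq ?_)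
    rw [Finset.sum_mul, Finset.mul_sum]
    refine Finset.sum_congr rfl fun i _ => ?_
    rw [mul_assoc, key_gap (gp_ne hn hs j)]
    split_ifs with h
    · rfl
    · push Not at h
      subst h
      have : gram (s j) (s j) = 0 := by rw [gram, real_inner_self_eq_norm_sq]; ring
      rw [this, Real.sqrt_zero]
  have h3 : m * L ≤ 2 * G s := by
    rw [hL, Finset.mul_sum, G, Finset.mul_sum]
    exact Finset.sum_le_sum fun j _ => h1 j
  have hpi := Real.pi_pos
  calc m ^ 2 = m * m := by ring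
    _ ≤ (Real.pi / 2 * L) * m := mul_le_mul_of_nonneg_right hmean hm0
    _ = Real.pi / 2 * (m * L) := by ring
    _ ≤ Real.pi / 2 * (2 * G s) := mul_le_mul_of_nonneg_left h3 (by positivity)
    _ = _ := by ring

end Pool.Agent.Helper758_ST
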