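import Pool.Agent.Helper758_ST.Y2

set_option autoImplicit false

open MeasureTheory Set Module Filter
open scoped ENNReal Topology

namespace Pool.Agent.Helper758_ST

section

variable {n : ℕ} {s : Fin n → E 3}

/-- a convex body between two homothetic zonotopes -/
theorem sandwich_pi (hn : 3 ≤ n) (hs : GP s) {c : ℝ} (hc : 0 < c) {K : Set (E 3)} (hK : IsCompact K)
    (hcv : Convex ℝ K) {v v' : E 3} (hlow : tz v s ⊆ K) (hup : K ⊆ tz v' fun i => c • s i) :
    minPerimeter K ^ 2 ≤ Real.pi * (c ^ 2 * surfaceArea K) ∧ 0 < surfaceArea K := by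
  have hs' := GP_smul hs hc.ne'
  set s' : Fin n → E 3 := fun i => c • s i with hs'def
  -- the surface area
  have hfin : μHE[2] (frontier K) ≠ ⊤ := by
    refine ne_top_of_le_ne_top (frontier_finite hn hs') ?_
    rw [← frontier_translate 2 v' (zono s')]
    exact frontier_mono 2 hcv hK.isClosed (tz_compact v' s') hup
  have hG : G s ≤ surfaceArea K := by
    have h1 := surface_ge hn hs
    rw [← frontier_translate 2 v (zono s)] at h1
    have h2 := frontier_mono 2 (tz_convex v s) (tz_compact v s).isClosed hK hlow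
    exact (ENNReal.ofReal_le_iff_le_toReal hfin).1 (h1.trans h2)
  refine ⟨?_, (G_pos hn hs).trans_le hG⟩
  have hle : ∀ j, minPerimeter K ≤ ∑ i, 2 * √(gap (‖s' j‖⁻¹ • s' j) (s' i)) := by
    intro j
    have h' : ‖s' j‖ ≠ 0 := norm_ne_zero_iff.2 (gp_ne hn hs' j)
    have hu : ‖‖s' j‖⁻¹ • s' j‖ = 1 := by rw [norm_smul, norm_inv, norm_norm, inv_mul_cancel₀ h']
    refine (minPerimeter_le hu _).trans ?_
    have hcont : Continuous (pr (‖s' j‖⁻¹ • s' j)) := (pr _).continuous
    have hA : IsCompact (shadow (‖s' j‖⁻¹ • s' j) K) := hK.image hcont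
    have hB : Convex ℝ (shadow (‖s' j‖⁻¹ • s' j) K) :=
      hcv.linear_image (pr (‖s' j‖⁻¹ • s' j)).toLinearMap
    have hC : IsCompact (shadow (‖s' j‖⁻¹ • s' j) (tz v' s')) := (tz_compact v' s').image hcont
    have h1 := frontier_mono 1 hB hA.isClosed hC (image_mono hup)
    rw [shadow_tz, frontier_translate] at h1
    exact ENNReal.toReal_le_of_le_ofReal (Finset.sum_nonneg fun i _ => by positivity)
      (h1.trans (perim_gen' hn hs' j))
  have hmain := alg_pi hn hs' (minPerimeter_nonneg K) hle (mean_bound hn hs' hK hcv hup)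
  rw [hs'def, G_smul s hc] at hmain
  exact hmain.trans (mul_le_mul_of_nonneg_left (mul_le_mul_of_nonneg_left hG (by positivity))
    Real.pi_pos.le)

end

theorem approx_pi {K : Set (E 3)} (hK : IsCompact K) (hcv : Convex ℝ K)
    (hint : (interior K).Nonempty)
    (happ : ∀ ε : ℝ, 0 < ε → ∃ (n : ℕ) (v : E 3) (s : Fin n → E 3), 3 ≤ n ∧ GP s ∧
      Near ε K (tz v s) ∧ Near ε (tz v s) K) :
    minPerimeter K ^ 2 ≤ Real.pi * surfaceArea K ∧ 0 < surfaceArea K := by
  obtain ⟨a, ha⟩ := hint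
  obtain ⟨r, hr, hball⟩ := Metric.nhds_basis_closedBall.mem_iff.1 (mem_interior_iff_mem_nhds.1 ha)
  have step : ∀ ε : ℝ, 0 < ε → ε < r / 2 →
      minPerimeter K ^ 2 ≤ Real.pi * (((1 + ε / (r / 2)) * (1 + ε / r)) ^ 2 * surfaceArea K) ∧
        0 < surfaceArea K := by
    intro ε hε hεr
    obtain ⟨n, v, s, hn, hs, h1, h2⟩ := happ ε hε
    have hp1 : 0 < 1 + ε / r := by positivity
    have hp2 : 0 < 1 + ε / (r / 2) := by positivity
    set q := (1 + ε / r)⁻¹ with hq
    have hq0 : 0 < q := inv_pos.2 hp1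
    have hs' := GP_smul hs hq0.ne'
    have hlow : tz (a + q • (v - a)) (fun i => q • s i) ⊆ K := by
      rintro _ ⟨_, ⟨t, ht, rfl⟩, rfl⟩
      have hz : v + ∑ i, t i • s i ∈ tz v s := ⟨_, ⟨t, ht, rfl⟩, rfl⟩
      have := hom hcv hr hε hball h2 hz
      convert this using 1
      have e : ∑ i, t i • q • s i = q • ∑ i, t i • s i := by
        rw [Finset.smul_sum]
        exact Finset.sum_congr rfl fun i _ => smul_comm _ _ _
      simp only
      rw [e, ← hq]
      module
    have hb2 := ball_sub (tz_convex v s) (tz_compact v s) hr hεr hball h1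
    set q' := (1 + ε / (r / 2))⁻¹ with hq'
    have hq'0 : 0 < q' := inv_pos.2 hp2
    have hup : K ⊆ tz (a + q'⁻¹ • (v - a)) fun i => (q'⁻¹ * q⁻¹) • (q • s i) := by
      intro x hx
      obtain ⟨_, ⟨t, ht, rfl⟩, hx2⟩ := hom (tz_convex v s) (by positivity) hε hb2 h1 hx
      rw [← hq'] at hx2
      have hx2' : v + ∑ i, t i • s i = a + q' • (x - a) := hx2
      refine ⟨_, ⟨t, ht, rfl⟩, ?_⟩
      have e : ∑ i, t i • (q'⁻¹ * q⁻¹) • q • s i = q'⁻¹ • ∑ i, t i • s i := by
        rw [Finset.smul_sum]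
        refine Finset.sum_congr rfl fun i _ => ?_
        rw [smul_smul, smul_smul, smul_smul]
        congr 1
        field_simp
      simp only
      rw [e]
      have e2 : ∑ i, t i • s i = a + q' • (x - a) - v := by rw [← hx2']; abel
      rw [e2]
      have e3 : q'⁻¹ • (a + q' • (x - a) - v) = q'⁻¹ • (a - v) + (x - a) := by
        have : q'⁻¹ • q' • (x - a) = x - a := by rw [smul_smul, inv_mul_cancel₀ hq'0.ne', one_smul]
        rw [show a + q' • (x - a) - v = (a - v) + q' • (x - a) by abel, smul_add, this]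
      rw [e3]
      module
    obtain ⟨hA, hB⟩ := sandwich_pi hn hs' (c := q'⁻¹ * q⁻¹) (by positivity) hK hcv hlow hup
    refine ⟨?_, hB⟩
    rw [hq, hq', inv_inv, inv_inv] at hA
    exact hA
  have hS := (step (r / 4) (by positivity) (by linarith)).2
  refine ⟨?_, hS⟩
  have hlim : Tendsto (fun ε : ℝ => Real.pi * (((1 + ε / (r / 2)) * (1 + ε / r)) ^ 2 * surfaceArea K))
      (𝓝[>] 0) (𝓝 (Real.pi * surfaceArea K)) := by
    have hc : Continuous fun ε : ℝ => Real.pi * (((1 + ε / (r / 2)) * (1 + ε / r)) ^ 2 * surfaceArea K) := by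
      fun_prop
    have := (hc.tendsto 0).mono_left (nhdsWithin_le_nhds (s := Ioi 0))
    simpa using this
  refine ge_of_tendsto hlim ?_
  have h1 : ∀ᶠ ε : ℝ in 𝓝[>] 0, ε < r / 2 :=
    nhdsWithin_le_nhds (Iio_mem_nhds (by positivity))
  filter_upwards [h1, self_mem_nhdsWithin] with ε hε1 hε2
  exact (step ε hε2 hε1).1

/-- the bound for limits of zonotopes -/
theorem zonoid_pi {K : Set (E 3)} (hK : IsCompact K) (hcv : Convex ℝ K)
    (hint : (interior K).Nonempty)
    (happ : ∀ ε : ℝ, 0 < ε → ∃ (n : ℕ) (v : E 3) (s : Fin n → E 3),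
      Metric.hausdorffDist K (tz v s) < ε) :
    minPerimeter K ^ 2 ≤ Real.pi * surfaceArea K ∧ 0 < surfaceArea K := by
  refine approx_pi hK hcv hint fun ε hε => ?_
  obtain ⟨n, v, s, hd⟩ := happ (ε / 2) (by positivity)
  have hKne : K.Nonempty := hint.mono interior_subset
  have hpad : tz v (Fin.append s (fun _ : Fin 3 => (0 : E 3))) = tz v s := by
    rw [tz, tz, pad_zono]
  have hZne : (tz v s).Nonempty := ⟨_, ⟨0, zero_mem_zono s, rfl⟩⟩
  have hfin : Metric.hausdorffEDist K (tz v s) ≠ ⊤ :=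
    Metric.hausdorffEDist_ne_top_of_nonempty_of_bounded hKne hZne hK.isBounded
      (tz_compact v s).isBounded
  obtain ⟨s', hs', h1, h2⟩ := exists_close v (Fin.append s (fun _ : Fin 3 => (0 : E 3)))
    (ε := ε / 2) (by positivity)
  rw [hpad] at h1 h2
  have k1 : Near (ε / 2) K (tz v s) := by
    intro x hx
    obtain ⟨y, hy, hxy⟩ := Metric.exists_dist_lt_of_hausdorffDist_lt hx hd hfin
    exact ⟨y, hy, by rw [← dist_eq_norm]; exact hxy.le⟩
  have k2 : Near (ε / 2) (tz v s) K := by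
    intro y hy
    obtain ⟨x, hx, hxy⟩ := Metric.exists_dist_lt_of_hausdorffDist_lt' hy hd hfin
    exact ⟨x, hx, by rw [← dist_eq_norm, dist_comm]; exact hxy.le⟩
  refine ⟨n + 3, v, s', by omega, hs', ?_, ?_⟩
  · have := k1.trans h1
    rwa [add_halves] at this
  · have := h2.trans k2
    rwa [add_halves] at this

theorem pi_lt : Real.pi < 2 + 4 / √3 := Real.pi_lt_four.trans four_lt

end Pool.Agent.Helper758_ST
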