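import Pool.Agent.Helper758_ST.A3

set_option autoImplicit false

open MeasureTheory Set Module Filter
open scoped ENNReal Topology

namespace Pool.Agent.Helper758_ST

section zono

variable {V : Type*} [NormedAddCommGroup V] [InnerProductSpace ℝ V]
variable {ι : Type*} [Fintype ι]

/-- the zonotope generated by the vectors `s i` -/
def zono (s : ι → V) : Set V := {x | ∃ t : ι → ℝ, (∀ i, 0 ≤ t i ∧ t i ≤ 1) ∧ x = ∑ i, t i • s i}

theorem zono_compact (s : ι → V) : IsCompact (zono s) := by
  have h : zono s = (fun t : ι → ℝ => ∑ i, t i • s i) '' (Set.univ.pi fun _ => Icc (0 : ℝ) 1) := by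
    ext x
    constructor
    · rintro ⟨t, ht, rfl⟩
      exact ⟨t, fun i _ => ht i, rfl⟩
    · rintro ⟨t, ht, rfl⟩
      exact ⟨t, fun i => ht i (mem_univ i), rfl⟩
  rw [h]
  refine (isCompact_univ_pi fun _ => isCompact_Icc).image ?_
  fun_prop

theorem zono_convex (s : ι → V) : Convex ℝ (zono s) := by
  rintro x ⟨t, ht, rfl⟩ y ⟨r, hr, rfl⟩ a b ha hb hab
  refine ⟨fun i => a * t i + b * r i, fun i => ⟨?_, ?_⟩, ?_⟩
  · have := (ht i).1; have := (hr i).1; positivity
  · have h1 := mul_le_mul_of_nonneg_left (ht i).2 ha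
    have h2 := mul_le_mul_of_nonneg_left (hr i).2 hb
    linarith
  · simp only [Finset.smul_sum, add_smul, mul_smul, Finset.sum_add_distrib]

theorem zero_mem_zono (s : ι → V) : (0 : V) ∈ zono s := ⟨0, fun i => by simp, by simp⟩

/-- a point of the boundary of a closed convex set with `0` has a supporting hyperplane -/
theorem exists_support [FiniteDimensional ℝ V] {K : Set V} (hc : Convex ℝ K) (hcl : IsClosed K)
    (h0 : (0 : V) ∈ K) {x : V} (hx : x ∈ frontier K) :
    x ∈ K ∧ ∃ θ : V, θ ≠ 0 ∧ ∀ z ∈ K, inner ℝ θ z ≤ inner ℝ θ x := by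
  rw [frontier, hcl.closure_eq] at hx
  refine ⟨hx.1, ?_⟩
  by_cases hne : (interior K).Nonempty
  · obtain ⟨f, hf⟩ := geometric_hahn_banach_open_point hc.interior isOpen_interior hx.2
    refine ⟨(InnerProductSpace.toDual ℝ V).symm f, ?_, ?_⟩
    · intro h
      have : f = 0 := by simpa using h
      obtain ⟨y, hy⟩ := hne
      have := hf y hy
      simp_all
    · intro z hz
      rw [InnerProductSpace.toDual_symm_apply, InnerProductSpace.toDual_symm_apply]
      have hz' : z ∈ closure (interior K) := by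
        rw [hc.closure_interior_eq_closure_of_nonempty_interior hne]
        exact subset_closure hz
      have hsub : closure (interior K) ⊆ {z | f z ≤ f x} :=
        closure_minimal (fun y hy => (hf y hy).le) (isClosed_le f.continuous continuous_const)
      exact hsub hz'
  · rw [hc.interior_nonempty_iff_affineSpan_eq_top] at hne
    have hW : Submodule.span ℝ K ≠ ⊤ := by
      intro h
      apply hne
      have h1 : (0 : V) ∈ affineSpan ℝ K := subset_affineSpan ℝ K h0
      have h2 : (affineSpan ℝ K).direction = ⊤ := by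
        rw [eq_top_iff, ← h]
        refine Submodule.span_le.2 fun z hz => ?_
        have := AffineSubspace.vsub_mem_direction (subset_affineSpan ℝ K hz) h1
        simpa using this
      exact (AffineSubspace.direction_eq_top_iff_of_nonempty ⟨0, h1⟩).1 h2
    have hW' : (Submodule.span ℝ K)ᗮ ≠ ⊥ := by
      intro h; exact hW ((Submodule.orthogonal_eq_bot_iff).1 h)
    obtain ⟨θ, hθ, hθ0⟩ := Submodule.exists_mem_ne_zero_of_ne_bot hW'
    have hz0 : ∀ z ∈ K, inner ℝ θ z = 0 := fun z hz =>
      Submodule.inner_left_of_mem_orthogonal (Submodule.subset_span hz) hθ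
    exact ⟨θ, hθ0, fun z hz => by rw [hz0 z hz, hz0 x hx.1]⟩

/-- conversely a maximum point of a nonzero functional lies in the boundary -/
theorem mem_frontier_of_max {K : Set V} {x θ : V} (hθ : θ ≠ 0) (hx : x ∈ K)
    (h : ∀ z ∈ K, inner ℝ θ z ≤ inner ℝ θ x) : x ∈ frontier K := by
  refine ⟨subset_closure hx, fun hint => ?_⟩
  have hn : K ∈ 𝓝 x := mem_interior_iff_mem_nhds.1 hint
  have hc : Tendsto (fun t : ℝ => x + t • θ) (𝓝[>] 0) (𝓝 x) := by
    have : Tendsto (fun t : ℝ => x + t • θ) (𝓝 0) (𝓝 (x + (0 : ℝ) • θ)) :=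
      (Continuous.tendsto (by fun_prop) 0)
    rw [zero_smul, add_zero] at this
    exact this.mono_left nhdsWithin_le_nhds
  have hev := (hc.eventually hn).and self_mem_nhdsWithin
  obtain ⟨t, ht1, ht2⟩ := hev.exists
  have := h _ ht1
  rw [inner_add_right, inner_smul_right, real_inner_self_eq_norm_sq] at this
  have ht0 : 0 < t := ht2
  have h3 : 0 < ‖θ‖ := norm_pos_iff.2 hθ
  have : 0 < t * ‖θ‖ ^ 2 := by positivity
  linarith

/-- the coefficients of a maximum point -/
theorem coeff_of_max [DecidableEq ι] (s : ι → V) (θ : V) {t : ι → ℝ}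
    (ht : ∀ i, 0 ≤ t i ∧ t i ≤ 1)
    (h : ∀ z ∈ zono s, inner ℝ θ z ≤ inner ℝ θ (∑ i, t i • s i)) (i : ι) :
    (0 < inner ℝ θ (s i) → t i = 1) ∧ (inner ℝ θ (s i) < 0 → t i = 0) := by
  have key : ∀ c : ℝ, 0 ≤ c → c ≤ 1 → (c - t i) * inner ℝ θ (s i) ≤ 0 := by
    intro c hc0 hc1
    have hmem : (∑ j, t j • s j) + (c - t i) • s i ∈ zono s := by
      refine ⟨fun j => t j + if j = i then c - t i else 0, fun j => ?_, ?_⟩
      · by_cases hji : j = i
        · rw [hji]; simp only [if_true]; constructor <;> linarith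
        · simp only [if_neg hji, add_zero]; exact ht j
      · simp only [add_smul, Finset.sum_add_distrib, ite_smul, zero_smul, Finset.sum_ite_eq',
          Finset.mem_univ, if_true]
    have := h _ hmem
    rw [inner_add_right, inner_smul_right] at this
    linarith
  constructor
  · intro hp
    have h1 := key 1 (by norm_num) le_rfl
    by_contra hne
    have : 0 < 1 - t i := by
      rcases (ht i).2.lt_or_eq with h | h
      · linarith
      · exact absurd h hne
    nlinarith [mul_pos this hp]
  · intro hp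
    have h1 := key 0 le_rfl (by norm_num)
    by_contra hne
    have : 0 < t i := lt_of_le_of_ne (ht i).1 (Ne.symm hne)
    nlinarith [mul_pos this (neg_pos.2 hp)]

end zono

end Pool.Agent.Helper758_ST
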