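import Pool.Agent.Helper758_ST.Z1

set_option autoImplicit false

open MeasureTheory Set Module Filter
open scoped ENNReal Topology

namespace Pool.Agent.Helper758_ST

section plane

variable {V : Type*} [NormedAddCommGroup V] [InnerProductSpace ℝ V] [FiniteDimensional ℝ V]
variable {ι : Type*} [Fintype ι]

/-- the part of the sum of the generators on which a functional is positive -/
noncomputable def psum (s : ι → V) (θ : V) : V := by
  classical exact ∑ k, if 0 < inner ℝ θ (s k) then s k else 0

/-- an edge of a planar zonotope with outer normal `θ` -/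
noncomputable def edge (s : ι → V) (θ : V) (i : ι) : Set V := segment ℝ (psum s θ) (psum s θ + s i)

theorem exists_normal (hn : finrank ℝ V = 2) {w : V} (hw : w ≠ 0) :
    ∃ ν : V, ν ≠ 0 ∧ inner ℝ ν w = 0 ∧
      ∀ θ : V, inner ℝ θ w = 0 → ∃ c : ℝ, θ = c • ν := by
  have : Fact (finrank ℝ V = 1 + 1) := ⟨hn⟩
  have h1 : finrank ℝ ↥(ℝ ∙ w)ᗮ = 1 := Submodule.finrank_orthogonal_span_singleton hw
  obtain ⟨v, hv0, hv⟩ := finrank_eq_one_iff'.1 h1
  refine ⟨v, fun h => hv0 (by simpa using h), ?_, ?_⟩
  · exact Submodule.mem_orthogonal_singleton_iff_inner_left.1 v.2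
  · intro θ hθ
    obtain ⟨c, hc⟩ := hv ⟨θ, Submodule.mem_orthogonal_singleton_iff_inner_left.2 hθ⟩
    exact ⟨c, by rw [← Submodule.coe_smul, hc]⟩

theorem psum_smul (s : ι → V) (ν : V) {c : ℝ} (hc : 0 < c) : psum s (c • ν) = psum s ν := by
  unfold psum
  refine Finset.sum_congr rfl fun k _ => ?_
  have : (0 < inner ℝ (c • ν) (s k)) ↔ 0 < inner ℝ ν (s k) := by
    rw [inner_smul_left]; simp [hc]
  simp only [this]

/-- covering of the boundary of a planar zonotope -/
theorem frontier_cover (hn : finrank ℝ V = 2) (s : ι → V)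
    (hs : ∀ θ : V, θ ≠ 0 → ∀ i k, s i ≠ 0 → s k ≠ 0 → inner ℝ θ (s i) = 0 → inner ℝ θ (s k) = 0 →
      i = k) :
    ∃ N : ι → V, frontier (zono s) ⊆ (⋃ P : Finset ι, {∑ k ∈ P, s k}) ∪
      ⋃ i, (edge s (N i) i ∪ edge s (-(N i)) i) := by
  classical
  have hN : ∀ i, ∃ ν : V, s i ≠ 0 → (ν ≠ 0 ∧ inner ℝ ν (s i) = 0 ∧
      ∀ θ : V, inner ℝ θ (s i) = 0 → ∃ c : ℝ, θ = c • ν) := by
    intro i
    by_cases h : s i = 0
    · exact ⟨0, fun h' => absurd h h'⟩
    · obtain ⟨ν, hν⟩ := exists_normal hn h
      exact ⟨ν, fun _ => hν⟩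
  choose N hN using hN
  refine ⟨N, fun x hx => ?_⟩
  obtain ⟨hxK, θ, hθ, hmax⟩ := exists_support (zono_convex s) (zono_compact s).isClosed
    (zero_mem_zono s) hx
  obtain ⟨t, ht, rfl⟩ := hxK
  have hco := fun i => coeff_of_max s θ ht hmax i
  by_cases hex : ∃ i, s i ≠ 0 ∧ inner ℝ θ (s i) = 0
  · right
    obtain ⟨i, hi0, hi⟩ := hex
    obtain ⟨hν0, hν, hu⟩ := hN i hi0
    obtain ⟨c, hc⟩ := hu θ hi
    have hsum : ∑ k, t k • s k = psum s θ + t i • s i := by
      have : t i • s i = ∑ k, if k = i then t i • s i else 0 := by simp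
      rw [this, psum, ← Finset.sum_add_distrib]
      refine Finset.sum_congr rfl fun k _ => ?_
      by_cases hk : k = i
      · subst hk
        simp [hi]
      · rw [if_neg hk, add_zero]
        by_cases hk0 : s k = 0
        · simp [hk0]
        · rcases lt_trichotomy (inner ℝ θ (s k)) 0 with h | h | h
          · rw [(hco k).2 h, if_neg (by linarith), zero_smul]
          · exact absurd (hs θ hθ k i hk0 hi0 h hi) hk
          · rw [(hco k).1 h, if_pos h, one_smul]
    have hmem : ∑ k, t k • s k ∈ edge s θ i := by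
      rw [hsum, edge, segment_eq_image']
      exact ⟨t i, ht i, by simp⟩
    refine mem_iUnion.2 ⟨i, ?_⟩
    rcases lt_trichotomy c 0 with h | h | h
    · right
      have : θ = (-c) • (-(N i)) := by rw [hc]; simp
      have e : edge s θ i = edge s (-(N i)) i := by
        rw [edge, edge, this, psum_smul s _ (neg_pos.2 h)]
      rw [← e]; exact hmem
    · exfalso; apply hθ; rw [hc, h, zero_smul]
    · left
      have e : edge s θ i = edge s (N i) i := by
        rw [edge, edge, hc, psum_smul s _ h]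
      rw [← e]; exact hmem
  · left
    push Not at hex
    refine mem_iUnion.2 ⟨Finset.univ.filter fun k => 0 < inner ℝ θ (s k), ?_⟩
    rw [mem_singleton_iff, Finset.sum_filter]
    refine Finset.sum_congr rfl fun k _ => ?_
    by_cases hk0 : s k = 0
    · simp [hk0]
    · rcases lt_trichotomy (inner ℝ θ (s k)) 0 with h | h | h
      · rw [(hco k).2 h, if_neg (by linarith), zero_smul]
      · exact absurd h (hex k hk0)
      · rw [(hco k).1 h, if_pos h, one_smul]

/-- the perimeter of a planar zonotope is at most twice the sum of the lengths of its generators -/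
theorem perim_le [MeasurableSpace V] [BorelSpace V] (hn : finrank ℝ V = 2) (s : ι → V)
    (hs : ∀ θ : V, θ ≠ 0 → ∀ i k, s i ≠ 0 → s k ≠ 0 → inner ℝ θ (s i) = 0 → inner ℝ θ (s k) = 0 →
      i = k) :
    μHE[1] (frontier (zono s)) ≤ ENNReal.ofReal (∑ i, 2 * ‖s i‖) := by
  obtain ⟨N, hN⟩ := frontier_cover hn s hs
  have hfin : μHE[1] (⋃ P : Finset ι, {∑ k ∈ P, s k}) = 0 := by
    rw [measure_iUnion_null_iff]
    intro P
    exact null_subsingleton subsingleton_singleton
  refine (measure_mono hN).trans ((measure_union_le _ _).trans ?_)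
  rw [hfin, zero_add, ENNReal.ofReal_sum_of_nonneg (fun i _ => by positivity)]
  refine (measure_iUnion_fintype_le _ _).trans (Finset.sum_le_sum fun i _ => ?_)
  refine (measure_union_le _ _).trans ?_
  rw [edge, edge, length_segment, length_segment, add_sub_cancel_left, add_sub_cancel_left,
    ← ENNReal.ofReal_add (norm_nonneg _) (norm_nonneg _)]
  apply le_of_eq
  congr 1
  ring

end plane

end Pool.Agent.Helper758_ST
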