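import Pool.Agent.Helper758_ST.Z1

set_option autoImplicit false

open MeasureTheory Set Module Filter
open scoped ENNReal Topology

namespace Pool.Agent.Helper758_ST

/-- the linear map `(a, b) ↦ a u + b v` -/
noncomputable def lin2 (u v : E 3) : E 2 →ₗ[ℝ] E 3 :=
  { toFun := fun y => y 0 • u + y 1 • v
    map_add' := by
      intro x y
      simp only [PiLp.add_apply, add_smul]
      abel
    map_smul' := by
      intro c x
      simp only [PiLp.smul_apply, smul_eq_mul, RingHom.id_apply, smul_add, smul_smul] }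

theorem lin2_apply (u v : E 3) (y : E 2) : lin2 u v y = y 0 • u + y 1 • v := rfl

open Pool.Agent.Results.MP_6df474_gt.TetrahedronDisproof (nd2) in
theorem normDet_lin2 (u v : E 3) : (lin2 u v).normDet = √(gram u v) := by
  have h3 := nd2 u v (lin2 u v) (by simp [lin2_apply]) (by simp [lin2_apply])
  have h4 : (lin2 u v).normDet ^ 2 = (√(gram u v)) ^ 2 := by
    rw [Real.sq_sqrt (gram_nonneg u v), h3, gram]
  exact (pow_left_inj₀ (lin2 u v).normDet_nonneg (Real.sqrt_nonneg _) two_ne_zero).1 h4

/-- area of a planar piece -/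
theorem area_piece (p u v : E 3) (A : Set (E 2)) :
    μHE[2] ((fun y : E 2 => p + (y 0 • u + y 1 • v)) '' A) = ENNReal.ofReal √(gram u v) * volume A := by
  have h1 : (fun y : E 2 => p + (y 0 • u + y 1 • v)) '' A =
      (fun x : E 3 => p + x) '' (lin2 u v '' A) := by
    rw [image_image]; rfl
  rw [h1, (isometry_add_left p).euclideanHausdorffMeasure_image]
  have h2 := (lin2 u v).euclideanHausdorffMeasure_image_eq_normDet_mul_volume A
  rw [finrank_euclideanSpace_fin] at h2
  rw [h2, normDet_lin2]

/-- the unit square -/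
def sq : Set (E 2) := {y | (0 ≤ y 0 ∧ y 0 ≤ 1) ∧ 0 ≤ y 1 ∧ y 1 ≤ 1}

theorem sq_vol : volume sq = 1 := by
  have hmp : MeasurePreserving (fun y : E 2 => ((y 0, y 1) : ℝ × ℝ)) := by
    have a := (EuclideanSpace.volume_preserving_symm_measurableEquiv_toLp (Fin 2))
    have b := MeasureTheory.volume_preserving_finTwoArrow ℝ
    exact b.comp a
  have h1 : sq = (fun y : E 2 => ((y 0, y 1) : ℝ × ℝ)) ⁻¹' (Icc (0 : ℝ) 1 ×ˢ Icc (0 : ℝ) 1) := by
    ext y; simp [sq]; tauto
  rw [h1, hmp.measure_preimage (measurableSet_Icc.prod measurableSet_Icc).nullMeasurableSet,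
    Measure.volume_eq_prod, Measure.prod_prod, Real.volume_Icc]
  simp

/-- the parallelogram at `p` spanned by `u`, `v` -/
def para (p u v : E 3) : Set (E 3) := (fun y : E 2 => p + (y 0 • u + y 1 • v)) '' sq

theorem area_para (p u v : E 3) : μHE[2] (para p u v) = ENNReal.ofReal √(gram u v) := by
  rw [para, area_piece, sq_vol, mul_one]

theorem sq_compact : IsCompact sq := by
  have hcl : IsClosed sq := by
    have h : ∀ i : Fin 2, Continuous fun y : E 2 => y i := fun i => by fun_prop
    exact ((isClosed_le continuous_const (h 0)).inter (isClosed_le (h 0) continuous_const)).inter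
      ((isClosed_le continuous_const (h 1)).inter (isClosed_le (h 1) continuous_const))
  refine Metric.isCompact_of_isClosed_isBounded hcl ?_
  refine (Metric.isBounded_iff_subset_closedBall (0 : E 2)).2 ⟨2, fun y hy => ?_⟩
  rw [mem_closedBall_zero_iff, EuclideanSpace.norm_eq]
  obtain ⟨⟨h0, h1⟩, h2, h3⟩ := hy
  refine Real.sqrt_le_iff.2 ⟨by norm_num, ?_⟩
  simp only [Fin.sum_univ_two, Real.norm_eq_abs, sq_abs]
  nlinarith

theorem para_closed (p u v : E 3) : IsClosed (para p u v) := by
  refine (sq_compact.image ?_).isClosed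
  fun_prop

/-- a line in the plane is null -/
theorem line_null (α β γ : ℝ) (h : α ≠ 0 ∨ β ≠ 0) :
    volume {y : E 2 | y 0 * α + y 1 * β = γ} = 0 := by
  set L : E 2 →ₗ[ℝ] ℝ :=
    { toFun := fun y => y 0 * α + y 1 * β
      map_add' := by intro x y; simp only [PiLp.add_apply]; ring
      map_smul' := by intro c x; simp only [PiLp.smul_apply, smul_eq_mul, RingHom.id_apply]; ring }
    with hL
  have hne : LinearMap.ker L ≠ ⊤ := by
    intro hk
    rcases h with h | h
    · have : EuclideanSpace.single (0 : Fin 2) (1 : ℝ) ∈ LinearMap.ker L := by rw [hk]; trivial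
      rw [LinearMap.mem_ker] at this
      simp [hL] at this
      exact h this
    · have : EuclideanSpace.single (1 : Fin 2) (1 : ℝ) ∈ LinearMap.ker L := by rw [hk]; trivial
      rw [LinearMap.mem_ker] at this
      simp [hL] at this
      exact h this
  have h0 := Measure.addHaar_submodule (volume : Measure (E 2)) (LinearMap.ker L) hne
  rcases Set.eq_empty_or_nonempty {y : E 2 | y 0 * α + y 1 * β = γ} with he | ⟨y0, hy0⟩
  · rw [he]; simp
  · have hsub : {y : E 2 | y 0 * α + y 1 * β = γ} ⊆ (fun y => -y0 + y) ⁻¹' (LinearMap.ker L : Set (E 2)) := by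
      intro y hy
      rw [mem_preimage, SetLike.mem_coe, LinearMap.mem_ker, map_add, map_neg]
      have e1 : L y = γ := hy
      have e2 : L y0 = γ := hy0
      rw [e1, e2]; ring
    refine measure_mono_null hsub ?_
    rw [measure_preimage_add]
    exact h0

/-- the part of a parallelogram in a transversal plane is null -/
theorem para_null (p u v ν : E 3) (M : ℝ) (h : inner ℝ ν u ≠ 0 ∨ inner ℝ ν v ≠ 0) :
    μHE[2] (para p u v ∩ {x | inner ℝ ν x = M}) = 0 := by
  have hsub : para p u v ∩ {x | inner ℝ ν x = M} ⊆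
      (fun y : E 2 => p + (y 0 • u + y 1 • v)) ''
        {y : E 2 | y 0 * inner ℝ ν u + y 1 * inner ℝ ν v = M - inner ℝ ν p} := by
    rintro x ⟨⟨y, hy, rfl⟩, hx⟩
    refine ⟨y, ?_, rfl⟩
    have hx' : inner ℝ ν (p + (y 0 • u + y 1 • v)) = M := hx
    rw [inner_add_right, inner_add_right, inner_smul_right, inner_smul_right] at hx'
    show y 0 * inner ℝ ν u + y 1 * inner ℝ ν v = M - inner ℝ ν p
    linarith
  refine measure_mono_null hsub ?_
  rw [area_piece, line_null _ _ _ h, mul_zero]

end Pool.Agent.Helper758_ST
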