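import Pool.Agent.Helper758_ST.Z3

set_option autoImplicit false

open MeasureTheory Set Module Filter
open scoped ENNReal Topology

namespace Pool.Agent.Helper758_ST

/-- the cross product -/
noncomputable def cr (x y : E 3) : E 3 :=
  WithLp.toLp 2 ![x 1 * y 2 - x 2 * y 1, x 2 * y 0 - x 0 * y 2, x 0 * y 1 - x 1 * y 0]

theorem inner_cr (x y z : E 3) : inner ℝ (cr x y) z = (x 1 * y 2 - x 2 * y 1) * z 0 +
    (x 2 * y 0 - x 0 * y 2) * z 1 + (x 0 * y 1 - x 1 * y 0) * z 2 := by
  rw [PiLp.inner_apply, Fin.sum_univ_three]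
  simp [cr]
  ring

theorem inner_cr_left (x y : E 3) : inner ℝ (cr x y) x = 0 := by rw [inner_cr]; ring

theorem inner_cr_right (x y : E 3) : inner ℝ (cr x y) y = 0 := by rw [inner_cr]; ring

theorem cr_swap (x y z : E 3) : inner ℝ (cr y x) z = -inner ℝ (cr x y) z := by
  rw [inner_cr, inner_cr]; ring

theorem inner_cr_ne {x y z : E 3} (h : LinearIndependent ℝ ![x, y, z]) : inner ℝ (cr x y) z ≠ 0 := by
  have h1 := h.map' (WithLp.linearEquiv 2 ℝ (Fin 3 → ℝ)).toLinearMap (LinearEquiv.ker _)
  set A : Matrix (Fin 3) (Fin 3) ℝ := Matrix.of fun i => (![x, y, z] i : E 3).ofLp with hA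
  have h2 : LinearIndependent ℝ A.row := h1
  rw [Matrix.linearIndependent_rows_iff_isUnit, Matrix.isUnit_iff_isUnit_det] at h2
  have h3 := h2.ne_zero
  rw [Matrix.det_fin_three] at h3
  rw [inner_cr]
  intro h0
  apply h3
  simp [hA]
  linarith

variable {n : ℕ}

/-- any three of the generators are linearly independent -/
def GP (s : Fin n → E 3) : Prop :=
  ∀ i j k, i ≠ j → i ≠ k → j ≠ k → LinearIndependent ℝ ![s i, s j, s k]

/-- the vertex of the face with outer normal `θ` -/
noncomputable def top (s : Fin n → E 3) (θ : E 3) : E 3 :=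
  ∑ k, if 0 < inner ℝ θ (s k) then s k else 0

/-- the face spanned by `s i` and `s j`, with outer normal `s i × s j` -/
noncomputable def fc2 (s : Fin n → E 3) (i j : Fin n) : Set (E 3) :=
  para (top s (cr (s i) (s j))) (s i) (s j)

theorem inner_le_top (s : Fin n → E 3) (θ : E 3) {z : E 3} (hz : z ∈ zono s) :
    inner ℝ θ z ≤ inner ℝ θ (top s θ) := by
  obtain ⟨t, ht, rfl⟩ := hz
  rw [top, inner_sum, inner_sum]
  refine Finset.sum_le_sum fun k _ => ?_
  rw [inner_smul_right]
  split_ifs with h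
  · have := (ht k).2
    nlinarith
  · rw [inner_zero_right]
    have := (ht k).1
    push Not at h
    nlinarith

theorem fc2_sub (s : Fin n → E 3) {i j : Fin n} (hij : i ≠ j) : fc2 s i j ⊆ zono s := by
  rintro _ ⟨y, ⟨h0, h1⟩, rfl⟩
  refine ⟨fun k => (if 0 < inner ℝ (cr (s i) (s j)) (s k) then 1 else 0) + (if k = i then y 0 else 0)
    + (if k = j then y 1 else 0), fun k => ?_, ?_⟩
  · beta_reduce
    by_cases hki : k = i
    · have hkj : k ≠ j := fun h => hij (hki.symm.trans h)
      rw [if_pos hki, if_neg hkj, hki, inner_cr_left]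
      simp only [lt_irrefl, if_false, zero_add, add_zero]
      exact h0
    · by_cases hkj : k = j
      · rw [if_neg hki, if_pos hkj, hkj, inner_cr_right]
        simp only [lt_irrefl, if_false, zero_add]
        exact h1
      · rw [if_neg hki, if_neg hkj]
        split_ifs <;> simp
  · simp only [add_smul, Finset.sum_add_distrib, ite_smul, zero_smul, one_smul, Finset.sum_ite_eq',
      Finset.mem_univ, if_true, top]
    abel

theorem inner_fc2 (s : Fin n → E 3) {i j : Fin n} {x : E 3} (hx : x ∈ fc2 s i j) :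
    inner ℝ (cr (s i) (s j)) x = inner ℝ (cr (s i) (s j)) (top s (cr (s i) (s j))) := by
  obtain ⟨y, -, rfl⟩ := hx
  simp only [inner_add_right, inner_smul_right, inner_cr_left, inner_cr_right]
  ring

variable {s : Fin n → E 3}

theorem exists_third (hn : 3 ≤ n) (i j : Fin n) : ∃ k, k ≠ i ∧ k ≠ j := by
  by_contra h
  push Not at h
  have h1 : (Finset.univ : Finset (Fin n)) ⊆ {i, j} := by
    intro k _
    by_cases hk : k = i
    · simp [hk]
    · simp [h k hk]
  have h2 := Finset.card_le_card h1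
  have h3 := Finset.card_le_two (a := i) (b := j)
  simp at h2
  omega

theorem cr_ne (hn : 3 ≤ n) (hs : GP s) {i j : Fin n} (hij : i ≠ j) : cr (s i) (s j) ≠ 0 := by
  obtain ⟨k, hki, hkj⟩ := exists_third hn i j
  intro h
  have := inner_cr_ne (hs i j k hij hki.symm hkj.symm)
  rw [h, inner_zero_left] at this
  exact this rfl

theorem fc2_frontier (hn : 3 ≤ n) (hs : GP s) {i j : Fin n} (hij : i ≠ j) :
    fc2 s i j ⊆ frontier (zono s) := by
  intro x hx
  refine mem_frontier_of_max (cr_ne hn hs hij) (fc2_sub s hij hx) fun z hz => ?_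
  rw [inner_fc2 s hx]
  exact inner_le_top s _ hz

/-- opposite faces are disjoint -/
theorem opp_disj (hn : 3 ≤ n) (hs : GP s) {i j : Fin n} (hij : i ≠ j) :
    fc2 s i j ∩ fc2 s j i = ∅ := by
  obtain ⟨k, hki, hkj⟩ := exists_third hn i j
  have hk := inner_cr_ne (hs i j k hij hki.symm hkj.symm)
  rw [eq_empty_iff_forall_notMem]
  rintro x ⟨h1, h2⟩
  have e1 := inner_fc2 s h1
  have e2 := inner_fc2 s h2
  rw [cr_swap] at e2
  -- both values
  have p1 : 0 ≤ inner ℝ (cr (s i) (s j)) (top s (cr (s i) (s j))) := by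
    have := inner_le_top s (cr (s i) (s j)) (zero_mem_zono s)
    rwa [inner_zero_right] at this
  have p2 : 0 ≤ inner ℝ (cr (s j) (s i)) (top s (cr (s j) (s i))) := by
    have := inner_le_top s (cr (s j) (s i)) (zero_mem_zono s)
    rwa [inner_zero_right] at this
  have hmem : s k ∈ zono s := by
    refine ⟨fun l => if l = k then 1 else 0, fun l => ?_, by simp⟩
    by_cases h : l = k <;> simp [h]
  have q1 := inner_le_top s (cr (s i) (s j)) hmem
  have q2 := inner_le_top s (cr (s j) (s i)) hmem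
  rw [cr_swap] at q2
  apply hk
  have z1 : inner ℝ (cr (s i) (s j)) x = 0 := by linarith
  have z2 : inner ℝ (cr (s i) (s j)) (top s (cr (s i) (s j))) = 0 := by linarith
  have z3 : inner ℝ (cr (s j) (s i)) (top s (cr (s j) (s i))) = 0 := by linarith
  linarith

/-- two different faces meet in a null set -/
theorem fc2_inter (hn : 3 ≤ n) (hs : GP s) {i j k l : Fin n} (hij : i ≠ j) (hkl : k ≠ l)
    (h : (i, j) ≠ (k, l)) : μHE[2] (fc2 s i j ∩ fc2 s k l) = 0 := by
  by_cases hopp : k = j ∧ l = i
  · obtain ⟨rfl, rfl⟩ := hopp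
    rw [opp_disj hn hs hij]; simp
  · have hex : (i ≠ k ∧ i ≠ l) ∨ (j ≠ k ∧ j ≠ l) := by
      by_contra hcon
      push Not at hcon
      obtain ⟨h1, h2⟩ := hcon
      by_cases hik : i = k
      · subst hik
        have := h2 hij.symm
        exact h (by rw [this])
      · have hil := h1 hik
        by_cases hjk : j = k
        · exact hopp ⟨hjk.symm, hil.symm⟩
        · exact hij (hil.trans (h2 hjk).symm)
    have hsub : fc2 s i j ∩ fc2 s k l ⊆ fc2 s i j ∩ {x | inner ℝ (cr (s k) (s l)) x =
        inner ℝ (cr (s k) (s l)) (top s (cr (s k) (s l)))} :=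
      inter_subset_inter_right _ fun x hx => inner_fc2 s hx
    refine measure_mono_null hsub (para_null _ _ _ _ _ ?_)
    rcases hex with ⟨h1, h2⟩ | ⟨h1, h2⟩
    · left; exact inner_cr_ne (hs k l i hkl h1.symm h2.symm)
    · right; exact inner_cr_ne (hs k l j hkl h1.symm h2.symm)

/-- the lower bound for the surface area -/
theorem surface_ge (hn : 3 ≤ n) (hs : GP s) :
    ENNReal.ofReal (∑ i, ∑ j, if i ≠ j then √(gram (s i) (s j)) else 0) ≤
      μHE[2] (frontier (zono s)) := by
  classical
  set I : Finset (Fin n × Fin n) := Finset.univ.filter fun p => p.1 ≠ p.2 with hI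
  have hsub : (⋃ p ∈ I, fc2 s p.1 p.2) ⊆ frontier (zono s) := by
    refine iUnion₂_subset fun p hp => ?_
    rw [hI, Finset.mem_filter] at hp
    exact fc2_frontier hn hs hp.2
  refine le_trans (le_of_eq ?_) (measure_mono hsub)
  rw [measure_biUnion_finset₀]
  · have h1 : ∀ p ∈ I, μHE[2] (fc2 s p.1 p.2) = ENNReal.ofReal √(gram (s p.1) (s p.2)) :=
      fun p _ => area_para _ _ _
    rw [Finset.sum_congr rfl h1, ← ENNReal.ofReal_sum_of_nonneg (fun p _ => Real.sqrt_nonneg _)]
    congr 1
    rw [hI, Finset.sum_filter, ← Finset.univ_product_univ, Finset.sum_product]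
  · intro p hp q hq hpq
    rw [Finset.mem_coe, hI, Finset.mem_filter] at hp hq
    exact fc2_inter hn hs hp.2 hq.2 hpq
  · intro p _
    exact (para_closed _ _ _).measurableSet.nullMeasurableSet

end Pool.Agent.Helper758_ST
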