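import Pool.Agent.Helper758_ST.Z2
import Pool.Agent.Helper758_ST.Z4

set_option autoImplicit false

open MeasureTheory Set Module Filter
open scoped ENNReal Topology

namespace Pool.Agent.Helper758_ST

theorem orth3 {x y z θ : E 3} (h : LinearIndependent ℝ ![x, y, z]) (hx : inner ℝ θ x = 0)
    (hy : inner ℝ θ y = 0) (hz : inner ℝ θ z = 0) : θ = 0 := by
  have hspan := h.span_eq_top_of_card_eq_finrank (by simp)
  have hle : Submodule.span ℝ (range ![x, y, z]) ≤ (ℝ ∙ θ)ᗮ := by
    refine Submodule.span_le.2 ?_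
    rintro _ ⟨i, rfl⟩
    rw [SetLike.mem_coe, Submodule.mem_orthogonal_singleton_iff_inner_right]
    fin_cases i
    · exact hx
    · exact hy
    · exact hz
  rw [hspan] at hle
  have : θ ∈ (ℝ ∙ θ)ᗮ := hle trivial
  rw [Submodule.mem_orthogonal_singleton_iff_inner_right] at this
  exact inner_self_eq_zero.1 this

theorem gram_cr (x y : E 3) : gram x y = ‖cr x y‖ ^ 2 := by
  rw [gram, EuclideanSpace.norm_sq_eq, EuclideanSpace.norm_sq_eq, EuclideanSpace.norm_sq_eq,
    PiLp.inner_apply, Fin.sum_univ_three, Fin.sum_univ_three, Fin.sum_univ_three,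
    Fin.sum_univ_three]
  simp [cr]
  ring

variable {n : ℕ} {s : Fin n → E 3}

theorem zero_pair (hn : 3 ≤ n) (hs : GP s) {θ : E 3} (hθ : θ ≠ 0) :
    ∃ i j, i ≠ j ∧ ∀ k, k ≠ i → k ≠ j → inner ℝ θ (s k) ≠ 0 := by
  by_cases h : ∃ i j, i ≠ j ∧ inner ℝ θ (s i) = 0 ∧ inner ℝ θ (s j) = 0
  · obtain ⟨i, j, hij, hi, hj⟩ := h
    exact ⟨i, j, hij, fun k hki hkj hk => hθ (orth3 (hs i j k hij hki.symm hkj.symm) hi hj hk)⟩
  · push Not at h
    by_cases h1 : ∃ i, inner ℝ θ (s i) = 0
    · obtain ⟨i, hi⟩ := h1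
      obtain ⟨j, hj, -⟩ := exists_third hn i i
      exact ⟨i, j, hj.symm, fun k hki _ hk => h i k hki.symm hi hk⟩
    · push Not at h1
      obtain ⟨j, hj, -⟩ := exists_third hn ⟨0, by omega⟩ ⟨0, by omega⟩
      exact ⟨⟨0, by omega⟩, j, hj.symm, fun k _ _ => h1 k⟩

theorem frontier_finite (hn : 3 ≤ n) (hs : GP s) : μHE[2] (frontier (zono s)) ≠ ⊤ := by
  classical
  have hsub : frontier (zono s) ⊆
      ⋃ P : Finset (Fin n), ⋃ i, ⋃ j, para (∑ k ∈ P, s k) (s i) (s j) := by
    intro x hx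
    obtain ⟨hxK, θ, hθ, hmax⟩ := exists_support (zono_convex s) (zono_compact s).isClosed
      (zero_mem_zono s) hx
    obtain ⟨t, ht, rfl⟩ := hxK
    have hco := fun i => coeff_of_max s θ ht hmax i
    obtain ⟨i, j, hij, hk⟩ := zero_pair hn hs hθ
    refine mem_iUnion.2 ⟨Finset.univ.filter fun k => (k ≠ i ∧ k ≠ j) ∧ 0 < inner ℝ θ (s k),
      mem_iUnion.2 ⟨i, mem_iUnion.2 ⟨j, ?_⟩⟩⟩
    refine ⟨WithLp.toLp 2 ![t i, t j], ⟨by simpa using ht i, by simpa using ht j⟩, ?_⟩
    have e1 : t i • s i = ∑ k, if k = i then t i • s i else 0 := by simp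
    have e2 : t j • s j = ∑ k, if k = j then t j • s j else 0 := by simp
    simp only [Matrix.cons_val_zero, Matrix.cons_val_one]
    rw [e1, e2, Finset.sum_filter, ← Finset.sum_add_distrib, ← Finset.sum_add_distrib]
    refine Finset.sum_congr rfl fun k _ => ?_
    by_cases hki : k = i
    · subst hki
      simp [hij]
    · by_cases hkj : k = j
      · subst hkj
        simp [hki]
      · rw [if_neg hki, if_neg hkj, add_zero, add_zero]
        rcases lt_trichotomy (inner ℝ θ (s k)) 0 with h | h | h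
        · rw [(hco k).2 h, zero_smul, if_neg]
          rintro ⟨-, h'⟩; linarith
        · exact absurd h (hk k hki hkj)
        · rw [(hco k).1 h, one_smul, if_pos ⟨⟨hki, hkj⟩, h⟩]
  refine ne_top_of_le_ne_top ?_ (measure_mono hsub)
  refine ne_top_of_le_ne_top ?_ (measure_iUnion_fintype_le _ _)
  refine (ENNReal.sum_lt_top.2 fun P _ => ?_).ne
  refine lt_of_le_of_lt (measure_iUnion_fintype_le _ _) (ENNReal.sum_lt_top.2 fun i _ => ?_)
  refine lt_of_le_of_lt (measure_iUnion_fintype_le _ _) (ENNReal.sum_lt_top.2 fun j _ => ?_)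
  rw [area_para]
  exact ENNReal.ofReal_lt_top

/-- the sum of the areas of the faces -/
noncomputable def G (s : Fin n → E 3) : ℝ := ∑ i, ∑ j, if i ≠ j then √(gram (s i) (s j)) else 0

theorem G_le (hn : 3 ≤ n) (hs : GP s) : G s ≤ surfaceArea (zono s) := by
  have h := surface_ge hn hs
  exact (ENNReal.ofReal_le_iff_le_toReal (frontier_finite hn hs)).1 h

theorem G_pos (hn : 3 ≤ n) (hs : GP s) : 0 < G s := by
  obtain ⟨j, hj, -⟩ := exists_third hn ⟨0, by omega⟩ ⟨0, by omega⟩
  have h1 : 0 < √(gram (s ⟨0, by omega⟩) (s j)) := by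
    rw [gram_cr, Real.sqrt_sq (norm_nonneg _)]
    exact norm_pos_iff.2 (cr_ne hn hs hj.symm)
  have hnn : ∀ i j : Fin n, 0 ≤ (if i ≠ j then √(gram (s i) (s j)) else 0) := by
    intro i j; split_ifs <;> positivity
  unfold G
  refine Finset.sum_pos' (fun i _ => Finset.sum_nonneg fun j _ => hnn i j)
    ⟨⟨0, by omega⟩, Finset.mem_univ _, ?_⟩
  refine Finset.sum_pos' (fun j _ => hnn _ j) ⟨j, Finset.mem_univ _, ?_⟩
  rw [if_pos hj.symm]
  exact h1

theorem shadow_zono (u : E 3) (s : Fin n → E 3) :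
    shadow u (zono s) = zono fun i => pr u (s i) := by
  ext x
  constructor
  · rintro ⟨_, ⟨t, ht, rfl⟩, rfl⟩
    exact ⟨t, ht, by rw [map_sum]; simp only [map_smul]⟩
  · rintro ⟨t, ht, rfl⟩
    refine ⟨∑ i, t i • s i, ⟨t, ht, rfl⟩, ?_⟩
    rw [map_sum]; simp only [map_smul]

theorem gp_ne (hn : 3 ≤ n) (hs : GP s) (j : Fin n) : s j ≠ 0 := by
  obtain ⟨k, hk, -⟩ := exists_third hn j j
  intro h
  have := cr_ne hn hs hk
  apply this
  ext i
  fin_cases i <;> simp [cr, h]

/-- the shadow along a generator -/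
theorem perim_gen (hn : 3 ≤ n) (hs : GP s) (j : Fin n) :
    perimeter (‖s j‖⁻¹ • s j) (zono s) ≤ ∑ i, 2 * √(gap (‖s j‖⁻¹ • s j) (s i)) := by
  have hj0 := gp_ne hn hs j
  have h' : ‖s j‖ ≠ 0 := norm_ne_zero_iff.2 hj0
  have hu : ‖‖s j‖⁻¹ • s j‖ = 1 := by rw [norm_smul, norm_inv, norm_norm, inv_mul_cancel₀ h']
  set u := ‖s j‖⁻¹ • s j with hu'
  have hprj : pr u (s j) = 0 := by
    have h1 := norm_pr hu (s j)
    have h2 : ‖pr u (s j)‖ ^ 2 = 0 := by
      rw [h1]
      change gap u (s j) = 0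
      rw [hu', gap_unit hj0, gram, real_inner_self_eq_norm_sq]
      field_simp
      ring
    exact norm_eq_zero.1 (pow_eq_zero_iff (two_ne_zero) |>.1 h2)
  rw [perimeter, shadow_zono]
  have hmain := perim_le (finrank_plane hu) (fun i => pr u (s i)) ?_
  · have hn' : ∀ i, ‖pr u (s i)‖ = √(gap u (s i)) := by
      intro i
      rw [gap, ← norm_pr hu, Real.sqrt_sq (norm_nonneg _)]
    simp only [hn'] at hmain
    exact ENNReal.toReal_le_of_le_ofReal (Finset.sum_nonneg fun i _ => by positivity) hmain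
  · intro θ hθ i k hi hk hi0 hk0
    by_contra hik
    have hij : i ≠ j := by rintro rfl; exact hi hprj
    have hkj : k ≠ j := by rintro rfl; exact hk hprj
    have e : ∀ x : E 3, inner ℝ θ (pr u x) = inner ℝ (θ : E 3) x := fun x =>
      Submodule.inner_orthogonalProjectionOnto_eq_of_mem_left θ x
    rw [e] at hi0 hk0
    have hj : inner ℝ (θ : E 3) (s j) = 0 := by
      have h1 : inner ℝ (θ : E 3) (‖s j‖⁻¹ • s j) = 0 :=
        Submodule.mem_orthogonal_singleton_iff_inner_left.1 θ.2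
      rw [inner_smul_right] at h1
      rcases mul_eq_zero.1 h1 with h2 | h2
      · exact absurd h2 (inv_ne_zero h')
      · exact h2
    have := orth3 (hs i k j hik hij hkj) hi0 hk0 hj
    exact hθ (by simpa using this)

theorem key_gap {e : E 3} (he : e ≠ 0) (x : E 3) :
    √(gap (‖e‖⁻¹ • e) x) * ‖e‖ = √(gram e x) := by
  have h' : ‖e‖ ≠ 0 := norm_ne_zero_iff.2 he
  have hpos : 0 < ‖e‖ := norm_pos_iff.2 he
  rw [gap_unit he, Real.sqrt_div' _ (by positivity), Real.sqrt_sq hpos.le, div_mul_cancel₀ _ h']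

/-- Santaló's inequality for zonotopes in general position -/
theorem zono_bound (hn : 3 ≤ n) (hs : GP s) :
    minPerimeter (zono s) ^ 2 ≤ 4 * (1 - 1 / n) * G s := by
  set m := minPerimeter (zono s) with hm
  have hm0 : 0 ≤ m := minPerimeter_nonneg _
  set L := ∑ i, ‖s i‖ with hL
  have hn0 : (0 : ℝ) < n := by
    have : 0 < n := by omega
    exact_mod_cast this
  have hle : ∀ j, m ≤ ∑ i, 2 * √(gap (‖s j‖⁻¹ • s j) (s i)) := by
    intro j
    have h' : ‖s j‖ ≠ 0 := norm_ne_zero_iff.2 (gp_ne hn hs j)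
    have hu : ‖‖s j‖⁻¹ • s j‖ = 1 := by rw [norm_smul, norm_inv, norm_norm, inv_mul_cancel₀ h']
    exact (minPerimeter_le hu _).trans (perim_gen hn hs j)
  have h1 : ∀ j, m * ‖s j‖ ≤ 2 * ∑ i, if j ≠ i then √(gram (s j) (s i)) else 0 := by
    intro j
    have h2 := mul_le_mul_of_nonneg_right (hle j) (norm_nonneg (s j))
    refine h2.trans (le_of_eq ?_)
    rw [Finset.sum_mul, Finset.mul_sum]
    refine Finset.sum_congr rfl fun i _ => ?_
    rw [mul_assoc, key_gap (gp_ne hn hs j)]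
    split_ifs with h
    · rfl
    · push Not at h
      subst h
      have : gram (s j) (s j) = 0 := by rw [gram, real_inner_self_eq_norm_sq]; ring
      rw [this, Real.sqrt_zero]
  have h3 : m * L ≤ 2 * G s := by
    rw [hL, Finset.mul_sum, G, Finset.mul_sum]
    exact Finset.sum_le_sum fun j _ => h1 j
  have h4 : ∀ j, m ≤ 2 * (L - ‖s j‖) := by
    intro j
    refine (hle j).trans ?_
    have h5 : ∀ i, 2 * √(gap (‖s j‖⁻¹ • s j) (s i)) ≤ 2 * (‖s i‖ - if i = j then ‖s j‖ else 0) := by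
      intro i
      by_cases hij : i = j
      · subst hij
        rw [if_pos rfl, sub_self, mul_zero, gap_unit (gp_ne hn hs i)]
        have : gram (s i) (s i) = 0 := by rw [gram, real_inner_self_eq_norm_sq]; ring
        rw [this, zero_div, Real.sqrt_zero, mul_zero]
      · rw [if_neg hij, sub_zero]
        refine mul_le_mul_of_nonneg_left ?_ (by norm_num)
        refine Real.sqrt_le_iff.2 ⟨norm_nonneg _, ?_⟩
        rw [gap]
        nlinarith [sq_nonneg (inner ℝ (‖s j‖⁻¹ • s j) (s i))]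
    refine (Finset.sum_le_sum fun i _ => h5 i).trans (le_of_eq ?_)
    rw [← Finset.mul_sum, Finset.sum_sub_distrib]
    simp [hL]
  have h6 : n * m ≤ 2 * (n - 1) * L := by
    have := Finset.sum_le_sum (s := (Finset.univ : Finset (Fin n))) fun j _ => h4 j
    rw [Finset.sum_const, ← Finset.mul_sum, Finset.sum_sub_distrib, Finset.sum_const] at this
    simp only [Finset.card_univ, Fintype.card_fin, nsmul_eq_mul] at this
    rw [← hL] at this
    linarith
  have hn1 : (1 : ℝ) ≤ n := by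
    have : 1 ≤ n := by omega
    exact_mod_cast this
  have h7 : n * m ^ 2 ≤ 4 * (n - 1) * G s := by
    calc n * m ^ 2 = (n * m) * m := by ring
      _ ≤ (2 * (n - 1) * L) * m := mul_le_mul_of_nonneg_right h6 hm0
      _ = 2 * (n - 1) * (m * L) := by ring
      _ ≤ 2 * (n - 1) * (2 * G s) := mul_le_mul_of_nonneg_left h3 (by linarith)
      _ = _ := by ring
  have h8 : 4 * (1 - 1 / (n : ℝ)) * G s = (4 * (n - 1) * G s) / n := by
    field_simp
  rw [h8, le_div_iff₀ hn0]
  linarith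

theorem zono_bound' (hn : 3 ≤ n) (hs : GP s) :
    minPerimeter (zono s) ^ 2 ≤ 4 * (1 - 1 / n) * surfaceArea (zono s) := by
  refine (zono_bound hn hs).trans (mul_le_mul_of_nonneg_left (G_le hn hs) ?_)
  have hn1 : (1 : ℝ) ≤ n := by
    have : 1 ≤ n := by omega
    exact_mod_cast this
  have : 1 / (n : ℝ) ≤ 1 := by
    rw [div_le_one (by linarith)]; exact hn1
  nlinarith

theorem zono_strict (hn : 3 ≤ n) (hs : GP s) :
    minPerimeter (zono s) ^ 2 < (2 + 4 / √3) * surfaceArea (zono s) := by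
  have hS : 0 < surfaceArea (zono s) := (G_pos hn hs).trans_le (G_le hn hs)
  have h1 := zono_bound' hn hs
  have hn0 : (0 : ℝ) < n := by
    have : 0 < n := by omega
    exact_mod_cast this
  have h2 : 0 < 1 / (n : ℝ) := by positivity
  have h3 : (2 : ℝ) < 4 / √3 := by
    rw [lt_div_iff₀ (by positivity)]
    have : √3 < 2 := by
      rw [Real.sqrt_lt' (by norm_num)]; norm_num
    linarith
  nlinarith [mul_pos h2 hS]

end Pool.Agent.Helper758_ST
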