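import Pool.Agent.Helper758_ST.Z5

set_option autoImplicit false

open MeasureTheory Set Module Filter
open scoped ENNReal Topology

namespace Pool.Agent.Helper758_ST

section mono

variable {V : Type*} [NormedAddCommGroup V] [InnerProductSpace ℝ V]

/-- the nearest point map -/
theorem proj_exists [CompleteSpace V] {K : Set V} (hne : K.Nonempty) (hcl : IsClosed K)
    (hc : Convex ℝ K) : ∃ p : V → V, LipschitzWith 1 p ∧
      ∀ x ∈ K, ∀ y, (∀ z ∈ K, inner ℝ (y - x) (z - x) ≤ 0) → p y = x := by
  have hex := exists_norm_eq_iInf_of_complete_convex hne hcl.isComplete hc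
  choose p hpK hp using hex
  have hchar : ∀ y, ∀ z ∈ K, inner ℝ (y - p y) (z - p y) ≤ 0 := fun y =>
    (norm_eq_iInf_iff_real_inner_le_zero hc (hpK y)).1 (hp y)
  refine ⟨p, ?_, ?_⟩
  · refine LipschitzWith.of_dist_le_mul fun a b => ?_
    rw [NNReal.coe_one, one_mul, dist_eq_norm, dist_eq_norm]
    have h1 := hchar a (p b) (hpK b)
    have h2 := hchar b (p a) (hpK a)
    have h3 : ‖p a - p b‖ ^ 2 ≤ inner ℝ (a - b) (p a - p b) := by
      have e : inner ℝ (a - p a) (p b - p a) + inner ℝ (b - p b) (p a - p b) =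
          ‖p a - p b‖ ^ 2 - inner ℝ (a - b) (p a - p b) := by
        rw [← real_inner_self_eq_norm_sq]
        simp only [inner_sub_left, inner_sub_right]
        ring
      linarith
    have h4 := real_inner_le_norm (a - b) (p a - p b)
    by_contra hcon
    push Not at hcon
    have h5 : 0 ≤ ‖a - b‖ := norm_nonneg _
    nlinarith [norm_nonneg (p a - p b)]
  · intro x hx y hy
    have h1 := hchar y x hx
    have h2 := hy (p y) (hpK y)
    have e : inner ℝ (y - p y) (x - p y) + inner ℝ (y - x) (p y - x) = ‖p y - x‖ ^ 2 := by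
      rw [← real_inner_self_eq_norm_sq]
      simp only [inner_sub_left, inner_sub_right]
      ring
    have h3 : ‖p y - x‖ ^ 2 ≤ 0 := by linarith
    have h4 : ‖p y - x‖ = 0 := by
      have := sq_nonneg ‖p y - x‖
      exact pow_eq_zero_iff (two_ne_zero) |>.1 (le_antisymm h3 this)
    exact sub_eq_zero.1 (norm_eq_zero.1 h4)

/-- supporting hyperplanes, general version -/
theorem exists_support' [FiniteDimensional ℝ V] {K : Set V} (hc : Convex ℝ K) (hcl : IsClosed K)
    {x : V} (hx : x ∈ frontier K) :
    x ∈ K ∧ ∃ θ : V, θ ≠ 0 ∧ ∀ z ∈ K, inner ℝ θ z ≤ inner ℝ θ x := by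
  have hxK : x ∈ K := by
    rw [frontier, hcl.closure_eq] at hx; exact hx.1
  set e := Homeomorph.addRight (-x) with he
  have hKx : (e '' K) = (fun z => z + -x) '' K := rfl
  have hc' : Convex ℝ (e '' K) := by
    rw [hKx]
    have := hc.translate (-x)
    simpa [add_comm] using this
  have hcl' : IsClosed (e '' K) := e.isClosed_image.2 hcl
  have h0 : (0 : V) ∈ e '' K := ⟨x, hxK, by simp [he]⟩
  have hfr : (0 : V) ∈ frontier (e '' K) := by
    rw [← e.image_frontier]
    exact ⟨x, hx, by simp [he]⟩
  obtain ⟨-, θ, hθ, h⟩ := exists_support hc' hcl' h0 hfr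
  refine ⟨hxK, θ, hθ, fun z hz => ?_⟩
  have := h (e z) ⟨z, hz, rfl⟩
  simp only [he, Homeomorph.coe_addRight, inner_zero_right, inner_add_right, inner_neg_right] at this
  linarith

/-- the boundary of a convex set inside a compact set is not larger -/
theorem frontier_mono [FiniteDimensional ℝ V] [MeasurableSpace V] [BorelSpace V] (d : ℕ)
    {K L : Set V} (hc : Convex ℝ K) (hcl : IsClosed K) (hL : IsCompact L) (hKL : K ⊆ L) :
    μHE[d] (frontier K) ≤ μHE[d] (frontier L) := by
  rcases K.eq_empty_or_nonempty with he | hne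
  · rw [he]; simp
  obtain ⟨p, hp1, hp2⟩ := proj_exists hne hcl hc
  have hsub : frontier K ⊆ p '' frontier L := by
    intro x hx
    obtain ⟨hxK, θ, hθ, h⟩ := exists_support' hc hcl hx
    -- the last point of the ray in `L`
    set T : Set ℝ := {t | 0 ≤ t ∧ x + t • θ ∈ L} with hT
    have hcont : Continuous fun t : ℝ => x + t • θ := by fun_prop
    have hTcl : IsClosed T := (isClosed_Ici (a := (0 : ℝ))).inter (hL.isClosed.preimage hcont)
    have hTne : T.Nonempty := ⟨0, le_rfl, by simpa using hKL hxK⟩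
    have hnorm : 0 < ‖θ‖ := norm_pos_iff.2 hθ
    have hTb : BddAbove T := by
      obtain ⟨R, hR⟩ := hL.isBounded.exists_norm_le
      refine ⟨(R + ‖x‖) / ‖θ‖, fun t ht => ?_⟩
      rw [le_div_iff₀ hnorm]
      have h1 := hR _ ht.2
      have h2 : ‖t • θ‖ ≤ ‖x + t • θ‖ + ‖x‖ := by
        have := norm_sub_le (x + t • θ) x
        rwa [add_sub_cancel_left] at this
      rw [norm_smul, Real.norm_of_nonneg ht.1] at h2
      linarith
    have hmem : sSup T ∈ T := hTcl.csSup_mem hTne hTb
    set t := sSup T with ht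
    refine ⟨x + t • θ, ⟨subset_closure hmem.2, fun hint => ?_⟩, ?_⟩
    · have hn : L ∈ 𝓝 (x + t • θ) := mem_interior_iff_mem_nhds.1 hint
      have hev : ∀ᶠ r in 𝓝[>] t, x + r • θ ∈ L :=
        ((hcont.tendsto t).mono_left nhdsWithin_le_nhds).eventually hn
      obtain ⟨r, hr1, hr2⟩ := (hev.and self_mem_nhdsWithin).exists
      have hrt : t < r := hr2
      have : r ≤ t := le_csSup hTb ⟨hmem.1.trans hrt.le, hr1⟩
      linarith
    · refine hp2 x hxK _ fun z hz => ?_
      rw [add_sub_cancel_left, inner_smul_left, inner_sub_right]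
      have := h z hz
      simp only [conj_trivial]
      exact mul_nonpos_of_nonneg_of_nonpos hmem.1 (by linarith)
  refine (measure_mono hsub).trans ?_
  have h1 := hp1.hausdorffMeasure_image_le (d := (d : ℝ)) (Nat.cast_nonneg d) (frontier L)
  rw [ENNReal.coe_one, ENNReal.one_rpow, one_mul] at h1
  rw [Measure.euclideanHausdorffMeasure_def, Measure.smul_apply, Measure.smul_apply]
  exact smul_le_smul_of_nonneg_left h1 zero_le

/-- translates -/
theorem frontier_translate [MeasurableSpace V] [BorelSpace V] (d : ℕ) (v : V) (K : Set V) :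
    μHE[d] (frontier ((fun x => v + x) '' K)) = μHE[d] (frontier K) := by
  have : frontier ((fun x => v + x) '' K) = (fun x => v + x) '' frontier K :=
    ((Homeomorph.addLeft v).image_frontier K).symm
  rw [this, (isometry_add_left v).euclideanHausdorffMeasure_image]

end mono

end Pool.Agent.Helper758_ST
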