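import Pool.Agent.Helper758_ST.Z6

set_option autoImplicit false

open MeasureTheory Set Module Filter
open scoped ENNReal Topology

namespace Pool.Agent.Helper758_ST

variable {n : ℕ} {s : Fin n → E 3}

/-- the algebraic part of the bound -/
theorem alg_bound (hn : 3 ≤ n) (hs : GP s) {m : ℝ} (hm0 : 0 ≤ m)
    (hle : ∀ j, m ≤ ∑ i, 2 * √(gap (‖s j‖⁻¹ • s j) (s i))) :
    m ^ 2 ≤ 4 * (1 - 1 / n) * G s := by
  set L := ∑ i, ‖s i‖ with hL
  have hn0 : (0 : ℝ) < n := by
    have : 0 < n := by omega
    exact_mod_cast this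
  have h1 : ∀ j, m * ‖s j‖ ≤ 2 * ∑ i, if j ≠ i then √(gram (s j) (s i)) else 0 := by
    intro j
    have h2 := mul_le_mul_of_nonneg_right (hle j) (norm_nonneg (s j))
    refine h2.trans (le_of_eq ?_)
    rw [Finset.sum_mul, Finset.mul_sum]
    refine Finset.sum_congr rfl fun i _ => ?_
    rw [mul_assoc, key_gap (gp_ne hn hs j)]
    split_ifs with h
    · rfl
    · push Not at h
      subst h
      have : gram (s j) (s j) = 0 := by rw [gram, real_inner_self_eq_norm_sq]; ring
      rw [this, Real.sqrt_zero]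
  have h3 : m * L ≤ 2 * G s := by
    rw [hL, Finset.mul_sum, G, Finset.mul_sum]
    exact Finset.sum_le_sum fun j _ => h1 j
  have h4 : ∀ j, m ≤ 2 * (L - ‖s j‖) := by
    intro j
    refine (hle j).trans ?_
    have h5 : ∀ i, 2 * √(gap (‖s j‖⁻¹ • s j) (s i)) ≤ 2 * (‖s i‖ - if i = j then ‖s j‖ else 0) := by
      intro i
      by_cases hij : i = j
      · subst hij
        rw [if_pos rfl, sub_self, mul_zero, gap_unit (gp_ne hn hs i)]
        have : gram (s i) (s i) = 0 := by rw [gram, real_inner_self_eq_norm_sq]; ring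
        rw [this, zero_div, Real.sqrt_zero, mul_zero]
      · rw [if_neg hij, sub_zero]
        refine mul_le_mul_of_nonneg_left ?_ (by norm_num)
        refine Real.sqrt_le_iff.2 ⟨norm_nonneg _, ?_⟩
        rw [gap]
        nlinarith [sq_nonneg (inner ℝ (‖s j‖⁻¹ • s j) (s i))]
    refine (Finset.sum_le_sum fun i _ => h5 i).trans (le_of_eq ?_)
    rw [← Finset.mul_sum, Finset.sum_sub_distrib]
    simp [hL]
  have h6 : n * m ≤ 2 * (n - 1) * L := by
    have := Finset.sum_le_sum (s := (Finset.univ : Finset (Fin n))) fun j _ => h4 j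
    rw [Finset.sum_const, ← Finset.mul_sum, Finset.sum_sub_distrib, Finset.sum_const] at this
    simp only [Finset.card_univ, Fintype.card_fin, nsmul_eq_mul] at this
    rw [← hL] at this
    linarith
  have hn1 : (1 : ℝ) ≤ n := by
    have : 1 ≤ n := by omega
    exact_mod_cast this
  have h7 : n * m ^ 2 ≤ 4 * (n - 1) * G s := by
    calc n * m ^ 2 = (n * m) * m := by ring
      _ ≤ (2 * (n - 1) * L) * m := mul_le_mul_of_nonneg_right h6 hm0
      _ = 2 * (n - 1) * (m * L) := by ring
      _ ≤ 2 * (n - 1) * (2 * G s) := mul_le_mul_of_nonneg_left h3 (by linarith)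
      _ = _ := by ring
  have h8 : 4 * (1 - 1 / (n : ℝ)) * G s = (4 * (n - 1) * G s) / n := by
    field_simp
  rw [h8, le_div_iff₀ hn0]
  linarith

/-- a translated zonotope -/
def tz (v : E 3) (s : Fin n → E 3) : Set (E 3) := (fun x => v + x) '' zono s

theorem tz_convex (v : E 3) (s : Fin n → E 3) : Convex ℝ (tz v s) := (zono_convex s).translate v

theorem tz_compact (v : E 3) (s : Fin n → E 3) : IsCompact (tz v s) :=
  (zono_compact s).image (by fun_prop)

theorem GP_smul (hs : GP s) {c : ℝ} (hc : c ≠ 0) : GP fun i => c • s i := by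
  intro i j k hij hik hjk
  have h := (hs i j k hij hik hjk).units_smul fun _ => Units.mk0 c hc
  convert h using 1
  funext l
  fin_cases l <;> simp [Units.smul_def]

theorem G_smul (s : Fin n → E 3) {c : ℝ} (hc : 0 < c) : G (fun i => c • s i) = c ^ 2 * G s := by
  have hg : ∀ x y : E 3, √(gram (c • x) (c • y)) = c ^ 2 * √(gram x y) := by
    intro x y
    have : gram (c • x) (c • y) = (c ^ 2) ^ 2 * gram x y := by
      rw [gram, gram, norm_smul, norm_smul, inner_smul_left, inner_smul_right,
        Real.norm_of_nonneg hc.le]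
      simp only [conj_trivial]
      ring
    rw [this, Real.sqrt_mul (by positivity), Real.sqrt_sq (by positivity)]
  unfold G
  simp only [hg, Finset.mul_sum, mul_ite, mul_zero]

/-- the shadow along a generator, as a measure -/
theorem perim_gen' (hn : 3 ≤ n) (hs : GP s) (j : Fin n) :
    μHE[1] (frontier (zono fun i => pr (‖s j‖⁻¹ • s j) (s i))) ≤
      ENNReal.ofReal (∑ i, 2 * √(gap (‖s j‖⁻¹ • s j) (s i))) := by
  have hj0 := gp_ne hn hs j
  have h' : ‖s j‖ ≠ 0 := norm_ne_zero_iff.2 hj0
  have hu : ‖‖s j‖⁻¹ • s j‖ = 1 := by rw [norm_smul, norm_inv, norm_norm, inv_mul_cancel₀ h']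
  set u := ‖s j‖⁻¹ • s j with hu'
  have hprj : pr u (s j) = 0 := by
    have h1 := norm_pr hu (s j)
    have h2 : ‖pr u (s j)‖ ^ 2 = 0 := by
      rw [h1]
      change gap u (s j) = 0
      rw [hu', gap_unit hj0, gram, real_inner_self_eq_norm_sq]
      field_simp
      ring
    exact norm_eq_zero.1 (pow_eq_zero_iff (two_ne_zero) |>.1 h2)
  have hmain := perim_le (finrank_plane hu) (fun i => pr u (s i)) ?_
  · have hn' : ∀ i, ‖pr u (s i)‖ = √(gap u (s i)) := by
      intro i
      rw [gap, ← norm_pr hu, Real.sqrt_sq (norm_nonneg _)]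
    simp only [hn'] at hmain
    exact hmain
  · intro θ hθ i k hi hk hi0 hk0
    by_contra hik
    have hij : i ≠ j := by rintro rfl; exact hi hprj
    have hkj : k ≠ j := by rintro rfl; exact hk hprj
    have e : ∀ x : E 3, inner ℝ θ (pr u x) = inner ℝ (θ : E 3) x := fun x =>
      Submodule.inner_orthogonalProjectionOnto_eq_of_mem_left θ x
    rw [e] at hi0 hk0
    have hj : inner ℝ (θ : E 3) (s j) = 0 := by
      have h1 : inner ℝ (θ : E 3) (‖s j‖⁻¹ • s j) = 0 :=
        Submodule.mem_orthogonal_singleton_iff_inner_left.1 θ.2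
      rw [inner_smul_right] at h1
      rcases mul_eq_zero.1 h1 with h2 | h2
      · exact absurd h2 (inv_ne_zero h')
      · exact h2
    have := orth3 (hs i k j hik hij hkj) hi0 hk0 hj
    exact hθ (by simpa using this)

theorem shadow_tz (u v : E 3) (s : Fin n → E 3) :
    shadow u (tz v s) = (fun x => pr u v + x) '' zono fun i => pr u (s i) := by
  rw [← shadow_zono, shadow, shadow, tz, image_image, image_image]
  refine image_congr fun x _ => ?_
  rw [map_add]

/-- a convex body between two homothetic zonotopes -/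
theorem sandwich (hn : 3 ≤ n) (hs : GP s) {c : ℝ} (hc : 0 < c) {K : Set (E 3)} (hK : IsCompact K)
    (hcv : Convex ℝ K) {v v' : E 3} (hlow : tz v s ⊆ K) (hup : K ⊆ tz v' fun i => c • s i) :
    minPerimeter K ^ 2 ≤ 4 * (1 - 1 / n) * (c ^ 2 * surfaceArea K) ∧ 0 < surfaceArea K := by
  have hs' := GP_smul hs hc.ne'
  set s' : Fin n → E 3 := fun i => c • s i with hs'def
  -- the surface area
  have hfin : μHE[2] (frontier K) ≠ ⊤ := by
    refine ne_top_of_le_ne_top (frontier_finite hn hs') ?_
    rw [← frontier_translate 2 v' (zono s')]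
    exact frontier_mono 2 hcv hK.isClosed (tz_compact v' s') hup
  have hG : G s ≤ surfaceArea K := by
    have h1 := surface_ge hn hs
    rw [← frontier_translate 2 v (zono s)] at h1
    have h2 := frontier_mono 2 (tz_convex v s) (tz_compact v s).isClosed hK hlow
    exact (ENNReal.ofReal_le_iff_le_toReal hfin).1 (h1.trans h2)
  refine ⟨?_, (G_pos hn hs).trans_le hG⟩
  have hle : ∀ j, minPerimeter K ≤ ∑ i, 2 * √(gap (‖s' j‖⁻¹ • s' j) (s' i)) := by
    intro j
    have h' : ‖s' j‖ ≠ 0 := norm_ne_zero_iff.2 (gp_ne hn hs' j)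
    have hu : ‖‖s' j‖⁻¹ • s' j‖ = 1 := by rw [norm_smul, norm_inv, norm_norm, inv_mul_cancel₀ h']
    refine (minPerimeter_le hu _).trans ?_
    have hcont : Continuous (pr (‖s' j‖⁻¹ • s' j)) := (pr _).continuous
    have hA : IsCompact (shadow (‖s' j‖⁻¹ • s' j) K) := hK.image hcont
    have hB : Convex ℝ (shadow (‖s' j‖⁻¹ • s' j) K) :=
      hcv.linear_image (pr (‖s' j‖⁻¹ • s' j)).toLinearMap
    have hC : IsCompact (shadow (‖s' j‖⁻¹ • s' j) (tz v' s')) := (tz_compact v' s').image hcont
    have h1 := frontier_mono 1 hB hA.isClosed hC (image_mono hup)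
    rw [shadow_tz, frontier_translate] at h1
    exact ENNReal.toReal_le_of_le_ofReal (Finset.sum_nonneg fun i _ => by positivity)
      (h1.trans (perim_gen' hn hs' j))
  have hmain := alg_bound hn hs' (minPerimeter_nonneg K) hle
  rw [hs'def, G_smul s hc] at hmain
  refine hmain.trans (mul_le_mul_of_nonneg_left (mul_le_mul_of_nonneg_left hG (by positivity)) ?_)
  have hn1 : (1 : ℝ) ≤ n := by
    have : 1 ≤ n := by omega
    exact_mod_cast this
  have : 1 / (n : ℝ) ≤ 1 := by
    rw [div_le_one (by linarith)]; exact hn1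
  nlinarith

end Pool.Agent.Helper758_ST
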