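import Pool.Agent.Helper758_ST.Z7

set_option autoImplicit false

open MeasureTheory Set Module Filter
open scoped ENNReal Topology

namespace Pool.Agent.Helper758_ST

/-- every point of `A` is `ε`-close to a point of `B` -/
def Near (ε : ℝ) (A B : Set (E 3)) : Prop := ∀ a ∈ A, ∃ b ∈ B, ‖a - b‖ ≤ ε

theorem hom {A B : Set (E 3)} (hA : Convex ℝ A) {a : E 3} {ρ ε : ℝ} (hρ : 0 < ρ) (hε : 0 < ε)
    (hball : Metric.closedBall a ρ ⊆ A) (hBA : Near ε B A) {b : E 3} (hb : b ∈ B) :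
    a + (1 + ε / ρ)⁻¹ • (b - a) ∈ A := by
  obtain ⟨x, hx, hbx⟩ := hBA b hb
  have hy : a + (ρ / ε) • (b - x) ∈ A := by
    apply hball
    rw [Metric.mem_closedBall, dist_eq_norm, add_sub_cancel_left, norm_smul,
      Real.norm_of_nonneg (by positivity)]
    calc ρ / ε * ‖b - x‖ ≤ ρ / ε * ε := mul_le_mul_of_nonneg_left hbx (by positivity)
      _ = ρ := by field_simp
  have hq : (1 + ε / ρ)⁻¹ = ρ / (ρ + ε) := by field_simp
  have h1 : (0 : ℝ) ≤ ρ / (ρ + ε) := by positivity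
  have h2 : (0 : ℝ) ≤ ε / (ρ + ε) := by positivity
  have h3 : ρ / (ρ + ε) + ε / (ρ + ε) = 1 := by field_simp
  have := hA hx hy h1 h2 h3
  rw [hq]
  convert this using 1
  have e1 : ε / (ρ + ε) = 1 - ρ / (ρ + ε) := by linarith
  have e2 : ε / (ρ + ε) * (ρ / ε) = ρ / (ρ + ε) := by field_simp
  rw [smul_add, smul_smul, e2, e1]
  module

theorem ball_sub {Z K : Set (E 3)} (hZc : Convex ℝ Z) (hZ : IsCompact Z) {a : E 3} {r ε : ℝ}
    (hr : 0 < r) (hε : ε < r / 2) (hball : Metric.closedBall a r ⊆ K) (hKZ : Near ε K Z) :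
    Metric.closedBall a (r / 2) ⊆ Z := by
  intro w hw
  by_contra hwZ
  obtain ⟨f, u, hf1, hf2⟩ := geometric_hahn_banach_closed_point hZc hZ.isClosed hwZ
  have haK : a ∈ K := hball (Metric.mem_closedBall_self hr.le)
  obtain ⟨z0, hz0, -⟩ := hKZ a haK
  set θ := (InnerProductSpace.toDual ℝ (E 3)).symm f with hθdef
  have hf : ∀ x, f x = inner ℝ θ x := fun x => by
    rw [hθdef, InnerProductSpace.toDual_symm_apply]
  have hθ : θ ≠ 0 := by
    intro h
    have h1 := hf1 z0 hz0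
    rw [hf, h, inner_zero_left] at h1
    rw [hf, h, inner_zero_left] at hf2
    linarith
  have hn : 0 < ‖θ‖ := norm_pos_iff.2 hθ
  have hx : a + (r / ‖θ‖) • θ ∈ K := by
    apply hball
    rw [Metric.mem_closedBall, dist_eq_norm, add_sub_cancel_left, norm_smul,
      Real.norm_of_nonneg (by positivity)]
    apply le_of_eq
    field_simp
  obtain ⟨z, hz, hxz⟩ := hKZ _ hx
  have h1 := hf1 z hz
  have h2 : f w ≤ inner ℝ θ a + ‖θ‖ * (r / 2) := by
    rw [hf]
    have e : inner ℝ θ w = inner ℝ θ a + inner ℝ θ (w - a) := by rw [inner_sub_right]; ring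
    rw [e]
    have := real_inner_le_norm θ (w - a)
    have h3 : ‖w - a‖ ≤ r / 2 := by rwa [Metric.mem_closedBall, dist_eq_norm] at hw
    have h4 : ‖θ‖ * ‖w - a‖ ≤ ‖θ‖ * (r / 2) := mul_le_mul_of_nonneg_left h3 hn.le
    linarith
  have h3 : inner ℝ θ a + ‖θ‖ * r - ‖θ‖ * ε ≤ f z := by
    rw [hf]
    have e : inner ℝ θ (a + (r / ‖θ‖) • θ) = inner ℝ θ a + ‖θ‖ * r := by
      rw [inner_add_right, inner_smul_right, real_inner_self_eq_norm_sq]
      field_simp
    have h4 := real_inner_le_norm θ (a + (r / ‖θ‖) • θ - z)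
    rw [inner_sub_right, e] at h4
    have h5 : ‖θ‖ * ‖a + (r / ‖θ‖) • θ - z‖ ≤ ‖θ‖ * ε := mul_le_mul_of_nonneg_left hxz hn.le
    linarith
  have h4 : ‖θ‖ * (r / 2) < ‖θ‖ * (r / 2) := by
    have : ‖θ‖ * ε < ‖θ‖ * (r / 2) := mul_lt_mul_of_pos_left hε hn
    linarith
  exact lt_irrefl _ h4

theorem approx_bound {κ : ℝ} {K : Set (E 3)} (hK : IsCompact K) (hcv : Convex ℝ K)
    (hint : (interior K).Nonempty)
    (happ : ∀ ε : ℝ, 0 < ε → ∃ (n : ℕ) (v : E 3) (s : Fin n → E 3), 3 ≤ n ∧ GP s ∧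
      4 * (1 - 1 / (n : ℝ)) ≤ κ ∧ Near ε K (tz v s) ∧ Near ε (tz v s) K) :
    minPerimeter K ^ 2 ≤ κ * surfaceArea K ∧ 0 < surfaceArea K := by
  obtain ⟨a, ha⟩ := hint
  obtain ⟨r, hr, hball⟩ := Metric.nhds_basis_closedBall.mem_iff.1 (mem_interior_iff_mem_nhds.1 ha)
  have step : ∀ ε : ℝ, 0 < ε → ε < r / 2 →
      minPerimeter K ^ 2 ≤ κ * (((1 + ε / (r / 2)) * (1 + ε / r)) ^ 2 * surfaceArea K) ∧
        0 < surfaceArea K := by
    intro ε hε hεr
    obtain ⟨n, v, s, hn, hs, hκ, h1, h2⟩ := happ ε hε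
    have hp1 : 0 < 1 + ε / r := by positivity
    have hp2 : 0 < 1 + ε / (r / 2) := by positivity
    set q := (1 + ε / r)⁻¹ with hq
    have hq0 : 0 < q := inv_pos.2 hp1
    have hs' := GP_smul hs hq0.ne'
    have hlow : tz (a + q • (v - a)) (fun i => q • s i) ⊆ K := by
      rintro _ ⟨_, ⟨t, ht, rfl⟩, rfl⟩
      have hz : v + ∑ i, t i • s i ∈ tz v s := ⟨_, ⟨t, ht, rfl⟩, rfl⟩
      have := hom hcv hr hε hball h2 hz
      convert this using 1
      have e : ∑ i, t i • q • s i = q • ∑ i, t i • s i := by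
        rw [Finset.smul_sum]
        exact Finset.sum_congr rfl fun i _ => smul_comm _ _ _
      simp only
      rw [e, ← hq]
      module
    have hb2 := ball_sub (tz_convex v s) (tz_compact v s) hr hεr hball h1
    set q' := (1 + ε / (r / 2))⁻¹ with hq'
    have hq'0 : 0 < q' := inv_pos.2 hp2
    have hup : K ⊆ tz (a + q'⁻¹ • (v - a)) fun i => (q'⁻¹ * q⁻¹) • (q • s i) := by
      intro x hx
      obtain ⟨_, ⟨t, ht, rfl⟩, hx2⟩ := hom (tz_convex v s) (by positivity) hε hb2 h1 hx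
      rw [← hq'] at hx2
      have hx2' : v + ∑ i, t i • s i = a + q' • (x - a) := hx2
      refine ⟨_, ⟨t, ht, rfl⟩, ?_⟩
      have e : ∑ i, t i • (q'⁻¹ * q⁻¹) • q • s i = q'⁻¹ • ∑ i, t i • s i := by
        rw [Finset.smul_sum]
        refine Finset.sum_congr rfl fun i _ => ?_
        rw [smul_smul, smul_smul, smul_smul]
        congr 1
        field_simp
      simp only
      rw [e]
      have e2 : ∑ i, t i • s i = a + q' • (x - a) - v := by rw [← hx2']; abel
      rw [e2]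
      have e3 : q'⁻¹ • (a + q' • (x - a) - v) = q'⁻¹ • (a - v) + (x - a) := by
        have : q'⁻¹ • q' • (x - a) = x - a := by rw [smul_smul, inv_mul_cancel₀ hq'0.ne', one_smul]
        rw [show a + q' • (x - a) - v = (a - v) + q' • (x - a) by abel, smul_add, this]
      rw [e3]
      module
    obtain ⟨hA, hB⟩ := sandwich hn hs' (c := q'⁻¹ * q⁻¹) (by positivity) hK hcv hlow hup
    refine ⟨?_, hB⟩
    rw [hq, hq', inv_inv, inv_inv] at hA
    exact hA.trans (mul_le_mul_of_nonneg_right hκ (by positivity))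
  have hS := (step (r / 4) (by positivity) (by linarith)).2
  refine ⟨?_, hS⟩
  have hlim : Tendsto (fun ε : ℝ => κ * (((1 + ε / (r / 2)) * (1 + ε / r)) ^ 2 * surfaceArea K))
      (𝓝[>] 0) (𝓝 (κ * surfaceArea K)) := by
    have hc : Continuous fun ε : ℝ => κ * (((1 + ε / (r / 2)) * (1 + ε / r)) ^ 2 * surfaceArea K) := by
      fun_prop
    have := (hc.tendsto 0).mono_left (nhdsWithin_le_nhds (s := Ioi 0))
    simpa using this
  refine ge_of_tendsto hlim ?_
  have h1 : ∀ᶠ ε : ℝ in 𝓝[>] 0, ε < r / 2 :=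
    nhdsWithin_le_nhds (Iio_mem_nhds (by positivity))
  filter_upwards [h1, self_mem_nhdsWithin] with ε hε1 hε2
  exact (step ε hε2 hε1).1

end Pool.Agent.Helper758_ST
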